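import Mathlib

/-! # UNI: from every `A` to all `A` simultaneously (a net in `A`, monotonicity) -/

set_option autoImplicit false

open Finset

namespace Pool.Agent.EU

private theorem UNI_dev (κ ε δ L a b₁ b₂ s s₁ s₂ : ℝ) (hκ : 0 < κ) (hε : 0 < ε) (hδ : 0 < δ)
    (hδ2 : δ * (4 * (κ + ε)) ≤ ε) (hL : 0 < L) (ha : 0 < a) (hb1 : b₁ ≤ a) (hb1' : a ≤ (1 + 2 * δ) * b₁) (hb2 : b₂ ≤ (1 + δ) * a)
    (hb20 : 0 ≤ b₂)
    (hs1 : s₁ ≤ s) (hs2 : s ≤ s₂) (h1 : |s₁ - κ * (b₁ / L)| ≤ ε / 2 * (b₁ / L)) (h2 : |s₂ - κ * (b₂ / L)| ≤ ε / 2 * (b₂ / L)) :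
    |s - κ * (a / L)| ≤ ε * (a / L) := by
  rw [abs_le] at h1 h2 ⊢
  have haL : 0 < a / L := by positivity
  have e1 : b₁ / L ≤ a / L := by gcongr
  have e2 : a / L ≤ (1 + 2 * δ) * (b₁ / L) := by
    rw [← mul_div_assoc]; gcongr
  have e3 : b₂ / L ≤ (1 + δ) * (a / L) := by
    rw [← mul_div_assoc]; gcongr
  have e4 : 0 ≤ b₂ / L := by positivity
  have hb10 : 0 ≤ b₁ / L := by
    by_contra hc
    nlinarith
  set u := a / L
  set v := b₁ / L
  set w := b₂ / L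
  have k1 : δ * κ ≤ ε / 4 := by nlinarith
  have k2 : δ * (κ + ε) ≤ ε / 4 := by nlinarith
  constructor
  · -- lower
    have f1 : u - 2 * δ * v ≤ v := by linarith
    have f2 : u - 2 * δ * u ≤ v := by nlinarith
    have f3 : κ * (u - 2 * δ * u) ≤ κ * v := by gcongr
    have f4 : κ * v - ε / 2 * v ≤ s₁ := by linarith [h1.1]
    nlinarith
  · have f1 : (κ + ε / 2) * w ≤ (κ + ε / 2) * ((1 + δ) * u) := by gcongr
    have f2 : s₂ ≤ (κ + ε / 2) * w := by linarith [h2.2]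
    nlinarith

open scoped Classical in
theorem UNI (κ : ℝ) (hκ : 0 < κ) (s : ℕ → ℕ → ℕ) (hs : ∀ p A A' : ℕ, A ≤ A' → s A p ≤ s A' p)
    (h : ∀ η : ℝ, 0 < η → ∀ ε : ℝ, 0 < ε → ∀ C : ℕ, ∃ x₀ : ℕ, ∀ x : ℕ, x₀ ≤ x → ∀ A : ℕ, (x : ℝ) ^ (2 / 3 + η) ≤ A → A ≤ x →
      (#{p ∈ Ioc x (2 * x) | p.Prime ∧ ε * (A / Real.log x) < |(s A p : ℝ) - κ * (A / Real.log x)|} : ℝ) ≤ x / Real.log x ^ C) :
    ∀ η : ℝ, 0 < η → ∀ ε : ℝ, 0 < ε → ∀ C : ℕ, ∃ x₀ : ℕ, ∀ x : ℕ, x₀ ≤ x →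
      (#{p ∈ Ioc x (2 * x) | p.Prime ∧ ∃ A : ℕ, (x : ℝ) ^ (2 / 3 + η) ≤ A ∧ A ≤ x ∧
        ε * (A / Real.log x) < |(s A p : ℝ) - κ * (A / Real.log x)|} : ℝ) ≤ x / Real.log x ^ C := by
  intro η hη ε hε C
  set δ : ℝ := min (1 / 4) (ε / (4 * (κ + ε))) with hδdef
  have hδ : 0 < δ := by
    rw [hδdef]; apply lt_min (by norm_num); positivity
  have hδ2 : δ * (4 * (κ + ε)) ≤ ε := by
    have h1 : δ ≤ ε / (4 * (κ + ε)) := min_le_right _ _
    rwa [le_div_iff₀ (by positivity)] at h1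
  have hδ4 : δ ≤ 1 / 4 := min_le_left _ _
  obtain ⟨x₁, h1⟩ := h (η / 2) (by positivity) (ε / 2) (by positivity) (C + 2)
  have hl : 0 < Real.log (1 + δ) := Real.log_pos (by linarith)
  have t1 := (tendsto_rpow_atTop (show 0 < η / 2 by positivity)).eventually_ge_atTop 2
  have t2 := Real.tendsto_log_atTop.eventually_ge_atTop (max 1 (1 / Real.log (1 + δ) + 4))
  have t3 := (tendsto_rpow_atTop (show (0 : ℝ) < 2 / 3 by norm_num)).eventually_ge_atTop (4 / δ)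
  have t4 := Filter.eventually_ge_atTop (1 : ℝ)
  have t5 := tendsto_natCast_atTop_atTop (R := ℝ) |>.eventually (t1.and (t2.and (t3.and t4)))
  obtain ⟨x₂, h2⟩ := Filter.eventually_atTop.1 t5
  refine ⟨max x₁ x₂, fun x hx => ?_⟩
  have hx1 : x₁ ≤ x := le_trans (le_max_left _ _) hx
  obtain ⟨a1, a2, a3, a4⟩ := h2 x (le_trans (le_max_right _ _) hx)
  have hx0 : (0 : ℝ) < x := by linarith
  set L := Real.log x with hL
  have hL1 : 1 ≤ L := le_trans (le_max_left _ _) a2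
  have hL2 : 1 / Real.log (1 + δ) + 4 ≤ L := le_trans (le_max_right _ _) a2
  set B : ℕ → ℕ := fun k => ⌊(x : ℝ) / (1 + δ) ^ k⌋₊ with hB
  set K : ℕ := ⌈L / Real.log (1 + δ)⌉₊ + 2 with hK
  set E : ℕ → Finset ℕ := fun k => if (x : ℝ) ^ (2 / 3 + η / 2) ≤ (B k : ℝ) then
    {p ∈ Ioc x (2 * x) | p.Prime ∧ ε / 2 * ((B k : ℝ) / L) < |(s (B k) p : ℝ) - κ * ((B k : ℝ) / L)|} else ∅ with hE
  have hBx : ∀ k, B k ≤ x := by
    intro k
    have h3 : (x : ℝ) / (1 + δ) ^ k ≤ x := by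
      apply div_le_self hx0.le
      exact one_le_pow₀ (by linarith)
    have h4 := Nat.floor_le_floor h3
    rwa [Nat.floor_natCast] at h4
  have hEcard : ∀ k, (#(E k) : ℝ) ≤ x / L ^ (C + 2) := by
    intro k
    rw [hE]
    simp only
    split_ifs with hk
    · exact h1 x hx1 (B k) hk (hBx k)
    · rw [Finset.card_empty]; push_cast; positivity
  have hpow : (x : ℝ) ^ (2 / 3 + η) = (x : ℝ) ^ (2 / 3 + η / 2) * (x : ℝ) ^ (η / 2) := by
    rw [← Real.rpow_add hx0]; congr 1; ring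
  have hpow2 : (x : ℝ) ^ (2 / 3 : ℝ) ≤ (x : ℝ) ^ (2 / 3 + η / 2) := Real.rpow_le_rpow_of_exponent_le a4 (by linarith)
  have hsub : {p ∈ Ioc x (2 * x) | p.Prime ∧ ∃ A : ℕ, (x : ℝ) ^ (2 / 3 + η) ≤ A ∧ A ≤ x ∧
        ε * (A / L) < |(s A p : ℝ) - κ * (A / L)|} ⊆ (range (K + 1)).biUnion E := by
    intro p hp
    rw [Finset.mem_filter] at hp
    obtain ⟨hpI, hpp, A, hA1, hA2, hA3⟩ := hp
    have hA1' : 2 * (x : ℝ) ^ (2 / 3 + η / 2) ≤ A := by
      rw [hpow] at hA1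
      nlinarith [Real.rpow_nonneg hx0.le (2 / 3 + η / 2)]
    have hAr : 4 / δ ≤ (x : ℝ) ^ (2 / 3 + η / 2) := a3.trans hpow2
    have hAδ : 8 / δ ≤ A := by
      have : 8 / δ = 2 * (4 / δ) := by ring
      rw [this]; linarith
    have hA0 : (0 : ℝ) < A := lt_of_lt_of_le (by positivity) hAδ
    have hAn : 0 < A := by exact_mod_cast hA0
    -- first k with B k < A
    have hex : ∃ k, B k < A := by
      obtain ⟨n, hn⟩ := pow_unbounded_of_one_lt (x : ℝ) (show (1 : ℝ) < 1 + δ by linarith)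
      refine ⟨n, ?_⟩
      have : (x : ℝ) / (1 + δ) ^ n < 1 := by
        rw [div_lt_one (by positivity)]; exact hn
      have h3 : B n = 0 := by
        rw [hB]
        simp only
        rw [Nat.floor_eq_zero]
        exact this
      omega
    classical
    set k := Nat.find hex with hkdef
    have hk1 : B k < A := Nat.find_spec hex
    have hk0 : k ≠ 0 := by
      intro h0
      rw [h0] at hk1
      have : B 0 = x := by
        rw [hB]
        simp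
      omega
    obtain ⟨j, hj⟩ := Nat.exists_eq_succ_of_ne_zero hk0
    have hk2 : A ≤ B j := by
      have := Nat.find_min hex (m := j) (by rw [← hkdef, hj]; exact Nat.lt_succ_self j)
      omega
    rw [hj] at hk1
    -- real inequalities
    have hr1 : (x : ℝ) / (1 + δ) ^ (j + 1) < (B (j + 1) : ℝ) + 1 := Nat.lt_floor_add_one _
    have hr2 : (B j : ℝ) ≤ (x : ℝ) / (1 + δ) ^ j := Nat.floor_le (by positivity)
    have hr3 : (x : ℝ) / (1 + δ) ^ j = (1 + δ) * ((x : ℝ) / (1 + δ) ^ (j + 1)) := by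
      rw [pow_succ]; field_simp
    have hk1r : (B (j + 1) : ℝ) + 1 ≤ A := by exact_mod_cast hk1
    have hk2r : (A : ℝ) ≤ B j := by exact_mod_cast hk2
    have hb2 : (B j : ℝ) ≤ (1 + δ) * A := by
      rw [hr3] at hr2
      nlinarith
    have hb1 : (A : ℝ) ≤ (1 + 2 * δ) * (B (j + 1) : ℝ) := by
      have h3 : (A : ℝ) ≤ (1 + δ) * ((B (j + 1) : ℝ) + 1) := by
        rw [hr3] at hr2
        nlinarith
      have h4 : 8 ≤ A * δ := by rwa [div_le_iff₀ hδ] at hAδ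
      have h5 : 1 + δ ≤ δ * (B (j + 1) : ℝ) := by nlinarith
      nlinarith
    have hge1 : (x : ℝ) ^ (2 / 3 + η / 2) ≤ (B (j + 1) : ℝ) := by nlinarith
    have hge2 : (x : ℝ) ^ (2 / 3 + η / 2) ≤ (B j : ℝ) := by nlinarith [Real.rpow_nonneg hx0.le (2 / 3 + η / 2)]
    -- j is small
    have hjK : j ≤ ⌈L / Real.log (1 + δ)⌉₊ := by
      have h3 : (1 : ℝ) ≤ (x : ℝ) / (1 + δ) ^ j := by
        have : (1 : ℝ) ≤ A := by exact_mod_cast hAn
        linarith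
      rw [le_div_iff₀ (by positivity), one_mul] at h3
      have h4 : (j : ℝ) * Real.log (1 + δ) ≤ L := by
        have := Real.log_le_log (by positivity) h3
        rwa [Real.log_pow] at this
      have h5 : (j : ℝ) ≤ L / Real.log (1 + δ) := by rwa [le_div_iff₀ hl]
      exact_mod_cast h5.trans (Nat.le_ceil _)
    rw [Finset.mem_biUnion]
    by_contra hcon
    push Not at hcon
    have n1 := hcon (j + 1) (by rw [Finset.mem_range]; omega)
    have n2 := hcon j (by rw [Finset.mem_range]; omega)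
    rw [hE] at n1 n2
    simp only at n1 n2
    rw [if_pos hge1, Finset.mem_filter, not_and] at n1
    rw [if_pos hge2, Finset.mem_filter, not_and] at n2
    have n1' := n1 hpI
    have n2' := n2 hpI
    rw [not_and, not_lt] at n1' n2'
    have m1 := n1' hpp
    have m2 := n2' hpp
    have hfin := UNI_dev κ ε δ L A (B (j + 1)) (B j) (s A p) (s (B (j + 1)) p) (s (B j) p) hκ hε hδ hδ2 (by linarith) hA0
      (by linarith) hb1 hb2 (Nat.cast_nonneg _)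
      (by exact_mod_cast hs p _ _ hk1.le) (by exact_mod_cast hs p _ _ hk2) m1 m2
    exact absurd hA3 (not_lt.2 hfin)
  have hcard : (#{p ∈ Ioc x (2 * x) | p.Prime ∧ ∃ A : ℕ, (x : ℝ) ^ (2 / 3 + η) ≤ A ∧ A ≤ x ∧
        ε * (A / L) < |(s A p : ℝ) - κ * (A / L)|} : ℝ) ≤ (K + 1 : ℕ) * (x / L ^ (C + 2)) := by
    have h3 := Finset.card_le_card hsub
    have h4 : #((range (K + 1)).biUnion E) ≤ ∑ k ∈ range (K + 1), #(E k) := Finset.card_biUnion_le
    calc (#{p ∈ Ioc x (2 * x) | p.Prime ∧ ∃ A : ℕ, (x : ℝ) ^ (2 / 3 + η) ≤ A ∧ A ≤ x ∧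
        ε * (A / L) < |(s A p : ℝ) - κ * (A / L)|} : ℝ) ≤ ((∑ k ∈ range (K + 1), #(E k) : ℕ) : ℝ) := by exact_mod_cast h3.trans h4
      _ = ∑ k ∈ range (K + 1), (#(E k) : ℝ) := by push_cast; rfl
      _ ≤ ∑ k ∈ range (K + 1), (x / L ^ (C + 2)) := Finset.sum_le_sum fun k _ => hEcard k
      _ = (K + 1 : ℕ) * (x / L ^ (C + 2)) := by rw [Finset.sum_const, Finset.card_range, nsmul_eq_mul]
  refine hcard.trans ?_
  have hK1 : ((K + 1 : ℕ) : ℝ) ≤ L ^ 2 := by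
    have h3 : (⌈L / Real.log (1 + δ)⌉₊ : ℝ) ≤ L / Real.log (1 + δ) + 1 := (Nat.ceil_lt_add_one (by positivity)).le
    have h4 : ((K + 1 : ℕ) : ℝ) = (⌈L / Real.log (1 + δ)⌉₊ : ℝ) + 3 := by
      rw [hK]; push_cast; ring
    rw [h4]
    have h5 : L / Real.log (1 + δ) = L * (1 / Real.log (1 + δ)) := by ring
    have h6 : (0 : ℝ) < 1 / Real.log (1 + δ) := by positivity
    nlinarith
  calc ((K + 1 : ℕ) : ℝ) * (x / L ^ (C + 2)) ≤ L ^ 2 * (x / L ^ (C + 2)) := by gcongr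
    _ = x / L ^ C := by rw [pow_add]; field_simp

end Pool.Agent.EU
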