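import Pool.Agent.helper52.EU.SpecK

/-!
# eu:KRG (MP_ad8ced_nt): the rough Moebius function
-/

set_option autoImplicit false

open Finset

noncomputable section

namespace Pool.Agent.EU

open Pool.Agent.FI Pool.Agent.HK Pool.Agent.BP Pool.Agent.YB
open Pool.Agent.CH (nit rgh)

private theorem KRG_nit_norm (t x : ℝ) : ‖nit t x‖ = 1 := by
  unfold CH.nit
  rw [Complex.norm_exp_ofReal_mul_I]

private theorem KRG_nit_mul (t x y : ℝ) (hx : 0 < x) (hy : 0 < y) : nit t (x * y) = nit t x * nit t y := by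
  unfold CH.nit
  rw [← Complex.exp_add, Real.log_mul hx.ne' hy.ne']
  congr 1
  push_cast
  ring

private theorem KRG_nn (z w : ℤ × ℤ) : nn (mul8 z w) = nn z * nn w := by
  unfold nn
  rw [← Int.natAbs_mul]
  congr 1
  unfold N8 mul8
  ring

private theorem KRG_odd (z : ℤ × ℤ) (h : z.1 % 2 = 1) : 0 < nn z := by
  unfold nn
  rw [Int.natAbs_pos]
  intro h0
  unfold N8 at h0
  have h1 : z.1 ^ 2 % 2 = 1 := by
    rw [pow_two, Int.mul_emod, h]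
    norm_num
  generalize z.1 ^ 2 = u at *
  generalize z.2 ^ 2 = v at *
  omega

private theorem KRG_mem {u : ℕ} {z : ℤ × ℤ} (h : z ∈ FF u) : 0 < nn z ∧ nn z ≤ u := by
  classical
  unfold FF at h
  rw [mem_filter] at h
  exact ⟨KRG_odd z h.2.1.1, h.2.2⟩

private theorem KRG_mue (z : ℤ × ℤ) : ‖(mue z : ℂ)‖ ≤ 1 := by
  rw [Complex.norm_real, Real.norm_eq_abs]
  unfold mue
  split_ifs with h
  · rw [abs_mul]
    have h1 : |((ArithmeticFunction.moebius (nn z / Int.gcd z.1 z.2 ^ 2) : ℤ) : ℝ)| ≤ 1 := by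
      have h2 := ArithmeticFunction.abs_moebius_le_one (n := nn z / Int.gcd z.1 z.2 ^ 2)
      rw [← Int.cast_abs]
      exact_mod_cast h2
    have h3 : |ch8 (Int.gcd z.1 z.2)| ≤ 1 := by
      unfold ch8
      split_ifs <;> simp
    calc _ ≤ (1 : ℝ) * 1 := mul_le_mul h1 h3 (abs_nonneg _) zero_le_one
      _ = 1 := one_mul _
  · simp

private theorem KRG_wm (Z : ℝ) (z : ℤ × ℤ) : ‖wm Z z‖ ≤ 1 := by
  unfold wm
  split_ifs
  · exact KRG_mue z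
  · simp

private theorem KRG_w1 (Z : ℝ) (z : ℤ × ℤ) : ‖w1 Z z‖ ≤ 1 := by
  unfold w1
  split_ifs <;> simp

private theorem KRG_ct (z₀ : ℕ) (Z : ℝ) (z : ℤ × ℤ) : ‖ct z₀ (wm Z) z‖ ≤ 1 := by
  unfold ct
  split_ifs
  · exact KRG_wm Z z
  · simp

private theorem KRG_c (q : ℕ) (ξ : ℤ × ℤ → ℂ) (h : IsX q ξ) (i₁ i : ℕ) (t : ℝ) (z : ℤ × ℤ) :
    ‖ξ z * s1 z ^ i₁ * ((N8 z).sign : ℂ) ^ i * nit t (nn z)‖ ≤ 1 := by
  obtain ⟨-, -, -, -, h0, h1⟩ := h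
  have e1 : ‖ξ z‖ ≤ 1 := by
    by_cases hz : Nat.Coprime (nn z) q
    · exact (h1 z hz).le
    · rw [h0 z hz]
      simp
  have e2 : ‖s1 z ^ i₁‖ ≤ 1 := by
    rw [norm_pow]
    refine pow_le_one₀ (norm_nonneg _) ?_
    unfold s1
    split_ifs <;> simp
  have e3 : ‖((N8 z).sign : ℂ) ^ i‖ ≤ 1 := by
    rw [norm_pow]
    refine pow_le_one₀ (norm_nonneg _) ?_
    rcases Int.lt_trichotomy (N8 z) 0 with h | h | h
    · rw [Int.sign_eq_neg_one_of_neg h]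
      simp
    · rw [h]
      simp
    · rw [Int.sign_eq_one_of_pos h]
      simp
  rw [norm_mul, norm_mul, norm_mul, KRG_nit_norm, mul_one]
  calc _ ≤ (1 : ℝ) * 1 * 1 := by
        refine mul_le_mul (mul_le_mul e1 e2 (norm_nonneg _) zero_le_one) e3 (norm_nonneg _) (by norm_num)
    _ = 1 := by norm_num

/-- the family -/
private theorem KRG_fam (hUHX : UHX_stmt) (q : ℕ) (ξ : ℤ × ℤ → ℂ) (i₁ i : ℕ) (α t : ℝ) (hX : IsX q ξ)
    (hI : ∀ m : ℤ, XInv ξ i₁ (fr α m)) :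
    FamX α (fun m z => HX ξ i₁ i (fr α m) z * nit t (nn z))
      (fun z => ξ z * s1 z ^ i₁ * ((N8 z).sign : ℂ) ^ i * nit t (nn z)) := by
  refine ⟨fun m => ⟨?_, ?_⟩, fun z => KRG_c q ξ hX i₁ i t z, ?_⟩
  · intro z w hz hw
    have h1 := (hUHX.1 q ξ i₁ i (fr α m) hX (hI m)).1 z w hz hw
    have h2 : (0 : ℝ) < nn z := by exact_mod_cast KRG_odd z hz
    have h3 : (0 : ℝ) < nn w := by exact_mod_cast KRG_odd w hw
    show HX ξ i₁ i (fr α m) (mul8 z w) * nit t (nn (mul8 z w)) =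
      HX ξ i₁ i (fr α m) z * nit t (nn z) * (HX ξ i₁ i (fr α m) w * nit t (nn w))
    rw [h1, KRG_nn, Nat.cast_mul, KRG_nit_mul t _ _ h2 h3]
    ring
  · intro u hu
    have h1 := (hUHX.1 q ξ i₁ i (fr α m) hX (hI m)).2.1 u hu
    have h2 : nn u = 1 := by
      unfold nn
      rw [hu]
      rfl
    show HX ξ i₁ i (fr α m) u * nit t (nn u) = 1
    rw [h1, h2]
    unfold CH.nit
    simp
  · intro m z _
    show HX ξ i₁ i (fr α m) z * nit t (nn z) = _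
    unfold HX
    push_cast
    ring

/-- the identity for one character -/
private theorem KRG_hbe (hHBE : HBE_stmt) (q : ℕ) (Ψ : ℤ × ℤ → ℂ) (hU : UX q Ψ) (t Z : ℝ) (z₀ a b : ℕ)
    (h0 : 1 ≤ z₀) (h1 : z₀ ≤ a) (h2 : b ≤ z₀ ^ 2) :
    Sh (wm Z) Ψ t a b = -∑ z₁ ∈ FF b, ∑ z₂ ∈ FF b, ∑ z₃ ∈ FF b,
      if a < nn z₁ * nn z₂ * nn z₃ ∧ nn z₁ * nn z₂ * nn z₃ ≤ b then
        ct z₀ (wm Z) z₁ * ct z₀ (wm Z) z₂ * w1 Z z₃ *
          ((Ψ z₁ * nit t (nn z₁)) * (Ψ z₂ * nit t (nn z₂)) * (Ψ z₃ * nit t (nn z₃))) else 0 := by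
  have key := hHBE q Ψ hU Z z₀ a b (fun n => if a < n ∧ n ≤ b then nit t (n : ℝ) else 0) h0 h1 h2
    (fun n hn => by
      by_contra h
      exact hn (if_neg h))
  have e1 : Sh (wm Z) Ψ t a b =
      ∑ z ∈ FF b, wm Z z * Ψ z * (if a < nn z ∧ nn z ≤ b then nit t ((nn z : ℕ) : ℝ) else 0) := by
    unfold Sh
    rw [sum_filter]
    refine sum_congr rfl fun z hz => ?_
    have hz2 := (KRG_mem hz).2
    by_cases hc : a < nn z
    · rw [if_pos hc, if_pos ⟨hc, hz2⟩]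
      ring
    · rw [if_neg hc, if_neg (fun h => hc h.1), mul_zero]
  rw [e1]
  refine key.trans ?_
  rw [neg_inj]
  refine sum_congr rfl fun z₁ hz₁ => sum_congr rfl fun z₂ hz₂ => sum_congr rfl fun z₃ hz₃ => ?_
  have p1 : (0 : ℝ) < nn z₁ := by exact_mod_cast (KRG_mem hz₁).1
  have p2 : (0 : ℝ) < nn z₂ := by exact_mod_cast (KRG_mem hz₂).1
  have p3 : (0 : ℝ) < nn z₃ := by exact_mod_cast (KRG_mem hz₃).1
  show _ * (if a < nn z₁ * nn z₂ * nn z₃ ∧ nn z₁ * nn z₂ * nn z₃ ≤ b then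
    nit t ((nn z₁ * nn z₂ * nn z₃ : ℕ) : ℝ) else 0) = _
  split_ifs with hc
  · rw [Nat.cast_mul, Nat.cast_mul, KRG_nit_mul t _ _ (mul_pos p1 p2) p3, KRG_nit_mul t _ _ p1 p2]
    ring
  · rw [mul_zero]

/-- arithmetic -/
private theorem KRG_num (C L N l s P : ℝ) (A E : ℕ) (hC : 0 < C) (hL : 8 ≤ L) (hL1 : 8 * 6 ^ 6 * C ≤ L)
    (hL2 : 8 * 3 ^ E * C ≤ L) (hN : 0 ≤ N) (hl0 : 0 ≤ l) (hl : l ≤ 3 * L) (hs : s ≤ N / L ^ (E + A + 1))
    (hP1 : L ^ (2 * (E + A + 5)) ≤ P) (hP2 : P ≤ 2 * L ^ (2 * (E + A + 5))) :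
    C * (P * l) ^ 6 * (N ^ 2 / L ^ (6 * (2 * (E + A + 5) + 1) + A + 1)) +
      C * 1 ^ 6 * l ^ E * N * (N / √P + s) ≤ 3 / 8 * (N ^ 2 / L ^ A) := by
  have hL0 : 0 < L := by linarith
  have hL1' : 1 ≤ L := by linarith
  set G := 2 * (E + A + 5) with hG
  have hP0 : 0 < P := lt_of_lt_of_le (by positivity) hP1
  have hX0 : 0 ≤ N ^ 2 / L ^ A := by positivity
  -- first term
  have h1 : P * l ≤ 6 * L ^ (G + 1) := by
    calc P * l ≤ 2 * L ^ G * (3 * L) := mul_le_mul hP2 hl hl0 (by positivity)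
      _ = 6 * L ^ (G + 1) := by ring
  have h2 : (P * l) ^ 6 ≤ 6 ^ 6 * L ^ (6 * (G + 1)) := by
    calc (P * l) ^ 6 ≤ (6 * L ^ (G + 1)) ^ 6 := pow_le_pow_left₀ (by positivity) h1 6
      _ = 6 ^ 6 * L ^ (6 * (G + 1)) := by
        rw [mul_pow, ← pow_mul, mul_comm (G + 1) 6]
  have h3 : C * (P * l) ^ 6 * (N ^ 2 / L ^ (6 * (G + 1) + A + 1)) ≤ 1 / 8 * (N ^ 2 / L ^ A) := by
    calc C * (P * l) ^ 6 * (N ^ 2 / L ^ (6 * (G + 1) + A + 1))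
        ≤ C * (6 ^ 6 * L ^ (6 * (G + 1))) * (N ^ 2 / L ^ (6 * (G + 1) + A + 1)) := by
          refine mul_le_mul_of_nonneg_right (mul_le_mul_of_nonneg_left h2 hC.le) (by positivity)
      _ = (8 * 6 ^ 6 * C) / L * (1 / 8 * (N ^ 2 / L ^ A)) := by
          rw [pow_add, pow_add]
          field_simp
      _ ≤ 1 * (1 / 8 * (N ^ 2 / L ^ A)) := by
          refine mul_le_mul_of_nonneg_right ?_ (by positivity)
          rwa [div_le_one hL0]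
      _ = _ := one_mul _
  -- second term
  have h4 : l ^ E ≤ 3 ^ E * L ^ E := by
    rw [← mul_pow]
    exact pow_le_pow_left₀ hl0 hl E
  have h5 : L ^ (E + A + 5) ≤ √P := by
    rw [Real.le_sqrt (by positivity) hP0.le, ← pow_mul]
    rw [mul_comm (E + A + 5) 2]
    exact hP1
  have h6 : N / √P ≤ N / L ^ (E + A + 1) := by
    refine div_le_div_of_nonneg_left hN (by positivity) (le_trans ?_ h5)
    exact pow_le_pow_right₀ hL1' (by omega)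
  have h7 : N / √P + s ≤ 2 * (N / L ^ (E + A + 1)) := by linarith
  have h8 : C * 1 ^ 6 * l ^ E * N * (N / √P + s) ≤ 1 / 4 * (N ^ 2 / L ^ A) := by
    calc C * 1 ^ 6 * l ^ E * N * (N / √P + s)
        ≤ C * 1 ^ 6 * l ^ E * N * (2 * (N / L ^ (E + A + 1))) :=
          mul_le_mul_of_nonneg_left h7 (by positivity)
      _ ≤ C * 1 ^ 6 * (3 ^ E * L ^ E) * N * (2 * (N / L ^ (E + A + 1))) := by
          refine mul_le_mul_of_nonneg_right (mul_le_mul_of_nonneg_right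
            (mul_le_mul_of_nonneg_left h4 (by positivity)) hN) (by positivity)
      _ = (8 * 3 ^ E * C) / L * (1 / 4 * (N ^ 2 / L ^ A)) := by
          rw [pow_add, pow_add]
          field_simp
          ring
      _ ≤ 1 * (1 / 4 * (N ^ 2 / L ^ A)) := by
          refine mul_le_mul_of_nonneg_right ?_ (by positivity)
          rwa [div_le_one hL0]
      _ = _ := one_mul _
  linarith

private theorem KRG_lep : 1 ≤ lep := by
  unfold lep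
  rw [Real.le_log_iff_exp_le (by positivity)]
  have h1 := Real.exp_one_lt_d9
  have h2 : 0 ≤ √(8 : ℝ) := Real.sqrt_nonneg _
  linarith

theorem KRG (hHBE : HBE_stmt) (hCSP : CSP_stmt) (hKRB : KRB_stmt) (hSUM : SUM_stmt) (hUHX : UHX_stmt) :
    KRG_stmt := by
  classical
  intro η hη hη1 A B C₀ hC₀
  obtain ⟨C, E, hC, HC⟩ := hCSP
  obtain ⟨x₁, H1⟩ := hKRB η hη hη1 (6 * (2 * (E + A + 5) + 1) + A + 1) B C₀ hC₀
  obtain ⟨x₂, H2⟩ := hSUM (A + 1) B 3 C₀ η hη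
  have hlim : ∀ᶠ x : ℝ in Filter.atTop, Real.log x ^ (E + A + 1) ≤ x ^ (η / 2) := by
    have h := (isLittleO_log_rpow_rpow_atTop ((E + A + 1 : ℕ) : ℝ) (show (0 : ℝ) < η / 2 by linarith)).bound
      (show (0 : ℝ) < 1 by norm_num)
    filter_upwards [h, Filter.eventually_ge_atTop (1 : ℝ)] with x hx hx1
    rw [Real.rpow_natCast, Real.norm_eq_abs, Real.norm_eq_abs, one_mul] at hx
    have h1 : 0 ≤ Real.log x := Real.log_nonneg hx1
    rw [abs_of_nonneg (pow_nonneg h1 _), abs_of_nonneg (Real.rpow_nonneg (by linarith) _)] at hx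
    exact hx
  obtain ⟨x₃, H3⟩ := Filter.eventually_atTop.1 hlim
  refine ⟨max (max x₁ x₂) (max ⌈x₃⌉₊ ⌈Real.exp (max 8 (max (8 * 6 ^ 6 * C) (8 * 3 ^ E * C)))⌉₊), ?_⟩
  intro x hx q ξ i₁ i α t Z N a b M₁ hD hZ8 hZ hM₁ hMN hNx hNa hab hbN ht
  have hx1 : x₁ ≤ x := (le_max_left _ _).trans ((le_max_left _ _).trans hx)
  have hx2 : x₂ ≤ x := (le_max_right _ _).trans ((le_max_left _ _).trans hx)
  have hx3 : x₃ ≤ (x : ℝ) := (Nat.le_ceil _).trans (by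
    exact_mod_cast (le_max_left _ _).trans ((le_max_right _ _).trans hx))
  have hx4 : Real.exp (max 8 (max (8 * 6 ^ 6 * C) (8 * 3 ^ E * C))) ≤ (x : ℝ) := (Nat.le_ceil _).trans (by
    exact_mod_cast (le_max_right _ _).trans ((le_max_right _ _).trans hx))
  have hxpos : (0 : ℝ) < x := (Real.exp_pos _).trans_le hx4
  have hLL : max 8 (max (8 * 6 ^ 6 * C) (8 * 3 ^ E * C)) ≤ Real.log x := by
    rw [← Real.log_exp (max 8 (max (8 * 6 ^ 6 * C) (8 * 3 ^ E * C)))]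
    exact Real.log_le_log (Real.exp_pos _) hx4
  have hL8 : 8 ≤ Real.log x := (le_max_left _ _).trans hLL
  have hL6 : 8 * 6 ^ 6 * C ≤ Real.log x := (le_max_left _ _).trans ((le_max_right _ _).trans hLL)
  have hL3 : 8 * 3 ^ E * C ≤ Real.log x := (le_max_right _ _).trans ((le_max_right _ _).trans hLL)
  have hxL : Real.log x ^ (E + A + 1) ≤ (x : ℝ) ^ (η / 2) := H3 x hx3
  obtain ⟨hX, hqB, hi₁, hi, hα0, hα1, hI⟩ := id hD
  set L := Real.log x with hLdef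
  have hL0 : 0 < L := by linarith
  have hL1 : 1 ≤ L := by linarith
  -- sizes
  have hx8 : (8 : ℝ) ≤ x := by
    have h1 := Real.log_le_sub_one_of_pos hxpos
    linarith
  have hx8n : 8 ≤ x := by exact_mod_cast hx8
  have hxh : 8 ≤ (x : ℝ) ^ (η / 2) := by
    refine le_trans ?_ hxL
    calc (8 : ℝ) ≤ L := hL8
      _ = L ^ 1 := (pow_one _).symm
      _ ≤ L ^ (E + A + 1) := pow_le_pow_right₀ hL1 (by omega)
  have hxη : (x : ℝ) ^ η = (x : ℝ) ^ (η / 2) * (x : ℝ) ^ (η / 2) := by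
    rw [← Real.rpow_add hxpos]
    congr 1
    ring
  have hxη64 : 64 ≤ (x : ℝ) ^ η := by
    rw [hxη]
    nlinarith
  have hM1 : (1 : ℝ) ≤ (M₁ : ℝ) ^ 2 := by
    have h1 : (1 : ℝ) ≤ M₁ := by exact_mod_cast hM₁
    nlinarith
  have hNη : (x : ℝ) ^ η ≤ N := by
    refine le_trans ?_ hMN
    nlinarith
  have hN64 : (64 : ℝ) ≤ N := hxη64.trans hNη
  have hN64n : 64 ≤ N := by exact_mod_cast hN64
  have hNpos : (0 : ℝ) < N := by linarith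
  have hNx' : (N : ℝ) ≤ (x : ℝ) ^ 2 := by exact_mod_cast hNx
  have hM2 : M₁ ^ 2 ≤ N := by
    have h1 : (M₁ : ℝ) ^ 2 ≤ N := by
      refine le_trans ?_ hMN
      nlinarith
    exact_mod_cast h1
  -- the cut
  set z₀ := Nat.sqrt (2 * N) + 1 with hz₀
  have hs1 : Nat.sqrt (2 * N) < N := by
    rw [Nat.sqrt_lt']
    nlinarith
  have hz1 : 1 ≤ z₀ := by omega
  have hz2 : z₀ ≤ a := by omega
  have hz3 : b ≤ z₀ ^ 2 := by
    have h1 : 2 * N < z₀ ^ 2 := Nat.lt_succ_sqrt' _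
    exact hbN.trans h1.le
  have hz4 : z₀ ^ 2 ≤ 9 * N := by
    have h1 : Nat.sqrt (2 * N) ^ 2 ≤ 2 * N := Nat.sqrt_le' _
    have h2 : z₀ ^ 2 = Nat.sqrt (2 * N) ^ 2 + 2 * Nat.sqrt (2 * N) + 1 := by
      rw [hz₀]
      ring
    omega
  -- the exceptional frequency
  have hb4 : b ≤ x ^ 4 := by
    have h1 : 2 * x ^ 2 ≤ x ^ 4 := by
      calc 2 * x ^ 2 ≤ x ^ 2 * x ^ 2 := Nat.mul_le_mul_right _ (by nlinarith)
        _ = x ^ 4 := by ring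
    omega
  have hx13 : (x : ℝ) ^ 2 ≤ (x : ℝ) ^ 3 := pow_le_pow_right₀ (by linarith) (by norm_num)
  have ht3 : |t| ≤ (x : ℝ) ^ 3 := by
    have h1 : (x : ℝ) ^ (η / 3) ≤ (x : ℝ) ^ η := Real.rpow_le_rpow_of_exponent_le (by linarith) (by linarith)
    have h2 : (M₁ : ℝ) ^ 2 * (x : ℝ) ^ (η / 3) ≤ (M₁ : ℝ) ^ 2 * (x : ℝ) ^ η :=
      mul_le_mul_of_nonneg_left h1 (by positivity)
    linarith
  have hκ : |fr α 0| ≤ (x : ℝ) ^ 3 := by
    have h1 : fr α 0 = α / (2 * lep) := by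
      unfold fr
      simp
    have h2 := KRG_lep
    have h3 := Real.pi_lt_d2
    rw [h1, abs_of_nonneg (by positivity)]
    have h4 : α / (2 * lep) ≤ α := by
      refine div_le_self hα0 (by linarith)
    have h5 : (x : ℝ) ≤ (x : ℝ) ^ 3 := le_self_pow₀ (by linarith) (by norm_num)
    linarith
  have hNa' : (N : ℝ) ≤ a := by exact_mod_cast hNa
  have hexc : ‖Sh (wm Z) (HX ξ i₁ i (fr α 0)) t a b‖ ^ 2 ≤ 1 / 16 * ((N : ℝ) ^ 2 / L ^ A) := by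
    have h1 := H2 x hx2 q ξ i₁ i (fr α 0) t Z a b hX hqB hi₁ hi (hI 0) hκ ht3 hZ8 hZ (hNη.trans hNa') hab
      (by omega) hb4
    have h2 : (a : ℝ) ≤ 2 * N := by exact_mod_cast hab.trans hbN
    have h3 : ‖Sh (wm Z) (HX ξ i₁ i (fr α 0)) t a b‖ ≤ 2 * N / L ^ (A + 1) :=
      h1.trans (div_le_div_of_nonneg_right h2 (by positivity))
    have h4 : ‖Sh (wm Z) (HX ξ i₁ i (fr α 0)) t a b‖ ^ 2 ≤ (2 * N / L ^ (A + 1)) ^ 2 :=
      pow_le_pow_left₀ (norm_nonneg _) h3 2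
    refine h4.trans ?_
    have h5 : (2 * (N : ℝ) / L ^ (A + 1)) ^ 2 = 64 / (L ^ 2 * L ^ A) * (1 / 16 * ((N : ℝ) ^ 2 / L ^ A)) := by
      rw [pow_succ]
      field_simp
      ring
    rw [h5]
    have h6 : 64 / (L ^ 2 * L ^ A) ≤ 1 := by
      rw [div_le_one (by positivity)]
      have h7 : (1 : ℝ) ≤ L ^ A := one_le_pow₀ hL1
      nlinarith
    calc _ ≤ 1 * (1 / 16 * ((N : ℝ) ^ 2 / L ^ A)) := mul_le_mul_of_nonneg_right h6 (by positivity)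
      _ = _ := one_mul _
  -- the others
  set P := ⌈L ^ (2 * (E + A + 5))⌉₊ with hP
  have hLG : 8 ≤ L ^ (2 * (E + A + 5)) := by
    calc (8 : ℝ) ≤ L := hL8
      _ = L ^ 1 := (pow_one _).symm
      _ ≤ L ^ (2 * (E + A + 5)) := pow_le_pow_right₀ hL1 (by omega)
  have hP1 : L ^ (2 * (E + A + 5)) ≤ (P : ℝ) := Nat.le_ceil _
  have hP2 : (P : ℝ) ≤ 2 * L ^ (2 * (E + A + 5)) := by
    have h1 := (Nat.ceil_lt_add_one (by positivity : 0 ≤ L ^ (2 * (E + A + 5)))).le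
    linarith
  have hP3 : 2 ≤ P := by
    have h1 : (2 : ℝ) ≤ P := by linarith
    exact_mod_cast h1
  set T := (Icc (-(M₁ : ℤ)) M₁).filter (fun m => NPr q ξ ∨ m ≠ 0) with hT
  have hTsub : T ⊆ Icc (-(M₁ : ℤ)) M₁ := filter_subset _ _
  have hTm : ∀ m ∈ T, NPr q ξ ∨ m ≠ 0 := fun m hm => (mem_filter.1 hm).2
  have hmain := HC α (fun m z => HX ξ i₁ i (fr α m) z * nit t (nn z))
    (fun z => ξ z * s1 z ^ i₁ * ((N8 z).sign : ℂ) ^ i * nit t (nn z))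
    (KRG_fam hUHX q ξ i₁ i α t hX hI) hα0 hα1.le N a b M₁ P 1
    ((N : ℝ) ^ 2 / L ^ (6 * (2 * (E + A + 5) + 1) + A + 1))
    (ct z₀ (wm Z)) (ct z₀ (wm Z)) (w1 Z) T hTsub hM₁ hM2 hNa hab hbN hP3 le_rfl (by positivity)
    (KRG_ct z₀ Z) (KRG_ct z₀ Z) (KRG_w1 Z)
    (fun a₁ b₁ a₂ b₂ a₃ b₃ c1 c2 c3 c4 c5 =>
      H1 x hx1 q ξ i₁ i α t Z N M₁ z₀ hD hZ8 hZ hM₁ hMN hNx hz4 ht T hTsub hTm a₁ b₁ a₂ b₂ a₃ b₃ c1 c2 c3 c4 c5)
  have hT1 : ∑ m ∈ T, ‖Sh (wm Z) (HX ξ i₁ i (fr α m)) t a b‖ ^ 2 ≤ 3 / 8 * ((N : ℝ) ^ 2 / L ^ A) := by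
    have e1 : ∀ m ∈ T, ‖Sh (wm Z) (HX ξ i₁ i (fr α m)) t a b‖ ^ 2 =
        ‖∑ z₁ ∈ FF b, ∑ z₂ ∈ FF b, ∑ z₃ ∈ FF b,
          if a < nn z₁ * nn z₂ * nn z₃ ∧ nn z₁ * nn z₂ * nn z₃ ≤ b then
            ct z₀ (wm Z) z₁ * ct z₀ (wm Z) z₂ * w1 Z z₃ *
              ((HX ξ i₁ i (fr α m) z₁ * nit t (nn z₁)) * (HX ξ i₁ i (fr α m) z₂ * nit t (nn z₂)) *
                (HX ξ i₁ i (fr α m) z₃ * nit t (nn z₃))) else 0‖ ^ 2 := by
      intro m _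
      rw [KRG_hbe hHBE q _ (hUHX.1 q ξ i₁ i (fr α m) hX (hI m)) t Z z₀ a b hz1 hz2 hz3, norm_neg]
    rw [sum_congr rfl e1]
    refine hmain.trans ?_
    have hlog : 1 + Real.log N ≤ 3 * L := by
      have h1 : Real.log N ≤ Real.log ((x : ℝ) ^ 2) := Real.log_le_log hNpos hNx'
      rw [Real.log_pow] at h1
      push_cast at h1
      linarith
    have hlog0 : 0 ≤ 1 + Real.log N := by
      have h1 : 0 ≤ Real.log N := Real.log_nonneg (by linarith)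
      linarith
    have hsq : √(N : ℝ) ≤ N / L ^ (E + A + 1) := by
      have h1 : (x : ℝ) ^ (η / 2) ≤ √(N : ℝ) := by
        rw [Real.le_sqrt (by positivity) hNpos.le, pow_two, ← hxη]
        exact hNη
      rw [le_div_iff₀ (by positivity)]
      calc √(N : ℝ) * L ^ (E + A + 1) ≤ √(N : ℝ) * √(N : ℝ) :=
            mul_le_mul_of_nonneg_left (hxL.trans h1) (Real.sqrt_nonneg _)
        _ = N := Real.mul_self_sqrt hNpos.le
    exact KRG_num C L N (1 + Real.log N) (√(N : ℝ)) P A E hC hL8 hL6 hL3 hNpos.le hlog0 hlog hsq hP1 hP2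
  have hsplit := sum_filter_add_sum_filter_not (Icc (-(M₁ : ℤ)) M₁) (fun m => NPr q ξ ∨ m ≠ 0)
    (fun m => ‖Sh (wm Z) (HX ξ i₁ i (fr α m)) t a b‖ ^ 2)
  rw [← hsplit]
  have hT2 : ∑ m ∈ (Icc (-(M₁ : ℤ)) M₁).filter (fun m => ¬ (NPr q ξ ∨ m ≠ 0)),
      ‖Sh (wm Z) (HX ξ i₁ i (fr α m)) t a b‖ ^ 2 ≤ 1 / 16 * ((N : ℝ) ^ 2 / L ^ A) := by
    refine le_trans (sum_le_sum_of_subset_of_nonneg (t := {0}) ?_ fun _ _ _ => by positivity) ?_
    · intro m hm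
      rw [mem_filter] at hm
      rw [mem_singleton]
      by_contra h
      exact hm.2 (Or.inr h)
    · rw [sum_singleton]
      exact hexc
  have hX0 : 0 ≤ (N : ℝ) ^ 2 / L ^ A := by positivity
  calc _ ≤ 3 / 8 * ((N : ℝ) ^ 2 / L ^ A) + 1 / 16 * ((N : ℝ) ^ 2 / L ^ A) := add_le_add hT1 hT2
    _ ≤ (N : ℝ) ^ 2 / L ^ A := by linarith

end Pool.Agent.EU
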