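import Pool.Agent.helper52.EU.SpecY

/-! # PWF: from frequencies to windows (Parseval on an interval of length `2 lep`) -/

set_option autoImplicit false

open Finset

namespace Pool.Agent.EU

open Pool.Agent.FI Pool.Agent.HK Pool.Agent.BP Pool.Agent.YB
open Pool.Agent.CH (nit)

private theorem PWF_lep1 : 1 ≤ lep := by
  unfold lep
  rw [Real.le_log_iff_exp_le (by positivity)]
  have h1 := Real.exp_one_lt_d9
  have h8 : 0 ≤ √(8 : ℝ) := Real.sqrt_nonneg 8
  linarith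

private theorem PWF_lep3 : lep ≤ 3 := by
  unfold lep
  rw [Real.log_le_iff_le_exp (by positivity)]
  have h1 := Real.exp_one_gt_d9
  have h2 : Real.exp 3 = Real.exp 1 ^ 3 := by rw [← Real.exp_nat_mul]; norm_num
  have h8 : √(8 : ℝ) ≤ 3 := by
    rw [Real.sqrt_le_left (by norm_num)]; norm_num
  have h3 : (2 : ℝ) ^ 3 ≤ Real.exp 1 ^ 3 := by gcongr; linarith
  rw [h2]; norm_num at h3; linarith

private theorem PWF_congr {E : Type} [NormedAddCommGroup E] [NormedSpace ℝ E] {a b : ℝ} (hab : a ≤ b) {F G : ℝ → E}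
    (h : ∀ y, a < y → y < b → F y = G y) :
    ∫ y in a..b, F y = ∫ y in a..b, G y := by
  rw [intervalIntegral.integral_of_le hab, intervalIntegral.integral_of_le hab,
    MeasureTheory.integral_Ioc_eq_integral_Ioo, MeasureTheory.integral_Ioc_eq_integral_Ioo]
  exact MeasureTheory.setIntegral_congr_fun measurableSet_Ioo (fun y hy => h y hy.1 hy.2)

private theorem PWF_ii {E : Type} [NormedAddCommGroup E] {F : ℝ → E} (hF : MeasureTheory.AEStronglyMeasurable F MeasureTheory.volume)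
    {B : ℝ} (hB : ∀ y, ‖F y‖ ≤ B) (a b : ℝ) :
    IntervalIntegrable F MeasureTheory.volume a b :=
  (intervalIntegrable_const (c := B)).mono_fun' hF.restrict (Filter.Eventually.of_forall hB)

/-- the window sum -/
private noncomputable def PWF_W (S : Finset (ℤ × ℤ)) (f : ℤ × ℤ → ℂ) (Y : ℤ × ℤ → ℝ) (h y : ℝ) : ℂ :=
  ∑ z ∈ S, (Set.Ico (Y z - h) (Y z)).indicator (fun _ => f z) y

/-- the exponential -/
private noncomputable def PWF_e (κ y : ℝ) : ℂ := Complex.exp (((κ * y : ℝ) : ℂ) * Complex.I)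

private theorem PWF_e_norm (κ y : ℝ) : ‖PWF_e κ y‖ = 1 := Complex.norm_exp_ofReal_mul_I _

private theorem PWF_e_cont (κ : ℝ) : Continuous (PWF_e κ) := by
  unfold PWF_e; fun_prop

private theorem PWF_meas (S : Finset (ℤ × ℤ)) (f : ℤ × ℤ → ℂ) (Y : ℤ × ℤ → ℝ) (h : ℝ) : Measurable (PWF_W S f Y h) := by
  unfold PWF_W
  exact Finset.measurable_sum _ fun z _ => measurable_const.indicator measurableSet_Ico

private theorem PWF_bd (S : Finset (ℤ × ℤ)) (f : ℤ × ℤ → ℂ) (Y : ℤ × ℤ → ℝ) (h y : ℝ) : ‖PWF_W S f Y h y‖ ≤ ∑ z ∈ S, ‖f z‖ := by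
  unfold PWF_W
  refine (norm_sum_le _ _).trans (Finset.sum_le_sum fun z _ => ?_)
  exact norm_indicator_le_norm_self (fun _ => f z) y

/-- the kernel -/
private noncomputable def PWF_J (h κ : ℝ) : ℂ := ∫ v in (-h)..0, PWF_e κ v

private theorem PWF_J1 (h κ : ℝ) (hh : 0 < h) : ‖PWF_J h κ‖ ≤ h := by
  unfold PWF_J
  have h1 := intervalIntegral.norm_integral_le_of_norm_le_const (a := -h) (b := 0) (f := PWF_e κ) (C := 1)
    (fun x _ => (PWF_e_norm κ x).le)
  have h2 : |0 - -h| = h := by rw [zero_sub, neg_neg, abs_of_pos hh]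
  rw [h2, one_mul] at h1
  exact h1

private theorem PWF_J2 (h κ : ℝ) (hκ : κ ≠ 0) : ‖PWF_J h κ‖ ≤ 2 / |κ| := by
  have hc : (κ : ℂ) * Complex.I ≠ 0 := mul_ne_zero (by exact_mod_cast hκ) Complex.I_ne_zero
  have h1 : PWF_J h κ = (Complex.exp ((κ : ℂ) * Complex.I * (0 : ℝ)) - Complex.exp ((κ : ℂ) * Complex.I * (-h : ℝ))) / ((κ : ℂ) * Complex.I) := by
    rw [← integral_exp_mul_complex hc]
    unfold PWF_J PWF_e
    refine intervalIntegral.integral_congr fun v _ => ?_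
    push_cast
    ring_nf
  rw [h1, norm_div, norm_mul, Complex.norm_I, mul_one, Complex.norm_real, Real.norm_eq_abs]
  gcongr
  have e1 : Complex.exp ((κ : ℂ) * Complex.I * (0 : ℝ)) = PWF_e κ 0 := by unfold PWF_e; simp
  have e2 : Complex.exp ((κ : ℂ) * Complex.I * (-h : ℝ)) = PWF_e κ (-h) := by
    unfold PWF_e; congr 1; push_cast; ring
  rw [e1, e2]
  refine (norm_sub_le _ _).trans ?_
  rw [PWF_e_norm, PWF_e_norm]; norm_num

private theorem PWF_one (a b Y h κ : ℝ) (c : ℂ) (hh : 0 < h) (h1 : a ≤ Y - h) (h2 : Y ≤ b) :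
    ∫ y in a..b, (Set.Ico (Y - h) Y).indicator (fun _ => c) y * PWF_e κ y = c * PWF_e κ Y * PWF_J h κ := by
  set F : ℝ → ℂ := fun y => (Set.Ico (Y - h) Y).indicator (fun _ => c) y * PWF_e κ y with hF
  have hint : ∀ u v : ℝ, IntervalIntegrable F MeasureTheory.volume u v := by
    intro u v
    refine PWF_ii (B := ‖c‖) ?_ ?_ u v
    · exact ((measurable_const.indicator measurableSet_Ico).mul (PWF_e_cont κ).measurable).aestronglyMeasurable
    · intro y
      rw [hF]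
      simp only
      rw [norm_mul, PWF_e_norm, mul_one]
      exact norm_indicator_le_norm_self (fun _ => c) y
  have e1 : ∫ y in a..(Y - h), F y = 0 := by
    rw [PWF_congr h1 (G := fun _ => (0 : ℂ))]
    · simp
    · intro y _ hy
      rw [hF]
      simp only
      rw [Set.indicator_of_notMem, zero_mul]
      intro hm; linarith [hm.1]
  have e3 : ∫ y in Y..b, F y = 0 := by
    rw [PWF_congr h2 (G := fun _ => (0 : ℂ))]
    · simp
    · intro y hy _
      rw [hF]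
      simp only
      rw [Set.indicator_of_notMem, zero_mul]
      intro hm; linarith [hm.2]
  have e2 : ∫ y in (Y - h)..Y, F y = c * PWF_e κ Y * PWF_J h κ := by
    rw [PWF_congr (by linarith) (G := fun y => c * PWF_e κ y)]
    · have h3 : ∫ v in (-h)..0, (fun y => c * PWF_e κ y) (v + Y) = ∫ y in (-h + Y)..(0 + Y), (fun y => c * PWF_e κ y) y :=
        intervalIntegral.integral_comp_add_right (fun y => c * PWF_e κ y) Y
      have h4 : -h + Y = Y - h := by ring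
      rw [h4, zero_add] at h3
      rw [← h3]
      unfold PWF_J
      rw [← intervalIntegral.integral_const_mul]
      refine intervalIntegral.integral_congr fun v _ => ?_
      simp only
      have h5 : PWF_e κ (v + Y) = PWF_e κ Y * PWF_e κ v := by
        unfold PWF_e
        rw [← Complex.exp_add]; congr 1; push_cast; ring
      rw [h5]; ring
    · intro y hy hy2
      rw [hF]
      simp only
      rw [Set.indicator_of_mem]
      exact ⟨hy.le, hy2⟩
  rw [← intervalIntegral.integral_add_adjacent_intervals (hint a (Y - h)) (hint (Y - h) b),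
    ← intervalIntegral.integral_add_adjacent_intervals (hint (Y - h) Y) (hint Y b), e1, e2, e3]
  ring

/-- the periodized window sum -/
private noncomputable def PWF_g (S : Finset (ℤ × ℤ)) (f : ℤ × ℤ → ℂ) (Y : ℤ × ℤ → ℝ) (h α y : ℝ) : ℂ :=
  PWF_W S f Y h y + PWF_e (-α) 1 * PWF_W S f Y h (y - 2 * lep)

private theorem PWF_gmeas (S : Finset (ℤ × ℤ)) (f : ℤ × ℤ → ℂ) (Y : ℤ × ℤ → ℝ) (h α : ℝ) : Measurable (PWF_g S f Y h α) := by
  unfold PWF_g
  exact (PWF_meas S f Y h).add (measurable_const.mul ((PWF_meas S f Y h).comp (measurable_id.sub_const (2 * lep))))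

private theorem PWF_gbd (S : Finset (ℤ × ℤ)) (f : ℤ × ℤ → ℂ) (Y : ℤ × ℤ → ℝ) (h α y : ℝ) : ‖PWF_g S f Y h α y‖ ≤ 2 * ∑ z ∈ S, ‖f z‖ := by
  unfold PWF_g
  refine (norm_add_le _ _).trans ?_
  rw [norm_mul, PWF_e_norm, one_mul]
  linarith [PWF_bd S f Y h y, PWF_bd S f Y h (y - 2 * lep)]

private theorem PWF_coef (S : Finset (ℤ × ℤ)) (f : ℤ × ℤ → ℂ) (Y : ℤ × ℤ → ℝ) (h α : ℝ) (m : ℤ) (hh : 0 < h) (hh1 : h ≤ 1)
    (hY : ∀ z ∈ S, |Y z| ≤ lep) :
    ∫ y in (-lep)..lep, PWF_g S f Y h α y * PWF_e (fr α m) y = (∑ z ∈ S, f z * PWF_e (fr α m) (Y z)) * PWF_J h (fr α m) := by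
  have hl := PWF_lep1
  set κ := fr α m with hκ
  set W := PWF_W S f Y h with hW
  have hWm := PWF_meas S f Y h
  have hint : ∀ u v : ℝ, IntervalIntegrable (fun y => W y * PWF_e κ y) MeasureTheory.volume u v := by
    intro u v
    refine PWF_ii (B := ∑ z ∈ S, ‖f z‖) (hWm.mul (PWF_e_cont κ).measurable).aestronglyMeasurable ?_ u v
    intro y
    rw [Pi.mul_apply, norm_mul, PWF_e_norm, mul_one]
    exact PWF_bd S f Y h y
  have hint2 : IntervalIntegrable (fun y => W (y - 2 * lep) * PWF_e κ (y - 2 * lep)) MeasureTheory.volume (-lep) lep := by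
    refine PWF_ii (B := ∑ z ∈ S, ‖f z‖) ?_ ?_ _ _
    · exact ((hWm.mul (PWF_e_cont κ).measurable).comp (measurable_id.sub_const (2 * lep))).aestronglyMeasurable
    · intro y
      rw [norm_mul, PWF_e_norm, mul_one]
      exact PWF_bd S f Y h _
  have hper : ∀ y : ℝ, PWF_e (-α) 1 * PWF_e κ y = PWF_e κ (y - 2 * lep) := by
    intro y
    unfold PWF_e
    rw [← Complex.exp_add]
    have h1 : ((-α * 1 : ℝ) : ℂ) * Complex.I + ((κ * y : ℝ) : ℂ) * Complex.I
        = ((κ * (y - 2 * lep) : ℝ) : ℂ) * Complex.I + (m : ℂ) * (2 * Real.pi * Complex.I) := by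
      have h2 : κ * (2 * lep) = α + 2 * Real.pi * m := by
        rw [hκ]; unfold fr; field_simp
      have h3 : (-α * 1 : ℝ) + κ * y = κ * (y - 2 * lep) + m * (2 * Real.pi) := by linarith
      have h4 := congrArg (fun t : ℝ => (t : ℂ) * Complex.I) h3
      push_cast at h4 ⊢
      linear_combination h4
    rw [h1, Complex.exp_add, Complex.exp_int_mul_two_pi_mul_I, mul_one]
  have e1 : ∫ y in (-lep)..lep, PWF_g S f Y h α y * PWF_e κ y
      = (∫ y in (-lep)..lep, W y * PWF_e κ y) + ∫ y in (-lep)..lep, W (y - 2 * lep) * PWF_e κ (y - 2 * lep) := by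
    rw [← intervalIntegral.integral_add (hint _ _) hint2]
    refine intervalIntegral.integral_congr fun y _ => ?_
    rw [← hper y]
    unfold PWF_g
    ring
  have e2 : ∫ y in (-lep)..lep, W (y - 2 * lep) * PWF_e κ (y - 2 * lep) = ∫ y in (-(3 * lep))..(-lep), W y * PWF_e κ y := by
    have h3 := intervalIntegral.integral_comp_sub_right (a := -lep) (b := lep) (fun y => W y * PWF_e κ y) (2 * lep)
    have h4 : -lep - 2 * lep = -(3 * lep) := by ring
    have h5 : lep - 2 * lep = -lep := by ring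
    rw [h4, h5] at h3
    exact h3
  rw [e1, e2, add_comm, intervalIntegral.integral_add_adjacent_intervals (hint _ _) (hint _ _)]
  have e3 : ∀ y : ℝ, W y * PWF_e κ y = ∑ z ∈ S, (Set.Ico (Y z - h) (Y z)).indicator (fun _ => f z) y * PWF_e κ y := by
    intro y
    rw [hW]; unfold PWF_W
    rw [Finset.sum_mul]
  simp only [e3]
  rw [intervalIntegral.integral_finsetSum, Finset.sum_mul]
  · refine Finset.sum_congr rfl fun z hz => ?_
    have h6 := abs_le.mp (hY z hz)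
    exact PWF_one _ _ _ _ _ _ hh (by linarith [h6.1]) h6.2
  · intro z _
    refine PWF_ii (B := ‖f z‖) ?_ ?_ _ _
    · exact ((measurable_const.indicator measurableSet_Ico).mul (PWF_e_cont κ).measurable).aestronglyMeasurable
    · intro y
      rw [norm_mul, PWF_e_norm, mul_one]
      exact norm_indicator_le_norm_self (fun _ => f z) y

private theorem PWF_fr (α : ℝ) (m : ℤ) (h0 : 0 ≤ α) (h2 : α ≤ 2 * Real.pi) (hm : 2 ≤ |m|) : (|m| : ℝ) / 2 ≤ |fr α m| := by
  have hl1 := PWF_lep1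
  have hl3 := PWF_lep3
  have hpi := Real.pi_gt_three
  have hm' : (2 : ℝ) ≤ |(m : ℝ)| := by exact_mod_cast hm
  unfold fr
  rw [abs_div, abs_of_pos (by linarith : (0 : ℝ) < 2 * lep), le_div_iff₀ (by linarith)]
  have h3 : 2 * Real.pi * |(m : ℝ)| - 2 * Real.pi ≤ |α + 2 * Real.pi * m| := by
    have h4 : |2 * Real.pi * (m : ℝ)| = 2 * Real.pi * |(m : ℝ)| := by rw [abs_mul, abs_of_pos (by linarith)]
    have h5 : |2 * Real.pi * (m : ℝ)| ≤ |α + 2 * Real.pi * m| + |α| := by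
      have := abs_sub (α + 2 * Real.pi * m) α
      simpa using this
    rw [abs_of_nonneg h0] at h5
    linarith
  have h6 : |(m : ℝ)| / 2 * (2 * lep) = lep * |(m : ℝ)| := by ring
  rw [h6]
  nlinarith [abs_nonneg (m : ℝ)]

/-- dyadic decomposition of the frequencies -/
private theorem PWF_dy (a : ℤ → ℝ) (b : ℤ → ℝ) (M₁ : ℕ) (h U V₀ : ℝ) (hM : 2 ≤ M₁) (hU : 0 ≤ U) (hV : 0 ≤ V₀)
    (ha0 : ∀ m, 0 ≤ a m) (h1 : ∀ m, b m ≤ h ^ 2 * a m) (h2 : ∀ m, 2 ≤ |m| → b m ≤ 16 / (m : ℝ) ^ 2 * a m)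
    (hs : ∀ M : ℕ, M₁ ≤ M → ∑ m ∈ Icc (-(M : ℤ)) M, a m ≤ M * U + V₀) (k : ℕ) :
    ∑ m ∈ Icc (-((2 ^ k * M₁ : ℕ) : ℤ)) ((2 ^ k * M₁ : ℕ) : ℤ), b m ≤
      h ^ 2 * ∑ m ∈ Icc (-(M₁ : ℤ)) M₁, a m + 64 * (U / M₁) * (1 - 1 / 2 ^ k) + 32 * (V₀ / M₁ ^ 2) * (1 - 1 / 2 ^ k) := by
  have hM0 : (0 : ℝ) < M₁ := by exact_mod_cast (by omega : 0 < M₁)
  induction k with
  | zero =>
    simp only [pow_zero, one_mul, div_one, sub_self, mul_zero, add_zero]
    rw [Finset.mul_sum]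
    exact Finset.sum_le_sum fun m _ => h1 m
  | succ k ih =>
    set N := 2 ^ k * M₁ with hN
    have hN0 : (0 : ℝ) < N := by rw [hN]; push_cast; positivity
    have hNM : M₁ ≤ N := by rw [hN]; exact Nat.le_mul_of_pos_left _ (by positivity)
    have e1 : 2 ^ (k + 1) * M₁ = 2 * N := by rw [hN, pow_succ]; ring
    rw [e1]
    have hsub : Icc (-(N : ℤ)) (N : ℤ) ⊆ Icc (-((2 * N : ℕ) : ℤ)) ((2 * N : ℕ) : ℤ) := by
      intro m hm
      rw [Finset.mem_Icc] at hm ⊢
      push_cast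
      constructor <;> linarith [hm.1, hm.2]
    rw [← Finset.sum_sdiff hsub]
    have h3 : ∑ m ∈ Icc (-((2 * N : ℕ) : ℤ)) ((2 * N : ℕ) : ℤ) \ Icc (-(N : ℤ)) (N : ℤ), b m ≤ 16 / (N : ℝ) ^ 2 * ((2 * N : ℕ) * U + V₀) := by
      have h4 : ∑ m ∈ Icc (-((2 * N : ℕ) : ℤ)) ((2 * N : ℕ) : ℤ) \ Icc (-(N : ℤ)) (N : ℤ), b m
          ≤ ∑ m ∈ Icc (-((2 * N : ℕ) : ℤ)) ((2 * N : ℕ) : ℤ) \ Icc (-(N : ℤ)) (N : ℤ), 16 / (N : ℝ) ^ 2 * a m := by
        refine Finset.sum_le_sum fun m hm => ?_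
        rw [Finset.mem_sdiff, Finset.mem_Icc, Finset.mem_Icc, not_and_or, not_le, not_le] at hm
        have h5 : (N : ℤ) < |m| := by
          rcases hm.2 with h6 | h6
          · rw [abs_of_neg (by linarith [Int.natCast_nonneg N])]; linarith
          · exact h6.trans_le (le_abs_self m)
        have h6 : (N : ℝ) < |(m : ℝ)| := by exact_mod_cast h5
        have h7 : (2 : ℤ) ≤ |m| := by
          have : (2 : ℤ) ≤ N := by exact_mod_cast hM.trans hNM
          linarith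
        refine (h2 m h7).trans (mul_le_mul_of_nonneg_right ?_ (ha0 m))
        rw [← sq_abs (m : ℝ)]
        gcongr
      refine h4.trans ?_
      rw [← Finset.mul_sum]
      refine mul_le_mul_of_nonneg_left ?_ (by positivity)
      exact (Finset.sum_le_sum_of_subset_of_nonneg Finset.sdiff_subset fun m _ _ => ha0 m).trans (hs (2 * N) (by omega))
    refine (add_le_add h3 ih).trans ?_
    have hNr : (N : ℝ) = 2 ^ k * M₁ := by rw [hN]; push_cast; ring
    have h8 : 16 / (N : ℝ) ^ 2 * ((2 * N : ℕ) * U + V₀) = 32 * (U / M₁) / 2 ^ k + 16 * (V₀ / M₁ ^ 2) / (2 ^ k * 2 ^ k) := by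
      have hc : ((2 * N : ℕ) : ℝ) = 2 * (N : ℝ) := Nat.cast_mul 2 N
      rw [hc, hNr]
      field_simp
      ring
    have h9 : 16 * (V₀ / M₁ ^ 2) / (2 ^ k * 2 ^ k) ≤ 16 * (V₀ / M₁ ^ 2) / (2 ^ k * 1) := by
      have : (1 : ℝ) ≤ 2 ^ k := one_le_pow₀ (by norm_num)
      gcongr
    rw [h8]
    have h10 : (1 : ℝ) / 2 ^ (k + 1) = 1 / 2 ^ k / 2 := by rw [pow_succ]; field_simp
    rw [h10]
    have h11 : 32 * (U / M₁) / 2 ^ k = 32 * (U / M₁) * (1 / 2 ^ k) := by ring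
    have h12 : 16 * (V₀ / M₁ ^ 2) / (2 ^ k * 1) = 16 * (V₀ / M₁ ^ 2) * (1 / 2 ^ k) := by ring
    rw [h12] at h9
    rw [h11]
    nlinarith [h9]

private theorem PWF_pars (S : Finset (ℤ × ℤ)) (f : ℤ × ℤ → ℂ) (Y : ℤ × ℤ → ℝ) (h α U V₀ : ℝ) (M₁ : ℕ) (hh : 0 < h) (hh1 : h ≤ 1)
    (hα : 0 ≤ α) (hα2 : α ≤ 2 * Real.pi) (hM : 2 ≤ M₁) (hU : 0 ≤ U) (hV : 0 ≤ V₀)
    (hY : ∀ z ∈ S, |Y z| ≤ lep)
    (hs : ∀ M : ℕ, M₁ ≤ M → ∑ m ∈ Icc (-(M : ℤ)) M, ‖∑ z ∈ S, f z * PWF_e (fr α m) (Y z)‖ ^ 2 ≤ M * U + V₀) :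
    ∫ y in (-lep)..lep, ‖PWF_g S f Y h α y‖ ^ 2 ≤
      h ^ 2 * ∑ m ∈ Icc (-(M₁ : ℤ)) M₁, ‖∑ z ∈ S, f z * PWF_e (fr α m) (Y z)‖ ^ 2 + 64 * (U / M₁) + 32 * (V₀ / M₁ ^ 2) := by
  have hl := PWF_lep1
  have hM0 : (0 : ℝ) < M₁ := by exact_mod_cast (by omega : 0 < M₁)
  set a : ℤ → ℝ := fun m => ‖∑ z ∈ S, f z * PWF_e (fr α m) (Y z)‖ ^ 2 with ha
  set b : ℤ → ℝ := fun m => ‖(∑ z ∈ S, f z * PWF_e (fr α m) (Y z)) * PWF_J h (fr α m)‖ ^ 2 with hb
  have ha0 : ∀ m, 0 ≤ a m := fun m => by rw [ha]; positivity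
  have hb0 : ∀ m, 0 ≤ b m := fun m => by rw [hb]; positivity
  have h1 : ∀ m, b m ≤ h ^ 2 * a m := by
    intro m
    rw [hb, ha]
    simp only
    rw [norm_mul, mul_pow, mul_comm]
    have := PWF_J1 h (fr α m) hh
    gcongr
  have h2 : ∀ m : ℤ, 2 ≤ |m| → b m ≤ 16 / (m : ℝ) ^ 2 * a m := by
    intro m hm
    rw [hb, ha]
    simp only
    rw [norm_mul, mul_pow, mul_comm]
    have h3 := PWF_fr α m hα hα2 hm
    have hm' : (2 : ℝ) ≤ |(m : ℝ)| := by exact_mod_cast hm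
    have h4 : fr α m ≠ 0 := by
      intro h0
      rw [h0, abs_zero] at h3
      linarith
    have h5 := PWF_J2 h (fr α m) h4
    have h6 : ‖PWF_J h (fr α m)‖ ≤ 4 / |(m : ℝ)| := by
      refine h5.trans ?_
      rw [div_le_div_iff₀ (abs_pos.mpr h4) (by linarith)]
      linarith
    have h7 : ‖PWF_J h (fr α m)‖ ^ 2 ≤ 16 / (m : ℝ) ^ 2 := by
      have h8 : (16 : ℝ) / (m : ℝ) ^ 2 = (4 / |(m : ℝ)|) ^ 2 := by rw [div_pow, sq_abs]; norm_num
      rw [h8]
      gcongr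
    gcongr
  set B := h ^ 2 * ∑ m ∈ Icc (-(M₁ : ℤ)) M₁, a m + 64 * (U / M₁) + 32 * (V₀ / M₁ ^ 2) with hB
  have hfin : ∀ F : Finset ℤ, ∑ m ∈ F, b m ≤ B := by
    intro F
    set k := F.sup Int.natAbs with hk
    have h3 := PWF_dy a b M₁ h U V₀ hM hU hV ha0 h1 h2 hs k
    have hsub : F ⊆ Icc (-((2 ^ k * M₁ : ℕ) : ℤ)) ((2 ^ k * M₁ : ℕ) : ℤ) := by
      intro m hm
      have h4 : m.natAbs ≤ k := Finset.le_sup (f := Int.natAbs) hm
      have h5 : k < 2 ^ k := Nat.lt_two_pow_self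
      have h6 : 2 ^ k ≤ 2 ^ k * M₁ := Nat.le_mul_of_pos_right _ (by omega)
      rw [Finset.mem_Icc]
      omega
    refine (Finset.sum_le_sum_of_subset_of_nonneg hsub fun m _ _ => hb0 m).trans (h3.trans ?_)
    rw [hB]
    have h4 : (0 : ℝ) ≤ 1 / 2 ^ k := by positivity
    have h5 : (0 : ℝ) ≤ U / M₁ := by positivity
    have h6 : (0 : ℝ) ≤ V₀ / M₁ ^ 2 := by positivity
    nlinarith [mul_nonneg h5 h4, mul_nonneg h6 h4]
  have hab : -lep < lep := by linarith
  set G : ℝ → ℂ := fun y => PWF_g S f Y h α y * PWF_e (α / (2 * lep)) y with hG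
  have hGm : Measurable G := (PWF_gmeas S f Y h α).mul (PWF_e_cont _).measurable
  have hGn : ∀ y, ‖G y‖ = ‖PWF_g S f Y h α y‖ := by
    intro y; rw [hG]; simp only; rw [norm_mul, PWF_e_norm, mul_one]
  have hL2 : MeasureTheory.MemLp G 2 (MeasureTheory.volume.restrict (Set.Ioc (-lep) lep)) := by
    refine MeasureTheory.MemLp.of_bound hGm.aestronglyMeasurable (2 * ∑ z ∈ S, ‖f z‖) (Filter.Eventually.of_forall fun y => ?_)
    rw [hGn]; exact PWF_gbd S f Y h α y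
  have hsum := hasSum_sq_fourierCoeffOn hab hL2
  have hco : ∀ n : ℤ, ‖fourierCoeffOn hab G n‖ ^ 2 = (1 / (2 * lep)) ^ 2 * b (-n) := by
    intro n
    rw [fourierCoeffOn_eq_integral]
    have h3 : ∫ x in (-lep)..lep, fourier (-n) (x : AddCircle (lep - -lep)) • G x = ∫ y in (-lep)..lep, PWF_g S f Y h α y * PWF_e (fr α (-n)) y := by
      refine intervalIntegral.integral_congr fun x _ => ?_
      rw [fourier_coe_apply, smul_eq_mul, hG]
      have h4 : Complex.exp (2 * Real.pi * Complex.I * ((-n : ℤ) : ℂ) * x / ((lep - -lep : ℝ) : ℂ)) * PWF_e (α / (2 * lep)) x = PWF_e (fr α (-n)) x := by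
        unfold PWF_e fr
        rw [← Complex.exp_add]
        congr 1
        have h5 : (lep : ℂ) ≠ 0 := by exact_mod_cast (by linarith : lep ≠ 0)
        push_cast
        field_simp
        ring
      rw [← h4]
      ring
    rw [h3, PWF_coef S f Y h α (-n) hh hh1 hY, norm_smul, mul_pow, hb]
    congr 1
    rw [Real.norm_eq_abs, abs_of_nonneg (by have : 0 ≤ lep - -lep := by linarith
                                            positivity)]
    congr 2
    ring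
  simp only [hco] at hsum
  have hle : (lep - -lep)⁻¹ • ∫ x in (-lep)..lep, ‖G x‖ ^ 2 ≤ (1 / (2 * lep)) ^ 2 * B := by
    refine hasSum_le_of_sum_le hsum fun F => ?_
    rw [← Finset.mul_sum]
    refine mul_le_mul_of_nonneg_left ?_ (by positivity)
    have h3 : ∑ n ∈ F, b (-n) = ∑ m ∈ F.image (fun n => -n), b m := by
      rw [Finset.sum_image]
      intro x _ y _ hxy
      simpa using hxy
    rw [h3]
    exact hfin _
  simp only [hGn] at hle
  rw [smul_eq_mul] at hle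
  have h3 : (lep - -lep)⁻¹ = 1 / (2 * lep) := by rw [one_div]; congr 1; ring
  rw [h3] at hle
  have hB0 : 0 ≤ B := (Finset.sum_empty (f := b)).symm.le.trans (hfin ∅)
  have h4 : ∫ x in (-lep)..lep, ‖PWF_g S f Y h α x‖ ^ 2 ≤ 1 / (2 * lep) * B := by
    have h5 : (0 : ℝ) < 1 / (2 * lep) := by positivity
    have h6 : 1 / (2 * lep) * ∫ x in (-lep)..lep, ‖PWF_g S f Y h α x‖ ^ 2 ≤ 1 / (2 * lep) * (1 / (2 * lep) * B) := by
      refine hle.trans (le_of_eq ?_); ring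
    exact le_of_mul_le_mul_left h6 h5
  refine h4.trans ?_
  have h7 : 1 / (2 * lep) ≤ 1 := by
    rw [div_le_one (by linarith)]; linarith
  nlinarith

open scoped Classical in
theorem PWF : PWF_stmt := by
  refine ⟨64, by norm_num, ?_⟩
  intro S f α h U V₀ W₀ M₁ hS hα hα2 hM hh hh1 hU hV hW0 hs hWb
  have hl := PWF_lep1
  have hM0 : (0 : ℝ) < M₁ := by exact_mod_cast (by omega : 0 < M₁)
  have hWeq : ∀ y : ℝ, (∑ z ∈ S with (y < yy z ∧ yy z ≤ y + h), f z) = PWF_W S f yy h y := by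
    intro y
    unfold PWF_W
    rw [Finset.sum_filter]
    refine Finset.sum_congr rfl fun z _ => ?_
    by_cases hc : y < yy z ∧ yy z ≤ y + h
    · rw [if_pos hc, Set.indicator_of_mem]
      exact ⟨by linarith [hc.2], hc.1⟩
    · rw [if_neg hc, Set.indicator_of_notMem]
      intro hm
      refine hc ⟨hm.2, ?_⟩
      have := hm.1
      linarith
  simp only [hWeq] at hWb ⊢
  have hs' : ∀ M : ℕ, M₁ ≤ M → ∑ m ∈ Icc (-(M : ℤ)) M, ‖∑ z ∈ S, f z * PWF_e (fr α m) (yy z)‖ ^ 2 ≤ M * U + V₀ := by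
    intro M hM1
    exact hs M hM1
  have hp := PWF_pars S f yy h α U V₀ M₁ hh hh1 hα hα2 hM hU hV hS hs'
  have hfin : ∑ m ∈ Icc (-(M₁ : ℤ)) M₁, ‖∑ z ∈ S, f z * Complex.exp (((fr α m * yy z : ℝ) : ℂ) * Complex.I)‖ ^ 2
      = ∑ m ∈ Icc (-(M₁ : ℤ)) M₁, ‖∑ z ∈ S, f z * PWF_e (fr α m) (yy z)‖ ^ 2 := rfl
  rw [hfin]
  set S₁ := ∑ m ∈ Icc (-(M₁ : ℤ)) M₁, ‖∑ z ∈ S, f z * PWF_e (fr α m) (yy z)‖ ^ 2 with hS₁
  set W := PWF_W S f yy h with hWdef
  have hWm : Measurable W := PWF_meas S f yy h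
  set T := ∑ z ∈ S, ‖f z‖ with hT
  have hint : ∀ u v : ℝ, IntervalIntegrable (fun y => ‖W y‖ ^ 2) MeasureTheory.volume u v := by
    intro u v
    refine PWF_ii (B := T ^ 2) (hWm.norm.pow_const 2).aestronglyMeasurable ?_ u v
    intro y
    rw [Real.norm_eq_abs, abs_of_nonneg (by positivity)]
    have := PWF_bd S f yy h y
    gcongr
  have e0 : ∫ y : ℝ, ‖W y‖ ^ 2 = ∫ y in (-lep - h)..lep, ‖W y‖ ^ 2 := by
    rw [intervalIntegral.integral_of_le (by linarith), ← MeasureTheory.integral_Icc_eq_integral_Ioc]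
    symm
    refine MeasureTheory.setIntegral_eq_integral_of_forall_compl_eq_zero fun y hy => ?_
    have h3 : W y = 0 := by
      rw [hWdef]
      unfold PWF_W
      refine Finset.sum_eq_zero fun z hz => ?_
      rw [Set.indicator_of_notMem]
      intro hm
      refine hy ⟨?_, ?_⟩
      · linarith [hm.1, (abs_le.mp (hS z hz)).1]
      · linarith [hm.2, (abs_le.mp (hS z hz)).2]
    rw [h3]; simp
  have hend : ∀ u v : ℝ, u ≤ v → ∫ y in u..v, ‖W y‖ ^ 2 ≤ (v - u) * W₀ ^ 2 := by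
    intro u v huv
    have h3 : ∫ y in u..v, ‖W y‖ ^ 2 ≤ ∫ _ in u..v, W₀ ^ 2 := by
      refine intervalIntegral.integral_mono_on huv (hint u v) intervalIntegrable_const fun y _ => ?_
      have := hWb y
      gcongr
    rw [intervalIntegral.integral_const, smul_eq_mul] at h3
    exact h3
  have hmid : ∫ y in (-lep)..(lep - h), ‖W y‖ ^ 2 ≤ ∫ y in (-lep)..lep, ‖PWF_g S f yy h α y‖ ^ 2 := by
    have hgint : ∀ u v : ℝ, IntervalIntegrable (fun y => ‖PWF_g S f yy h α y‖ ^ 2) MeasureTheory.volume u v := by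
      intro u v
      refine PWF_ii (B := (2 * T) ^ 2) ((PWF_gmeas S f yy h α).norm.pow_const 2).aestronglyMeasurable ?_ u v
      intro y
      rw [Real.norm_eq_abs, abs_of_nonneg (by positivity)]
      have := PWF_gbd S f yy h α y
      gcongr
    have h3 : ∫ y in (-lep)..(lep - h), ‖W y‖ ^ 2 = ∫ y in (-lep)..(lep - h), ‖PWF_g S f yy h α y‖ ^ 2 := by
      refine PWF_congr (by linarith) fun y hy1 hy2 => ?_
      have h4 : PWF_W S f yy h (y - 2 * lep) = 0 := by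
        unfold PWF_W
        refine Finset.sum_eq_zero fun z hz => ?_
        rw [Set.indicator_of_notMem]
        intro hm
        linarith [hm.1, (abs_le.mp (hS z hz)).1]
      unfold PWF_g
      rw [h4, mul_zero, add_zero]
    rw [h3, ← intervalIntegral.integral_add_adjacent_intervals (hgint (-lep) (lep - h)) (hgint (lep - h) lep)]
    have h4 : 0 ≤ ∫ y in (lep - h)..lep, ‖PWF_g S f yy h α y‖ ^ 2 :=
      intervalIntegral.integral_nonneg (by linarith) fun y _ => by positivity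
    linarith
  rw [e0, ← intervalIntegral.integral_add_adjacent_intervals (hint (-lep - h) (-lep)) (hint (-lep) lep),
    ← intervalIntegral.integral_add_adjacent_intervals (hint (-lep) (lep - h)) (hint (lep - h) lep)]
  have h5 := hend (-lep - h) (-lep) (by linarith)
  have h6 := hend (lep - h) lep (by linarith)
  have h7 : (-lep - (-lep - h)) = h := by ring
  have h8 : lep - (lep - h) = h := by ring
  rw [h7] at h5
  rw [h8] at h6
  have h9 : 0 ≤ S₁ := Finset.sum_nonneg fun m _ => by positivity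
  have h10 : 0 ≤ h ^ 2 * S₁ := by positivity
  have h11 : 0 ≤ V₀ / (M₁ : ℝ) ^ 2 := by positivity
  have h12 : 0 ≤ h * W₀ ^ 2 := by positivity
  linarith

end Pool.Agent.EU
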