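import Pool.Agent.helper6.EU.SpecT

/-! # Row eu:TCM (MP_ad8ced_nt): the main term -/

set_option autoImplicit false

open Finset

noncomputable section

namespace Pool.Agent.EU

open Pool.Agent.FI Pool.Agent.FJ

/-- the two scales -/
private theorem TCM_core1 (δ c b : ℝ) (hδ : 0 ≤ δ) (hc : 0 ≤ c) (s t : ℤ → ℝ) (ht : ∀ l, 0 ≤ t l) (I J : Finset ℤ) (s1 s2 : ℝ)
    (hI : ∀ l ∈ I, s l ≤ s1 ∧ s1 - s l ≤ 2) (hJ : ∀ l ∈ J, s2 ≤ s l) (h12 : 1 ≤ s2 - s1)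
    (hTI : 0 < ∑ l ∈ I, t l) (hTJ : 0 < ∑ l ∈ J, t l)
    (h1 : -(δ * ∑ l ∈ I, t l) ≤ ∑ l ∈ I, t l * (c * s l + b)) (h2 : ∑ l ∈ J, t l * (c * s l + b) ≤ δ * ∑ l ∈ J, t l) :
    ∀ l ∈ I, |c * s l + b| ≤ 5 * δ := by
  have e1 : ∑ l ∈ I, t l * (c * s l + b) ≤ (c * s1 + b) * ∑ l ∈ I, t l := by
    rw [mul_sum]
    refine sum_le_sum fun l hl => ?_
    have := mul_le_mul_of_nonneg_left (hI l hl).1 hc
    have h3 := mul_le_mul_of_nonneg_left (by linarith : c * s l + b ≤ c * s1 + b) (ht l)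
    linarith
  have e2 : (c * s2 + b) * ∑ l ∈ J, t l ≤ ∑ l ∈ J, t l * (c * s l + b) := by
    rw [mul_sum]
    refine sum_le_sum fun l hl => ?_
    have := mul_le_mul_of_nonneg_left (hJ l hl) hc
    have h3 := mul_le_mul_of_nonneg_left (by linarith : c * s2 + b ≤ c * s l + b) (ht l)
    linarith
  have f1 : -δ ≤ c * s1 + b := by
    by_contra hcon
    push Not at hcon
    have := mul_lt_mul_of_pos_right hcon hTI
    linarith
  have f2 : c * s2 + b ≤ δ := by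
    by_contra hcon
    push Not at hcon
    have := mul_lt_mul_of_pos_right hcon hTJ
    linarith
  have f3 : c ≤ 2 * δ := by
    have := mul_le_mul_of_nonneg_left h12 hc
    nlinarith
  intro l hl
  obtain ⟨h3, h4⟩ := hI l hl
  have h5 := mul_le_mul_of_nonneg_left h3 hc
  have h6 := mul_le_mul_of_nonneg_left h4 hc
  have h7 := mul_le_mul_of_nonneg_left (by linarith : s1 ≤ s2) hc
  rw [abs_le]
  constructor
  · nlinarith
  · nlinarith

private theorem TCM_core (δ c b : ℝ) (hδ : 0 ≤ δ) (s t : ℤ → ℝ) (ht : ∀ l, 0 ≤ t l) (I J : Finset ℤ) (s1 s2 : ℝ)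
    (hI : ∀ l ∈ I, s l ≤ s1 ∧ s1 - s l ≤ 2) (hJ : ∀ l ∈ J, s2 ≤ s l) (h12 : 1 ≤ s2 - s1)
    (hTI : 0 < ∑ l ∈ I, t l) (hTJ : 0 < ∑ l ∈ J, t l)
    (h1 : |∑ l ∈ I, t l * (c * s l + b)| ≤ δ * ∑ l ∈ I, t l) (h2 : |∑ l ∈ J, t l * (c * s l + b)| ≤ δ * ∑ l ∈ J, t l) :
    ∀ l ∈ I, |c * s l + b| ≤ 5 * δ := by
  rcases le_total 0 c with hc | hc
  · exact TCM_core1 δ c b hδ hc s t ht I J s1 s2 hI hJ h12 hTI hTJ (abs_le.1 h1).1 (abs_le.1 h2).2
  · have e : ∀ S : Finset ℤ, ∑ l ∈ S, t l * (-c * s l + -b) = -∑ l ∈ S, t l * (c * s l + b) := by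
      intro S
      rw [← sum_neg_distrib]
      exact sum_congr rfl fun l _ => by ring
    have h3 := TCM_core1 δ (-c) (-b) hδ (by linarith) s t ht I J s1 s2 hI hJ h12 hTI hTJ
      (by rw [e]; have := (abs_le.1 h1).2; linarith) (by rw [e]; have := (abs_le.1 h2).1; linarith)
    intro l hl
    have h4 := h3 l hl
    have e2 : -c * s l + -b = -(c * s l + b) := by ring
    rwa [e2, abs_neg] at h4

private theorem TCM_nn {x A : ℕ} {a l : ℤ} (hA : A ≤ x) (ha1 : 1 ≤ a) (ha2 : a ≤ A) (hl : (x : ℤ) ≤ l) :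
    (nn (a, l) : ℝ) = 8 * (l : ℝ) ^ 2 - (a : ℝ) ^ 2 ∧ 7 * (l : ℝ) ^ 2 ≤ nn (a, l) ∧ 1 ≤ (l : ℝ) := by
  have hAx : (A : ℤ) ≤ x := by exact_mod_cast hA
  have h0 : a ≤ l := by linarith
  have h1 : a ^ 2 ≤ l ^ 2 := by nlinarith
  have h2 : (nn (a, l) : ℤ) = 8 * l ^ 2 - a ^ 2 := by
    unfold nn N8
    rw [Int.natCast_natAbs, abs_of_nonpos (by nlinarith)]
    ring
  have h3 : (nn (a, l) : ℝ) = 8 * (l : ℝ) ^ 2 - (a : ℝ) ^ 2 := by
    have := congrArg (fun z : ℤ => (z : ℝ)) h2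
    push_cast at this
    exact this
  have h4 : (a : ℝ) ^ 2 ≤ (l : ℝ) ^ 2 := by exact_mod_cast h1
  refine ⟨h3, by rw [h3]; linarith, ?_⟩
  exact_mod_cast (by linarith : (1 : ℤ) ≤ l)

/-- the mean of `log (8l² - a²)` -/
private def sL (A : ℕ) (l : ℤ) : ℝ := (∑ a ∈ Icc (1 : ℤ) A, Real.log (nn (a, l))) / A

private theorem TCM_card (A : ℕ) : (#(Icc (1 : ℤ) A) : ℝ) = A := by
  rw [Int.card_Icc]
  simp

private theorem TCM_sub (A : ℕ) (hA : 1 ≤ A) (l l' : ℤ) (K : ℝ) (h : ∀ a ∈ Icc (1 : ℤ) A, Real.log (nn (a, l)) ≤ Real.log (nn (a, l')) + K) :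
    sL A l ≤ sL A l' + K := by
  have hA0 : (0 : ℝ) < A := by exact_mod_cast hA
  unfold sL
  rw [div_add' _ _ _ hA0.ne']
  refine div_le_div_of_nonneg_right ?_ hA0.le
  refine (sum_le_sum h).trans (le_of_eq ?_)
  rw [sum_add_distrib, sum_const, nsmul_eq_mul, TCM_card]
  ring

private theorem TCM_s1 {x A : ℕ} (hA1 : 1 ≤ A) (hA : A ≤ x) {l : ℤ} (hl1 : (x : ℤ) < l) (hl2 : l ≤ 2 * x) :
    sL A l ≤ sL A (2 * x) ∧ sL A (2 * x) - sL A l ≤ 2 := by
  constructor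
  · have := TCM_sub A hA1 l (2 * x) 0 fun a ha => by
      rw [mem_Icc] at ha
      obtain ⟨h1, h2, h3⟩ := TCM_nn hA ha.1 ha.2 hl1.le
      obtain ⟨h4, h5, h6⟩ := TCM_nn (l := 2 * x) hA ha.1 ha.2 (by linarith)
      rw [add_zero]
      refine Real.log_le_log (by nlinarith) ?_
      rw [h1, h4]
      have : (l : ℝ) ≤ ((2 * x : ℤ) : ℝ) := by exact_mod_cast hl2
      nlinarith
    linarith
  · have := TCM_sub A hA1 (2 * x) l 2 fun a ha => by
      rw [mem_Icc] at ha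
      obtain ⟨h1, h2, h3⟩ := TCM_nn hA ha.1 ha.2 hl1.le
      obtain ⟨h4, h5, h6⟩ := TCM_nn (l := 2 * x) hA ha.1 ha.2 (by linarith)
      have h7 : (nn (a, 2 * (x : ℤ)) : ℝ) ≤ nn (a, l) * Real.exp 2 := by
        have h8 : (5 : ℝ) ≤ Real.exp 2 := by
          have := Real.quadratic_le_exp_of_nonneg (by norm_num : (0 : ℝ) ≤ 2)
          linarith
        have h9 : (x : ℝ) ≤ l := by exact_mod_cast hl1.le
        have h10 : (nn (a, 2 * (x : ℤ)) : ℝ) ≤ nn (a, l) * 5 := by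
          rw [h4]
          push_cast
          have h11 : (0 : ℝ) ≤ x := Nat.cast_nonneg x
          nlinarith [sq_nonneg (a : ℝ)]
        nlinarith
      have h12 : (0 : ℝ) < nn (a, 2 * (x : ℤ)) := by nlinarith
      have h13 : (0 : ℝ) < nn (a, l) := by nlinarith
      have h14 := Real.log_le_log h12 h7
      rwa [Real.log_mul h13.ne' (Real.exp_pos 2).ne', Real.log_exp] at h14
    linarith

private theorem TCM_s2 {x A : ℕ} (hA1 : 1 ≤ A) (hA : A ≤ x) {l : ℤ} (hl1 : 4 * (x : ℤ) < l) :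
    sL A (4 * x) ≤ sL A l := by
  have := TCM_sub A hA1 (4 * x) l 0 fun a ha => by
    rw [mem_Icc] at ha
    have hx : (0 : ℤ) ≤ x := Int.natCast_nonneg x
    obtain ⟨h1, h2, h3⟩ := TCM_nn hA ha.1 ha.2 (by linarith : (x : ℤ) ≤ l)
    obtain ⟨h4, h5, h6⟩ := TCM_nn (l := 4 * x) hA ha.1 ha.2 (by linarith)
    rw [add_zero]
    refine Real.log_le_log (by nlinarith) ?_
    rw [h1, h4]
    have : ((4 * x : ℤ) : ℝ) ≤ l := by exact_mod_cast hl1.le
    nlinarith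
  linarith

private theorem TCM_s12 {x A : ℕ} (hA1 : 1 ≤ A) (hA : A ≤ x) : 1 ≤ sL A (4 * x) - sL A (2 * x) := by
  have := TCM_sub A hA1 (2 * x) (4 * x) (-1) fun a ha => by
    rw [mem_Icc] at ha
    have hx : (0 : ℤ) ≤ x := Int.natCast_nonneg x
    obtain ⟨h1, h2, h3⟩ := TCM_nn (l := 2 * x) hA ha.1 ha.2 (by linarith)
    obtain ⟨h4, h5, h6⟩ := TCM_nn (l := 4 * x) hA ha.1 ha.2 (by linarith)
    have h7 : (nn (a, 2 * (x : ℤ)) : ℝ) * Real.exp 1 ≤ nn (a, 4 * (x : ℤ)) := by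
      have h8 : Real.exp 1 ≤ 4 := by
        have := Real.exp_one_lt_d9
        linarith
      have h9 : (0 : ℝ) ≤ nn (a, 2 * (x : ℤ)) := Nat.cast_nonneg _
      have h10 : (nn (a, 2 * (x : ℤ)) : ℝ) * 4 ≤ nn (a, 4 * (x : ℤ)) := by
        rw [h1, h4]
        push_cast
        nlinarith [sq_nonneg (a : ℝ)]
      nlinarith
    have h12 : (0 : ℝ) < nn (a, 2 * (x : ℤ)) := by nlinarith
    have h14 := Real.log_le_log (by positivity) h7
    rw [Real.log_mul h12.ne' (Real.exp_pos 1).ne', Real.log_exp] at h14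
    linarith
  linarith

private theorem TCM_Mn (r U V D A : ℕ) (hA : 1 ≤ A) (l : ℤ) (κ : ℝ) :
    Mn r U V D A l - κ * A = A * (mc1 r V * sL A l + (mc2 r U V D - κ)) := by
  have hA0 : (A : ℝ) ≠ 0 := by
    have : (0 : ℝ) < A := by exact_mod_cast hA
    exact this.ne'
  unfold Mn sL
  field_simp
  ring

private theorem TCM_th (l : ℤ) : 0 ≤ th l := by
  unfold th
  split_ifs with h
  · apply Real.log_nonneg
    have h1 := h.two_le
    have : (1 : ℤ) ≤ l := by omega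
    exact_mod_cast this
  · exact le_rfl

/-- the sums over the pairs and over `l` -/
private theorem TCM_PZ (y A : ℕ) (hA : A ≤ y) (F : ℤ × ℤ → ℝ) :
    ∑ ζ ∈ PZ y A, th ζ.2 * F ζ = ∑ l ∈ Ioc (y : ℤ) (2 * y), th l * ∑ a ∈ Icc (1 : ℤ) A with a % 2 = 1, F (a, l) := by
  classical
  unfold PZ
  have h1 : ∀ ζ ∈ Icc (1 : ℤ) A ×ˢ Ioc (y : ℤ) (2 * y), (if ζ.1 % 2 = 1 ∧ IsCoprime ζ.1 ζ.2 then th ζ.2 * F ζ else 0) =
      if ζ.1 % 2 = 1 then th ζ.2 * F ζ else 0 := by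
    intro ζ hζ
    rw [mem_product, mem_Icc, mem_Ioc] at hζ
    by_cases ho : ζ.1 % 2 = 1
    · by_cases hp : ζ.2.toNat.Prime
      · have hc : IsCoprime ζ.1 ζ.2 := by
          have e2 : ζ.2 = (ζ.2.toNat : ℤ) := (Int.toNat_of_nonneg (by omega)).symm
          have e1 : ζ.1 = (ζ.1.toNat : ℤ) := (Int.toNat_of_nonneg (by omega)).symm
          rw [e1, e2, Nat.isCoprime_iff_coprime]
          refine (Nat.coprime_of_lt_prime ?_ ?_ hp).symm
          · omega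
          · have hAy : (A : ℤ) ≤ y := by exact_mod_cast hA
            omega
        rw [if_pos ⟨ho, hc⟩, if_pos ho]
      · have h0 : th ζ.2 = 0 := by unfold th; rw [if_neg hp]
        rw [h0, zero_mul, if_pos ho, ite_self]
    · rw [if_neg (fun h => ho h.1), if_neg ho]
  rw [sum_filter, sum_congr rfl h1, sum_product_right]
  refine sum_congr rfl fun l _ => ?_
  rw [mul_sum, sum_filter]

/-- one scale -/
private theorem TCM_scale (y A r U V D : ℕ) (κ ε : ℝ) (hA1 : 1 ≤ A) (hA : A ≤ y) (hκ : 0 ≤ κ)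
    (hT : |∑ l ∈ Ioc (y : ℤ) (2 * y), th l - y| ≤ ε * y)
    (hM : |∑ ζ ∈ PZ y A with (nn ζ).Prime, th ζ.2 * Real.log (nn ζ) - κ * (A * y)| ≤ ε * (A * y))
    (hP : ∑ ζ ∈ PZ y A with ¬ (nn ζ).Prime, th ζ.2 * ArithmeticFunction.vonMangoldt (nn ζ) ≤ ε * (A * y))
    (hE : |∑ l ∈ Ioc (y : ℤ) (2 * y), th l * (Ls A l - Mn r U V D A l)| ≤ ε * (A * y)) :
    |∑ l ∈ Ioc (y : ℤ) (2 * y), th l * (mc1 r V * sL A l + (mc2 r U V D - κ))| ≤ (3 + κ) * ε * y := by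
  classical
  have hA0 : (0 : ℝ) < A := by exact_mod_cast hA1
  have hL : ∑ l ∈ Ioc (y : ℤ) (2 * y), th l * Ls A l = ∑ ζ ∈ PZ y A, th ζ.2 * ArithmeticFunction.vonMangoldt (nn ζ) := by
    rw [TCM_PZ y A hA fun ζ => ArithmeticFunction.vonMangoldt (nn ζ)]
    rfl
  have hs : ∑ ζ ∈ PZ y A, th ζ.2 * ArithmeticFunction.vonMangoldt (nn ζ) =
      ∑ ζ ∈ PZ y A with (nn ζ).Prime, th ζ.2 * Real.log (nn ζ) +
        ∑ ζ ∈ PZ y A with ¬ (nn ζ).Prime, th ζ.2 * ArithmeticFunction.vonMangoldt (nn ζ) := by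
    rw [← sum_filter_add_sum_filter_not (PZ y A) (fun ζ => (nn ζ).Prime)]
    congr 1
    refine sum_congr rfl fun ζ hζ => ?_
    rw [ArithmeticFunction.vonMangoldt_apply_prime (mem_filter.1 hζ).2]
  have hP0 : 0 ≤ ∑ ζ ∈ PZ y A with ¬ (nn ζ).Prime, th ζ.2 * ArithmeticFunction.vonMangoldt (nn ζ) :=
    sum_nonneg fun ζ _ => mul_nonneg (TCM_th _) ArithmeticFunction.vonMangoldt_nonneg
  have e1 : (A : ℝ) * ∑ l ∈ Ioc (y : ℤ) (2 * y), th l * (mc1 r V * sL A l + (mc2 r U V D - κ)) =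
      ∑ l ∈ Ioc (y : ℤ) (2 * y), th l * Ls A l - ∑ l ∈ Ioc (y : ℤ) (2 * y), th l * (Ls A l - Mn r U V D A l) -
        κ * A * ∑ l ∈ Ioc (y : ℤ) (2 * y), th l := by
    rw [mul_sum, mul_sum, ← sum_sub_distrib, ← sum_sub_distrib]
    refine sum_congr rfl fun l _ => ?_
    have := TCM_Mn r U V D A hA1 l κ
    have e : (A : ℝ) * (th l * (mc1 r V * sL A l + (mc2 r U V D - κ))) = th l * (A * (mc1 r V * sL A l + (mc2 r U V D - κ))) := by ring
    rw [e, ← this]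
    ring
  have h1 := abs_le.1 hT
  have h2 := abs_le.1 hM
  have h3 := abs_le.1 hE
  have h4 : |(A : ℝ) * ∑ l ∈ Ioc (y : ℤ) (2 * y), th l * (mc1 r V * sL A l + (mc2 r U V D - κ))| ≤ A * ((3 + κ) * ε * y) := by
    rw [e1, hL, hs, abs_le]
    have hκA : 0 ≤ κ * A := by positivity
    have h5 := mul_le_mul_of_nonneg_left h1.1 hκA
    have h6 := mul_le_mul_of_nonneg_left h1.2 hκA
    constructor
    · nlinarith [h2.1, h2.2, h3.1, h3.2]
    · nlinarith [h2.1, h2.2, h3.1, h3.2]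
  rw [abs_mul, abs_of_pos hA0] at h4
  exact le_of_mul_le_mul_left h4 hA0

/-- the weight of the primes at one scale -/
private def lmt (y : ℕ) (l : ℤ) : ℝ := if (y : ℤ) < l ∧ l ≤ 2 * y then th l else 0

private theorem TCM_lmt (y : ℕ) (hy : 2 ≤ y) :
    (∀ l, |lmt y l| ≤ 2 * Real.log y) ∧ (∀ l, lmt y l ≠ 0 → (y : ℤ) < l ∧ l ≤ 2 * y ∧ l.toNat.Prime) ∧
    ∀ F : ℤ → ℝ, ∑ l ∈ Ioc (y : ℤ) (2 * y), lmt y l * F l = ∑ l ∈ Ioc (y : ℤ) (2 * y), th l * F l := by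
  have hy' : (2 : ℝ) ≤ y := by exact_mod_cast hy
  have hL0 : 0 ≤ Real.log y := Real.log_nonneg (by linarith)
  refine ⟨fun l => ?_, fun l hl => ?_, fun F => ?_⟩
  · unfold lmt
    split_ifs with h
    · rw [abs_of_nonneg (TCM_th l)]
      unfold th
      split_ifs with hp
      · have h1 : (l : ℝ) ≤ y ^ 2 := by
          have : (l : ℝ) ≤ 2 * y := by exact_mod_cast h.2
          nlinarith
        have h2 : (0 : ℝ) < l := by
          have : (0 : ℤ) < l := by omega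
          exact_mod_cast this
        refine (Real.log_le_log h2 h1).trans ?_
        rw [Real.log_pow]
        push_cast
        exact le_rfl
      · positivity
    · rw [abs_zero]; positivity
  · unfold lmt at hl
    split_ifs at hl with h
    · refine ⟨h.1, h.2, ?_⟩
      unfold th at hl
      by_contra hp
      rw [if_neg hp] at hl
      exact hl rfl
    · exact absurd rfl hl
  · refine sum_congr rfl fun l hl => ?_
    rw [mem_Ioc] at hl
    unfold lmt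
    rw [if_pos hl]

private theorem TCM_ev (η : ℝ) (hη : 0 < η) (C₀ : ℕ) (δ : ℝ) : ∃ x₀ : ℕ, ∀ x : ℕ, x₀ ≤ x →
    2 ≤ x ∧ 4 ≤ (x : ℝ) ^ (η / 8) ∧ 1 ≤ Real.log x ∧ (4 : ℝ) ^ C₀ ≤ Real.log x ^ 2 ∧ 3 / δ ≤ Real.log x ∧ 1 / δ ≤ (x : ℝ) ^ (1 / 6 : ℝ) := by
  have h1 := (tendsto_rpow_atTop (show 0 < η / 8 by positivity)).eventually_ge_atTop 4
  have h2 := Real.tendsto_log_atTop.eventually_ge_atTop (max (max 1 (4 ^ C₀)) (3 / δ))
  have h3 := (tendsto_rpow_atTop (show (0 : ℝ) < 1 / 6 by norm_num)).eventually_ge_atTop (1 / δ)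
  have h4 := tendsto_natCast_atTop_atTop (R := ℝ) |>.eventually (h1.and (h2.and h3))
  obtain ⟨N₀, h5⟩ := Filter.eventually_atTop.1 h4
  refine ⟨max N₀ 2, fun x hx => ?_⟩
  obtain ⟨h6, h7, h8⟩ := h5 x (le_trans (le_max_left _ _) hx)
  have h9 : (4 : ℝ) ^ C₀ ≤ Real.log x := le_trans (le_max_right _ _) (le_trans (le_max_left _ _) h7)
  have h10 : 1 ≤ Real.log x := le_trans (le_max_left _ _) (le_trans (le_max_left _ _) h7)
  refine ⟨le_trans (le_max_right _ _) hx, h6, h10, ?_, le_trans (le_max_right _ _) h7, h8⟩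
  nlinarith

/-- the ranges of the parameters at both scales -/
private theorem TCM_rng (η : ℝ) (hη : 0 < η) (hη3 : η ≤ 1 / 3) (x y A : ℕ) (hx : 1 ≤ x) (hw : 4 ≤ (x : ℝ) ^ (η / 8)) (hxy : x ≤ y) (hy4 : y ≤ 4 * x)
    (hA : (x : ℝ) ^ (2 / 3 + η) ≤ A) :
    (y : ℝ) ^ (2 / 3 + η / 2) ≤ A ∧ (y : ℝ) ^ (2 / 3 - η / 2) ≤ (Up η x : ℝ) ∧ (Up η x : ℝ) ≤ (y : ℝ) ^ (2 / 3 - η / 2 / 4) ∧
    (y : ℝ) ^ (2 / 3 + η / 2 / 4) ≤ (Dp η x : ℝ) ∧ (Dp η x : ℝ) ≤ (y : ℝ) ^ (2 / 3 + 3 * (η / 2) / 4) := by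
  have hx1 : (1 : ℝ) ≤ x := by exact_mod_cast hx
  have hx0 : (0 : ℝ) < x := by linarith
  have hxy' : (x : ℝ) ≤ y := by exact_mod_cast hxy
  have hy4' : (y : ℝ) ≤ 4 * x := by exact_mod_cast hy4
  set w : ℝ := (x : ℝ) ^ (η / 8) with hwd
  set b : ℝ := (x : ℝ) ^ (2 / 3 : ℝ) with hb
  have hw0 : 0 < w := by linarith
  have hb0 : 0 < b := by positivity
  have up : ∀ e : ℝ, 0 ≤ e → e ≤ 1 → (y : ℝ) ^ e ≤ 4 * (x : ℝ) ^ e := by
    intro e he0 he1
    calc (y : ℝ) ^ e ≤ (4 * x) ^ e := Real.rpow_le_rpow (by linarith) hy4' he0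
      _ = 4 ^ e * (x : ℝ) ^ e := Real.mul_rpow (by norm_num) hx0.le
      _ ≤ 4 * (x : ℝ) ^ e := by
        refine mul_le_mul_of_nonneg_right ?_ (by positivity)
        calc (4 : ℝ) ^ e ≤ 4 ^ (1 : ℝ) := Real.rpow_le_rpow_of_exponent_le (by norm_num) he1
          _ = 4 := Real.rpow_one 4
  have lo : ∀ e : ℝ, 0 ≤ e → (x : ℝ) ^ e ≤ (y : ℝ) ^ e := fun e he => Real.rpow_le_rpow hx0.le hxy' he
  have hplus : ∀ (e : ℝ) (k : ℕ), e = 2 / 3 + k * (η / 8) → (x : ℝ) ^ e = b * w ^ k := by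
    intro e k he
    rw [he, Real.rpow_add hx0, hb, hwd, ← Real.rpow_natCast, ← Real.rpow_mul hx0.le, mul_comm (k : ℝ)]
  have hminus : ∀ (e : ℝ) (k : ℕ), e = 2 / 3 - k * (η / 8) → (x : ℝ) ^ e * w ^ k = b := by
    intro e k he
    rw [he, hwd, ← Real.rpow_natCast, ← Real.rpow_mul hx0.le, ← Real.rpow_add hx0, hb]
    congr 1
    ring
  have e1 := hminus (2 / 3 - η / 4) 2 (by push_cast; ring)
  have e2 := hminus (2 / 3 - η / 2) 4 (by push_cast; ring)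
  have e3 := hminus (2 / 3 - η / 2 / 4) 1 (by push_cast; ring)
  have e4 := hplus (2 / 3 + η / 4) 2 (by push_cast; ring)
  have e5 := hplus (2 / 3 + η / 2 / 4) 1 (by push_cast; ring)
  have e6 := hplus (2 / 3 + 3 * (η / 2) / 4) 3 (by push_cast; ring)
  have e7 := hplus (2 / 3 + η / 2) 4 (by push_cast; ring)
  have e8 := hplus (2 / 3 + η) 8 (by push_cast; ring)
  have hw2 : 16 ≤ w ^ 2 := by nlinarith
  have hU1 : (1 : ℝ) ≤ (x : ℝ) ^ (2 / 3 - η / 4) := Real.one_le_rpow hx1 (by linarith)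
  have hD1 : (1 : ℝ) ≤ (x : ℝ) ^ (2 / 3 + η / 4) := Real.one_le_rpow hx1 (by linarith)
  have cU : (Up η x : ℝ) ≤ 2 * (x : ℝ) ^ (2 / 3 - η / 4) := by
    have := Nat.ceil_lt_add_one (zero_le_one.trans hU1)
    unfold Up
    linarith
  have cD : (Dp η x : ℝ) ≤ 2 * (x : ℝ) ^ (2 / 3 + η / 4) := by
    have := Nat.ceil_lt_add_one (zero_le_one.trans hD1)
    unfold Dp
    linarith
  have lU : (x : ℝ) ^ (2 / 3 - η / 4) ≤ (Up η x : ℝ) := Nat.le_ceil _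
  have lD : (x : ℝ) ^ (2 / 3 + η / 4) ≤ (Dp η x : ℝ) := Nat.le_ceil _
  refine ⟨?_, ?_, ?_, ?_, ?_⟩
  · have h1 := up (2 / 3 + η / 2) (by linarith) (by linarith)
    rw [e7] at h1
    rw [e8] at hA
    have h2 : 4 * (b * w ^ 4) ≤ b * w ^ 8 := by
      have h3 : (4 : ℝ) ≤ w ^ 4 := by nlinarith
      have e : b * w ^ 8 = w ^ 4 * (b * w ^ 4) := by ring
      rw [e]
      exact mul_le_mul_of_nonneg_right h3 (by positivity)
    linarith
  · have h1 := up (2 / 3 - η / 2) (by linarith) (by linarith)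
    have h2 : 4 * (x : ℝ) ^ (2 / 3 - η / 2) ≤ (x : ℝ) ^ (2 / 3 - η / 4) := by
      have h3 : (x : ℝ) ^ (2 / 3 - η / 2) * w ^ 2 = (x : ℝ) ^ (2 / 3 - η / 4) := by
        have h4 : (x : ℝ) ^ (2 / 3 - η / 2) * w ^ 2 * w ^ 2 = (x : ℝ) ^ (2 / 3 - η / 4) * w ^ 2 := by rw [e1, ← e2]; ring
        exact mul_right_cancel₀ (by positivity) h4
      rw [← h3, mul_comm]
      exact mul_le_mul_of_nonneg_left (by linarith) (by positivity)
    linarith
  · have h1 := lo (2 / 3 - η / 2 / 4) (by linarith)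
    have h2 : 2 * (x : ℝ) ^ (2 / 3 - η / 4) ≤ (x : ℝ) ^ (2 / 3 - η / 2 / 4) := by
      have h3 : (x : ℝ) ^ (2 / 3 - η / 4) * w = (x : ℝ) ^ (2 / 3 - η / 2 / 4) := by
        have h4 : (x : ℝ) ^ (2 / 3 - η / 4) * w * w = (x : ℝ) ^ (2 / 3 - η / 2 / 4) * w := by
          rw [pow_one] at e3
          rw [e3, ← e1]; ring
        exact mul_right_cancel₀ hw0.ne' h4
      rw [← h3, mul_comm]
      exact mul_le_mul_of_nonneg_left (by linarith) (by positivity)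
    linarith
  · have h1 := up (2 / 3 + η / 2 / 4) (by linarith) (by linarith)
    rw [e5] at h1
    rw [e4] at lD
    have h2 : 4 * (b * w ^ 1) ≤ b * w ^ 2 := by
      have e : b * w ^ 2 = w * (b * w ^ 1) := by ring
      rw [e]
      exact mul_le_mul_of_nonneg_right hw (by positivity)
    linarith
  · have h1 := lo (2 / 3 + 3 * (η / 2) / 4) (by linarith)
    rw [e6] at h1
    rw [e4] at cD
    have h2 : 2 * (b * w ^ 2) ≤ b * w ^ 3 := by
      have e : b * w ^ 3 = w * (b * w ^ 2) := by ring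
      rw [e]
      exact mul_le_mul_of_nonneg_right (by linarith) (by positivity)
    linarith

private theorem TCM_ths (y : ℕ) (δ : ℝ) (hL : 0 < Real.log y) (hδ : 2 / δ ≤ Real.log y) (hδ0 : 0 < δ)
    (h : ∀ u : ℕ, u ≤ 2 * y → |∑ l ∈ Ioc (0 : ℤ) u with ((1 : ℕ) : ℤ) ∣ l - 0, th l - u / (Nat.totient 1 : ℝ)| ≤ y / Real.log y ^ 1) :
    |∑ l ∈ Ioc (y : ℤ) (2 * y), th l - y| ≤ δ * y := by
  have e : ∀ u : ℕ, ∑ l ∈ Ioc (0 : ℤ) u with ((1 : ℕ) : ℤ) ∣ l - 0, th l = ∑ l ∈ Ioc (0 : ℤ) u, th l := by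
    intro u
    rw [filter_true_of_mem]
    intro l _
    rw [Nat.cast_one]
    exact one_dvd _
  have h1 := h (2 * y) le_rfl
  have h2 := h y (by omega)
  rw [e, Nat.totient_one, Nat.cast_one, div_one, pow_one] at h1 h2
  have h3 : ∑ l ∈ Ioc (0 : ℤ) ((2 * y : ℕ) : ℤ), th l = ∑ l ∈ Ioc (0 : ℤ) y, th l + ∑ l ∈ Ioc (y : ℤ) (2 * y), th l := by
    have e3 : ((2 * y : ℕ) : ℤ) = 2 * (y : ℤ) := by push_cast; ring
    rw [e3, ← sum_union]
    · congr 1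
      ext l
      simp only [mem_union, mem_Ioc]
      omega
    · rw [disjoint_left]
      intro l hl hl'
      rw [mem_Ioc] at hl hl'
      omega
  rw [h3] at h1
  have h4 : (y : ℝ) / Real.log y ≤ δ / 2 * y := by
    rw [div_le_iff₀ hL]
    have h5 : 2 ≤ δ * Real.log y := by
      rw [div_le_iff₀ hδ0] at hδ
      linarith
    have h6 : (0 : ℝ) ≤ y := Nat.cast_nonneg y
    nlinarith
  push_cast at h1
  have h5 := abs_le.1 h1
  have h6 := abs_le.1 h2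
  rw [abs_le]
  constructor
  · linarith [h5.1, h5.2, h6.1, h6.2]
  · linarith [h5.1, h5.2, h6.1, h6.2]

theorem TCM (hTEM : TEM_stmt) (hMSP : MSP_stmt) (hPPW : PPW_stmt) (hTHS : THS_stmt) (hKPS : KPS_stmt) : TCM_stmt := by
  classical
  intro η hη ε hε
  have hSg := hKPS.1
  have hlep : 0 < lep := by
    unfold lep
    apply Real.log_pos
    have := Real.sqrt_nonneg 8
    linarith
  set κ : ℝ := √8 / lep * Sg with hκ
  have hκ0 : 0 ≤ κ := by positivity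
  obtain ⟨δ, hδ0, hδ1, hδ2⟩ : ∃ δ : ℝ, 0 < δ ∧ δ ≤ 1 / 2 ∧ 10 * (3 + κ) * δ ≤ ε := by
    refine ⟨min (1 / 2) (ε / (10 * (3 + κ))), lt_min (by norm_num) (by positivity), min_le_left _ _, ?_⟩
    have h1 := min_le_right (1 / 2 : ℝ) (ε / (10 * (3 + κ)))
    have h2 := mul_le_mul_of_nonneg_left h1 (by positivity : 0 ≤ 10 * (3 + κ))
    rwa [mul_div_cancel₀ _ (by positivity : (10 * (3 + κ) : ℝ) ≠ 0)] at h2
  obtain ⟨C₁, hTEM⟩ := hTEM (η / 2) (by positivity) 1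
  refine ⟨max C₁ 1, fun C₀ hC₀ => ?_⟩
  obtain ⟨x₁, h1⟩ := hTEM C₀ (le_trans (le_max_left _ _) hC₀)
  obtain ⟨x₂, h2⟩ := hTEM (C₀ + 1) (le_trans (le_trans (le_max_left _ _) hC₀) (Nat.le_succ _))
  obtain ⟨x₃, h3⟩ := hMSP (η / 2) (by positivity) δ hδ0
  obtain ⟨x₄, h4⟩ := hPPW
  obtain ⟨x₅, h5⟩ := hTHS 1 0
  obtain ⟨x₆, h6⟩ := TCM_ev η hη C₀ δ
  refine ⟨x₁ + x₂ + x₃ + x₄ + x₅ + x₆, fun x hx r hr1 hr2 A hA1 hA2 l hl1 hl2 => ?_⟩
  obtain ⟨hx2, hw, hL1, hC4, hLδ, hx6⟩ := h6 x (by omega)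
  have hxr : (2 : ℝ) ≤ x := by exact_mod_cast hx2
  have hx0 : (0 : ℝ) < x := by linarith
  have hAr : (A : ℝ) ≤ x := by exact_mod_cast hA2
  have hC1 : 1 ≤ C₀ := le_trans (le_max_right _ _) hC₀
  have hη3 : η ≤ 1 / 3 := by
    by_contra hcon
    have h7 : (x : ℝ) ^ (1 : ℝ) < (x : ℝ) ^ (2 / 3 + η) :=
      Real.rpow_lt_rpow_of_exponent_lt (by linarith) (by linarith)
    rw [Real.rpow_one] at h7
    linarith
  have hAn : 1 ≤ A := by
    have h7 : (1 : ℝ) ≤ (x : ℝ) ^ (2 / 3 + η) := Real.one_le_rpow (by linarith) (by linarith)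
    exact_mod_cast h7.trans hA1
  -- one scale
  have scale : ∀ y : ℕ, x ≤ y → y ≤ 4 * x →
      (∃ C : ℕ, (C = C₀ ∨ C = C₀ + 1) ∧ Real.log y ^ C ≤ Zr r ∧ (Zr r : ℝ) ≤ Real.log y ^ (2 * C)) →
      |∑ l ∈ Ioc (y : ℤ) (2 * y), th l * (mc1 r (Up η x) * sL A l + (mc2 r (Up η x) (Up η x) (Dp η x) - κ))| ≤ (3 + κ) * δ * y ∧
        |∑ l ∈ Ioc (y : ℤ) (2 * y), th l - y| ≤ δ * y := by
    intro y hxy hy4 hC
    obtain ⟨b1, b2, b3, b4, b5⟩ := TCM_rng η hη hη3 x y A (by omega) hw hxy hy4 hA1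
    have hxy' : (x : ℝ) ≤ y := by exact_mod_cast hxy
    have hLy : Real.log x ≤ Real.log y := Real.log_le_log hx0 hxy'
    have hy0 : (0 : ℝ) < y := by linarith
    have hA0 : (0 : ℝ) < A := by exact_mod_cast hAn
    have hT : |∑ l ∈ Ioc (y : ℤ) (2 * y), th l - y| ≤ δ * y := by
      refine TCM_ths y δ (by linarith) ?_ hδ0 ?_
      · refine le_trans ?_ (hLδ.trans hLy)
        exact div_le_div_of_nonneg_right (by norm_num) hδ0.le
      · intro u hu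
        exact h5 y (by omega) 1 le_rfl (by simp) 0 u (by simpa using isCoprime_one_right) hu
    refine ⟨?_, hT⟩
    obtain ⟨m1, m2, m3⟩ := TCM_lmt y (by omega)
    refine TCM_scale y A r _ _ _ κ δ hAn (by omega) hκ0 hT (h3 y (by omega) A b1 (by omega)) ?_ ?_
    · refine (h4 y (by omega) A (by omega)).trans ?_
      have e1 : (y : ℝ) ^ (3 / 2 : ℝ) * (y : ℝ) ^ (1 / 6 : ℝ) = (y : ℝ) ^ (2 / 3 : ℝ) * y := by
        rw [← Real.rpow_add hy0]
        nth_rewrite 3 [← Real.rpow_one (y : ℝ)]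
        rw [← Real.rpow_add hy0]
        norm_num
      have e2 : (y : ℝ) ^ (2 / 3 : ℝ) ≤ A := by
        refine le_trans ?_ b1
        exact Real.rpow_le_rpow_of_exponent_le (by linarith) (by linarith)
      have e3 : 1 / δ ≤ (y : ℝ) ^ (1 / 6 : ℝ) := hx6.trans (Real.rpow_le_rpow hx0.le hxy' (by norm_num))
      have e4 : (y : ℝ) ^ (3 / 2 : ℝ) * (1 / δ) ≤ A * y := by
        calc (y : ℝ) ^ (3 / 2 : ℝ) * (1 / δ) ≤ (y : ℝ) ^ (3 / 2 : ℝ) * (y : ℝ) ^ (1 / 6 : ℝ) :=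
              mul_le_mul_of_nonneg_left e3 (by positivity)
          _ = (y : ℝ) ^ (2 / 3 : ℝ) * y := e1
          _ ≤ A * y := mul_le_mul_of_nonneg_right e2 hy0.le
      rw [mul_one_div, div_le_iff₀ hδ0] at e4
      linarith
    · rw [← m3]
      have e5 : |∑ l ∈ Ioc (y : ℤ) (2 * y), lmt y l * (Ls A l - Mn r (Up η x) (Up η x) (Dp η x) A l)| ≤ A * y / Real.log y ^ 1 := by
        obtain ⟨C, hC, hc1, hc2⟩ := hC
        rcases hC with rfl | rfl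
        · exact h1 y (by omega) r hc1 hc2 A b1 (by omega) _ _ _ b2 b3 b2 b3 b4 b5 (lmt y) m1 m2
        · exact h2 y (by omega) r hc1 hc2 A b1 (by omega) _ _ _ b2 b3 b2 b3 b4 b5 (lmt y) m1 m2
      refine e5.trans ?_
      rw [pow_one, div_le_iff₀ (by linarith)]
      have e6 : 3 ≤ δ * Real.log y := by
        have := hLδ.trans hLy
        rw [div_le_iff₀ hδ0] at this
        linarith
      have e7 : (0 : ℝ) ≤ A * y := by positivity
      nlinarith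
  -- the two scales
  have hlog4 : Real.log x ≤ Real.log (4 * x) := Real.log_le_log hx0 (by linarith)
  have hC' : Real.log x ^ C₀ ≤ Zr r := (pow_le_pow_left₀ (by linarith) hlog4 _).trans hr1
  obtain ⟨s1, t1⟩ := scale x le_rfl (by omega) (by
    by_cases hcase : (Zr r : ℝ) ≤ Real.log x ^ (2 * C₀)
    · exact ⟨C₀, Or.inl rfl, hC', hcase⟩
    · push Not at hcase
      refine ⟨C₀ + 1, Or.inr rfl, ?_, ?_⟩
      · exact (pow_le_pow_right₀ hL1 (by omega)).trans hcase.le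
      · refine hr2.trans ?_
        have h7 : Real.log (4 * x) ≤ 2 * Real.log x + 2 * Real.log x := by
          rw [Real.log_mul (by norm_num) hx0.ne']
          have h8 : Real.log 4 ≤ 3 := by
            have := Real.log_le_sub_one_of_pos (show (0 : ℝ) < 4 by norm_num)
            linarith
          linarith
        have h9 : Real.log (4 * x) ≤ 2 * Real.log x := by
          rw [Real.log_mul (by norm_num) hx0.ne', two_mul]
          have h10 : Real.log 4 ≤ Real.log x := by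
            refine Real.log_le_log (by norm_num) ?_
            have h11 : (x : ℝ) ^ (η / 8) ≤ (x : ℝ) ^ (1 : ℝ) := Real.rpow_le_rpow_of_exponent_le (by linarith) (by linarith)
            rw [Real.rpow_one] at h11
            linarith
          linarith
        calc Real.log (4 * x) ^ (2 * C₀) ≤ (2 * Real.log x) ^ (2 * C₀) := pow_le_pow_left₀ (by linarith) h9 _
          _ = 4 ^ C₀ * Real.log x ^ (2 * C₀) := by rw [mul_pow, pow_mul]; norm_num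
          _ ≤ Real.log x ^ 2 * Real.log x ^ (2 * C₀) := mul_le_mul_of_nonneg_right hC4 (by positivity)
          _ = Real.log x ^ (2 * (C₀ + 1)) := by rw [← pow_add]; congr 1; ring)
  obtain ⟨s2, t2⟩ := scale (4 * x) (by omega) le_rfl ⟨C₀, Or.inl rfl, by push_cast; exact hr1, by push_cast; exact hr2⟩
  have hTI : (x : ℝ) / 2 ≤ ∑ l ∈ Ioc (x : ℤ) (2 * x), th l := by
    have := (abs_le.1 t1).1
    nlinarith
  have hTJ : ((4 * x : ℕ) : ℝ) / 2 ≤ ∑ l ∈ Ioc ((4 * x : ℕ) : ℤ) (2 * ((4 * x : ℕ) : ℤ)), th l := by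
    have h7 := (abs_le.1 t2).1
    have h8 : (0 : ℝ) ≤ ((4 * x : ℕ) : ℝ) := Nat.cast_nonneg _
    nlinarith
  have hkey := TCM_core (2 * ((3 + κ) * δ)) (mc1 r (Up η x)) (mc2 r (Up η x) (Up η x) (Dp η x) - κ) (by positivity) (sL A) th TCM_th
    (Ioc (x : ℤ) (2 * x)) (Ioc ((4 * x : ℕ) : ℤ) (2 * ((4 * x : ℕ) : ℤ))) (sL A (2 * x)) (sL A (4 * x))
    (fun l hl => by rw [mem_Ioc] at hl; exact TCM_s1 hAn hA2 hl.1 hl.2)
    (fun l hl => by rw [mem_Ioc] at hl; exact TCM_s2 hAn hA2 (by push_cast at hl; exact hl.1))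
    (TCM_s12 hAn hA2) (by linarith) (by
      have : (0 : ℝ) < ((4 * x : ℕ) : ℝ) := by push_cast; linarith
      linarith)
    (by
      refine s1.trans ?_
      have h7 : (0 : ℝ) ≤ (3 + κ) * δ := by positivity
      nlinarith)
    (by
      refine s2.trans ?_
      have h7 : (0 : ℝ) ≤ (3 + κ) * δ := by positivity
      nlinarith)
  have h7 := hkey l (by rw [mem_Ioc]; exact ⟨hl1, hl2⟩)
  rw [TCM_Mn r _ _ _ A hAn l κ, abs_mul, abs_of_nonneg (Nat.cast_nonneg A), mul_comm ε]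
  refine mul_le_mul_of_nonneg_left ?_ (Nat.cast_nonneg A)
  refine h7.trans ?_
  linarith

end Pool.Agent.EU
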