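import Pool.Agent.helper52.EU.SpecY

set_option autoImplicit false

open Finset

namespace Pool.Agent.EU

open Pool.Agent.FI Pool.Agent.HK Pool.Agent.BP Pool.Agent.YB
open Pool.Agent.CH (nit)

open scoped Classical in
private noncomputable def WSP_W (S : Finset (ℤ × ℤ)) (f : ℤ × ℤ → ℂ) (h y : ℝ) : ℂ :=
  ∑ z ∈ S with (y < yy z ∧ yy z ≤ y + h), f z

open scoped Classical in
private theorem WSP_step (F : ℂ) (y t d : ℝ) (hd : 0 < d) (J : ℕ) :
    (if y < t ∧ t ≤ y + J * d then F else 0) =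
      ∑ j ∈ range J, (if y + j * d < t ∧ t ≤ y + j * d + d then F else 0) := by
  induction J with
  | zero =>
    rw [Finset.sum_range_zero, if_neg]
    rintro ⟨h1, h2⟩
    push_cast at h2
    linarith
  | succ J ih =>
    rw [Finset.sum_range_succ, ← ih]
    have hJ : (0 : ℝ) ≤ J * d := by positivity
    push_cast
    by_cases h1 : y < t ∧ t ≤ y + J * d
    · rw [if_pos h1, if_pos ⟨h1.1, by linarith [h1.2]⟩, if_neg (fun h => by linarith [h.1, h1.2])]
      ring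
    · rw [if_neg h1, zero_add]
      by_cases h2 : y + J * d < t ∧ t ≤ y + J * d + d
      · rw [if_pos h2, if_pos ⟨by linarith [h2.1], by linarith [h2.2]⟩]
      · rw [if_neg h2, if_neg]
        rintro ⟨h3, h4⟩
        apply h2
        constructor
        · by_contra h5
          push Not at h5
          exact h1 ⟨h3, h5⟩
        · linarith

private theorem WSP_sum (S : Finset (ℤ × ℤ)) (f : ℤ × ℤ → ℂ) (h : ℝ) (J : ℕ) (hh : 0 < h) (hJ : 1 ≤ J) (y : ℝ) :
    WSP_W S f h y = ∑ j ∈ range J, WSP_W S f (h / J) (y + j * (h / J)) := by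
  classical
  have hJ0 : (0 : ℝ) < J := by exact_mod_cast hJ
  unfold WSP_W
  rw [Finset.sum_filter]
  simp_rw [Finset.sum_filter]
  rw [Finset.sum_comm]
  refine Finset.sum_congr rfl (fun z _ => ?_)
  rw [← WSP_step (f z) y (yy z) (h / J) (by positivity) J]
  have e : (J : ℝ) * (h / J) = h := by field_simp
  rw [e]

private theorem WSP_int (S : Finset (ℤ × ℤ)) (f : ℤ × ℤ → ℂ) (h : ℝ) :
    MeasureTheory.Integrable (WSP_W S f h) := by
  classical
  have e : WSP_W S f h = fun y => ∑ z ∈ S, (Set.Ico (yy z - h) (yy z)).indicator (fun _ => f z) y := by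
    funext y
    unfold WSP_W
    rw [Finset.sum_filter]
    refine Finset.sum_congr rfl (fun z _ => ?_)
    rw [Set.indicator_apply]
    by_cases hy : y < yy z ∧ yy z ≤ y + h
    · rw [if_pos hy, if_pos ⟨by linarith [hy.2], hy.1⟩]
    · rw [if_neg hy, if_neg]
      rintro ⟨h1, h2⟩
      exact hy ⟨h2, by linarith⟩
  rw [e]
  apply MeasureTheory.integrable_finsetSum
  intro z _
  rw [MeasureTheory.integrable_indicator_iff measurableSet_Ico]
  have hvol : MeasureTheory.volume (Set.Ico (yy z - h) (yy z)) ≠ ⊤ := by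
    rw [Real.volume_Ico]
    exact ENNReal.ofReal_ne_top
  exact (MeasureTheory.integrableOn_const_iff (by simp)).2 (Or.inr (lt_top_iff_ne_top.2 hvol))

private theorem WSP_bd (S : Finset (ℤ × ℤ)) (f : ℤ × ℤ → ℂ) (h y : ℝ) :
    ‖WSP_W S f h y‖ ≤ ∑ z ∈ S, ‖f z‖ := by
  classical
  unfold WSP_W
  calc ‖∑ z ∈ S with (y < yy z ∧ yy z ≤ y + h), f z‖ ≤ ∑ z ∈ S with (y < yy z ∧ yy z ≤ y + h), ‖f z‖ :=
        norm_sum_le _ _
    _ ≤ ∑ z ∈ S, ‖f z‖ := Finset.sum_le_sum_of_subset_of_nonneg (Finset.filter_subset _ _)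
        (fun z _ _ => norm_nonneg _)

private theorem WSP_int2 (S : Finset (ℤ × ℤ)) (f : ℤ × ℤ → ℂ) (h : ℝ) :
    MeasureTheory.Integrable (fun y => ‖WSP_W S f h y‖ ^ 2) := by
  have h1 := WSP_int S f h
  refine MeasureTheory.Integrable.mono' (h1.norm.const_mul (∑ z ∈ S, ‖f z‖)) (h1.aestronglyMeasurable.norm.pow 2) ?_
  refine Filter.Eventually.of_forall (fun y => ?_)
  rw [Real.norm_of_nonneg (by positivity), sq]
  exact mul_le_mul_of_nonneg_right (WSP_bd S f h y) (norm_nonneg _)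

theorem WSP : WSP_stmt := by
  classical
  intro S f h J hh hJ
  have hJ0 : (0 : ℝ) < J := by exact_mod_cast hJ
  have key : ∀ y : ℝ, ‖WSP_W S f h y‖ ^ 2 ≤ J * ∑ j ∈ range J, ‖WSP_W S f (h / J) (y + j * (h / J))‖ ^ 2 := by
    intro y
    rw [WSP_sum S f h J hh hJ y]
    calc ‖∑ j ∈ range J, WSP_W S f (h / J) (y + j * (h / J))‖ ^ 2
        ≤ (∑ j ∈ range J, ‖WSP_W S f (h / J) (y + j * (h / J))‖) ^ 2 := by
          exact pow_le_pow_left₀ (norm_nonneg _) (norm_sum_le _ _) 2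
      _ ≤ ((range J).card : ℝ) * ∑ j ∈ range J, ‖WSP_W S f (h / J) (y + j * (h / J))‖ ^ 2 :=
          sq_sum_le_card_mul_sum_sq
      _ = J * ∑ j ∈ range J, ‖WSP_W S f (h / J) (y + j * (h / J))‖ ^ 2 := by rw [Finset.card_range]
  have hint : ∀ j ∈ range J, MeasureTheory.Integrable (fun y : ℝ => ‖WSP_W S f (h / J) (y + j * (h / J))‖ ^ 2) := by
    intro j _
    exact (WSP_int2 S f (h / J)).comp_add_right (j * (h / J))
  show ∫ y : ℝ, ‖WSP_W S f h y‖ ^ 2 ≤ (J : ℝ) ^ 2 * ∫ y : ℝ, ‖WSP_W S f (h / J) y‖ ^ 2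
  calc ∫ y : ℝ, ‖WSP_W S f h y‖ ^ 2
      ≤ ∫ y : ℝ, J * ∑ j ∈ range J, ‖WSP_W S f (h / J) (y + j * (h / J))‖ ^ 2 := by
        apply MeasureTheory.integral_mono (WSP_int2 S f h) _ key
        exact (MeasureTheory.integrable_finsetSum _ hint).const_mul _
    _ = J * ∑ j ∈ range J, ∫ y : ℝ, ‖WSP_W S f (h / J) (y + j * (h / J))‖ ^ 2 := by
        rw [MeasureTheory.integral_const_mul, MeasureTheory.integral_finsetSum _ hint]
    _ = J * ∑ _j ∈ range J, ∫ y : ℝ, ‖WSP_W S f (h / J) y‖ ^ 2 := by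
        congr 1
        refine Finset.sum_congr rfl (fun j _ => ?_)
        exact MeasureTheory.integral_add_right_eq_self (fun y : ℝ => ‖WSP_W S f (h / J) y‖ ^ 2) _
    _ = (J : ℝ) ^ 2 * ∫ y : ℝ, ‖WSP_W S f (h / J) y‖ ^ 2 := by
        rw [Finset.sum_const, Finset.card_range, nsmul_eq_mul]
        ring

end Pool.Agent.EU
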