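import Pool.Agent.helper6.EU.SpecZ

/-! # ZAB: Abel summation for the weight `(nn z)^(-1/2)` -/

set_option autoImplicit false

open Finset

namespace Pool.Agent.EU

open Pool.Agent.FI Pool.Agent.HK Pool.Agent.BP Pool.Agent.YB
open Pool.Agent.CH (nit rgh)

private theorem ZAB_tel (w : ℕ → ℝ) (a b : ℕ) (hab : a ≤ b) : ∑ j ∈ Ico a b, (w j - w (j + 1)) = w a - w b := by
  induction b, hab using Nat.le_induction with
  | base => simp
  | succ n hn ih => rw [Finset.sum_Ico_succ_top hn, ih]; ring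

open scoped Classical in
theorem ZAB : ZAB_stmt := by
  intro N F g W hN hW
  set w : ℕ → ℝ := fun k => 1 / √(k : ℝ) with hw
  set c : ℕ → ℝ := fun j => if j = 2 * N then w (2 * N) else w j - w (j + 1) with hc
  set G : ℤ → ℕ → ℂ := fun m j => ∑ z ∈ ZD N with nn z ≤ j, g m z with hG
  have hw0 : ∀ k, 0 ≤ w k := fun k => by rw [hw]; positivity
  have hwd : ∀ j, N ≤ j → w (j + 1) ≤ w j := by
    intro j hj
    have hj0 : (0 : ℝ) < j := by exact_mod_cast (by omega : 0 < j)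
    rw [hw]
    simp only
    apply one_div_le_one_div_of_le (Real.sqrt_pos.2 hj0)
    apply Real.sqrt_le_sqrt
    push_cast; linarith
  have hc0 : ∀ j ∈ Ico N (2 * N + 1), 0 ≤ c j := by
    intro j hj
    rw [hc]
    simp only
    split_ifs with h
    · exact hw0 _
    · have := hwd j (Finset.mem_Ico.1 hj).1
      linarith
  have hcI : ∀ a b : ℕ, a ≤ 2 * N → ∑ j ∈ Ico a (2 * N + 1), c j = w a := by
    intro a _ ha
    rw [Finset.sum_Ico_succ_top ha]
    have h1 : ∑ j ∈ Ico a (2 * N), c j = ∑ j ∈ Ico a (2 * N), (w j - w (j + 1)) := by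
      refine Finset.sum_congr rfl fun j hj => ?_
      rw [hc]
      simp only
      rw [if_neg (by have := (Finset.mem_Ico.1 hj).2; omega)]
    rw [h1, ZAB_tel w a (2 * N) ha, hc]
    simp
  have hmem : ∀ z ∈ ZD N, N < nn z ∧ nn z ≤ 2 * N := by
    intro z hz
    unfold ZD at hz
    have h1 := Finset.mem_filter.1 hz
    have h2 := h1.1
    unfold FF at h2
    exact ⟨h1.2.1, (Finset.mem_filter.1 h2).2.2⟩
  -- Abel summation
  have hab : ∀ m, ∑ z ∈ ZD N, ((1 / √(nn z : ℝ) : ℝ) : ℂ) * g m z = ∑ j ∈ Ico N (2 * N + 1), (c j : ℂ) * G m j := by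
    intro m
    have h1 : ∀ z ∈ ZD N, ((1 / √(nn z : ℝ) : ℝ) : ℂ) * g m z = ∑ j ∈ Ico N (2 * N + 1), (c j : ℂ) * (if nn z ≤ j then g m z else 0) := by
      intro z hz
      obtain ⟨z1, z2⟩ := hmem z hz
      have h2 : (1 / √(nn z : ℝ) : ℝ) = ∑ j ∈ Ico (nn z) (2 * N + 1), c j := by
        rw [hcI (nn z) 0 z2]
      have h3 : ∑ j ∈ Ico (nn z) (2 * N + 1), c j = ∑ j ∈ Ico N (2 * N + 1), if nn z ≤ j then c j else 0 := by
        rw [← Finset.sum_filter]
        congr 1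
        ext j
        simp only [Finset.mem_Ico, Finset.mem_filter]
        constructor
        · rintro ⟨a, b⟩; exact ⟨⟨by omega, b⟩, a⟩
        · rintro ⟨⟨_, b⟩, a⟩; exact ⟨a, b⟩
      rw [h2, h3]
      push_cast
      rw [Finset.sum_mul]
      refine Finset.sum_congr rfl fun j _ => ?_
      split_ifs <;> simp
    rw [Finset.sum_congr rfl h1, Finset.sum_comm]
    refine Finset.sum_congr rfl fun j _ => ?_
    rw [hG]
    simp only
    rw [Finset.sum_filter, Finset.mul_sum]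
  have hbound : ∀ m, ‖∑ z ∈ ZD N, ((1 / √(nn z : ℝ) : ℝ) : ℂ) * g m z‖ ^ 2 ≤ w N * ∑ j ∈ Ico N (2 * N + 1), c j * ‖G m j‖ ^ 2 := by
    intro m
    rw [hab m]
    have h1 : ‖∑ j ∈ Ico N (2 * N + 1), (c j : ℂ) * G m j‖ ≤ ∑ j ∈ Ico N (2 * N + 1), c j * ‖G m j‖ := by
      refine (norm_sum_le _ _).trans (Finset.sum_le_sum fun j hj => ?_)
      rw [norm_mul, Complex.norm_real, Real.norm_eq_abs, abs_of_nonneg (hc0 j hj)]
    have h2 : (∑ j ∈ Ico N (2 * N + 1), c j * ‖G m j‖) ^ 2 ≤ (∑ j ∈ Ico N (2 * N + 1), c j) * ∑ j ∈ Ico N (2 * N + 1), c j * ‖G m j‖ ^ 2 := by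
      apply Finset.sum_sq_le_sum_mul_sum_of_sq_le_mul
      · exact hc0
      · intro j hj; have := hc0 j hj; positivity
      · intro j _; apply le_of_eq; ring
    calc ‖∑ j ∈ Ico N (2 * N + 1), (c j : ℂ) * G m j‖ ^ 2 ≤ (∑ j ∈ Ico N (2 * N + 1), c j * ‖G m j‖) ^ 2 := by gcongr
      _ ≤ (∑ j ∈ Ico N (2 * N + 1), c j) * ∑ j ∈ Ico N (2 * N + 1), c j * ‖G m j‖ ^ 2 := h2
      _ = w N * ∑ j ∈ Ico N (2 * N + 1), c j * ‖G m j‖ ^ 2 := by rw [hcI N 0 (by omega)]
  have hN0 : (0 : ℝ) < N := by exact_mod_cast (by omega : 0 < N)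
  calc ∑ m ∈ F, ‖∑ z ∈ ZD N, ((1 / √(nn z : ℝ) : ℝ) : ℂ) * g m z‖ ^ 2
      ≤ ∑ m ∈ F, w N * ∑ j ∈ Ico N (2 * N + 1), c j * ‖G m j‖ ^ 2 := Finset.sum_le_sum fun m _ => hbound m
    _ = w N * ∑ j ∈ Ico N (2 * N + 1), c j * ∑ m ∈ F, ‖G m j‖ ^ 2 := by
        rw [← Finset.mul_sum, Finset.sum_comm]
        congr 1
        refine Finset.sum_congr rfl fun j _ => ?_
        rw [Finset.mul_sum]
    _ ≤ w N * ∑ j ∈ Ico N (2 * N + 1), c j * W := by
        refine mul_le_mul_of_nonneg_left (Finset.sum_le_sum fun j hj => ?_) (hw0 N)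
        refine mul_le_mul_of_nonneg_left ?_ (hc0 j hj)
        exact hW j (Finset.mem_Ico.1 hj).1 (by have := (Finset.mem_Ico.1 hj).2; omega)
    _ = W / N := by
        rw [← Finset.sum_mul, hcI N 0 (by omega)]
        rw [hw]
        simp only
        rw [← mul_assoc, one_div_mul_one_div_rev, Real.mul_self_sqrt hN0.le]
        ring

end Pool.Agent.EU
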