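import Pool.Agent.helper6.EU.SpecZ

/-! # ZFR: the frequency sums for one character, with the weight `(nn z)^(-1/2 + it)` -/

set_option autoImplicit false

open Finset

namespace Pool.Agent.EU

open Pool.Agent.FI Pool.Agent.HK Pool.Agent.BP Pool.Agent.YB
open Pool.Agent.CH (nit rgh)

private theorem ZFR_ang (w : ℂ) (hw : ‖w‖ = 1) : 0 ≤ ang w ∧ ang w < 2 * Real.pi ∧ w * Complex.exp ((ang w : ℂ) * Complex.I) = 1 := by
  have hpi := Real.pi_pos
  have h1 : w = Complex.exp ((w.arg : ℂ) * Complex.I) := by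
    have := Complex.norm_mul_exp_arg_mul_I w
    rw [hw] at this
    simpa using this.symm
  have h2 := Complex.neg_pi_lt_arg w
  have h3 := Complex.arg_le_pi w
  unfold ang
  by_cases h : 0 < w.arg
  · rw [if_pos h]
    refine ⟨by linarith, by linarith, ?_⟩
    nth_rw 1 [h1]
    rw [← Complex.exp_add]
    have : (w.arg : ℂ) * Complex.I + ((2 * Real.pi - w.arg : ℝ) : ℂ) * Complex.I = 2 * Real.pi * Complex.I := by
      push_cast; ring
    rw [this, Complex.exp_two_pi_mul_I]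
  · rw [if_neg h]
    refine ⟨by linarith, by linarith, ?_⟩
    nth_rw 1 [h1]
    rw [← Complex.exp_add]
    have : (w.arg : ℂ) * Complex.I + ((-w.arg : ℝ) : ℂ) * Complex.I = 0 := by
      push_cast; ring
    rw [this, Complex.exp_zero]

private theorem ZFR_inv (q : ℕ) (ξ : ℤ × ℤ → ℂ) (hξ : IsX q ξ) :
    ∃ (i₁ : ℕ) (α : ℝ), i₁ ≤ 1 ∧ 0 ≤ α ∧ α < 2 * Real.pi ∧ ∀ m : ℤ, XInv ξ i₁ (fr α m) := by
  obtain ⟨_, _, hmul, _, _, hone⟩ := hξ
  have n31 : ‖ξ (3, 1)‖ = 1 := by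
    apply hone
    have : nn (3, 1) = 1 := by decide
    rw [this]; exact Nat.coprime_one_left q
  have n10 : ‖ξ (1, 0)‖ = 1 := by
    apply hone
    have : nn (1, 0) = 1 := by decide
    rw [this]; exact Nat.coprime_one_left q
  have e10 : ξ (1, 0) = 1 := by
    have h1 := hmul (1, 0) (1, 0)
    have h2 : mul8 (1, 0) (1, 0) = (1, 0) := by decide
    rw [h2] at h1
    have h3 : ξ (1, 0) ≠ 0 := by
      intro h; rw [h, norm_zero] at n10; exact zero_ne_one n10
    have h4 : ξ (1, 0) * (ξ (1, 0) - 1) = 0 := by linear_combination -h1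
    rcases mul_eq_zero.1 h4 with h5 | h5
    · exact absurd h5 h3
    · linear_combination h5
  have em : ξ (-1, 0) = 1 ∨ ξ (-1, 0) = -1 := by
    have h1 := hmul (-1, 0) (-1, 0)
    have h2 : mul8 (-1, 0) (-1, 0) = (1, 0) := by decide
    rw [h2, e10] at h1
    have h4 : (ξ (-1, 0) - 1) * (ξ (-1, 0) + 1) = 0 := by linear_combination -h1
    rcases mul_eq_zero.1 h4 with h5 | h5
    · left; linear_combination h5
    · right; linear_combination h5
  obtain ⟨a0, a1, a2⟩ := ZFR_ang (ξ (3, 1)) n31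
  have hlep : (0 : ℝ) < lep := by
    unfold lep
    apply Real.log_pos
    have := Real.sqrt_nonneg (8 : ℝ)
    linarith
  have hexp : ∀ m : ℤ, ξ (3, 1) * Complex.exp ((fr (ang (ξ (3, 1))) m : ℂ) * (2 * (Real.log (3 + √8) : ℝ)) * Complex.I) = 1 := by
    intro m
    have h1 : (fr (ang (ξ (3, 1))) m : ℂ) * (2 * (Real.log (3 + √8) : ℝ)) * Complex.I = (ang (ξ (3, 1)) : ℂ) * Complex.I + (m : ℂ) * (2 * Real.pi * Complex.I) := by
      have h2 : fr (ang (ξ (3, 1))) m * (2 * Real.log (3 + √8)) = ang (ξ (3, 1)) + 2 * Real.pi * m := by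
        have h3 : Real.log (3 + √8) = lep := rfl
        rw [h3]; unfold fr
        field_simp
      have h4 := congrArg (fun r : ℝ => (r : ℂ) * Complex.I) h2
      push_cast at h4 ⊢
      linear_combination h4
    rw [h1, Complex.exp_add, Complex.exp_int_mul_two_pi_mul_I, mul_one]
    exact a2
  rcases em with h | h
  · refine ⟨0, ang (ξ (3, 1)), by norm_num, a0, a1, fun m => ⟨hexp m, ?_⟩⟩
    rw [h]; norm_num
  · refine ⟨1, ang (ξ (3, 1)), le_refl _, a0, a1, fun m => ⟨hexp m, ?_⟩⟩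
    rw [h]; norm_num

private theorem ZFR_s1 (z : ℤ × ℤ) (hz : Fd z) : s1 z = 1 := by
  have h8 : (2 : ℝ) < √8 := by
    rw [Real.lt_sqrt (by norm_num)]; norm_num
  have h9 : √(8 : ℝ) < 3 := by
    rw [Real.sqrt_lt' (by norm_num)]; norm_num
  have : 0 < (z.1 : ℝ) + z.2 * √8 := by
    obtain ⟨_, h | h⟩ := hz
    · have h1 : (4 : ℝ) * |(z.2 : ℝ)| < z.1 := by exact_mod_cast h
      have h2 := neg_abs_le (z.2 : ℝ)
      have h3 := abs_nonneg (z.2 : ℝ)
      nlinarith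
    · have h1 : |(z.1 : ℝ)| < 2 * z.2 := by exact_mod_cast h
      have h2 := neg_abs_le (z.1 : ℝ)
      have h3 := abs_nonneg (z.1 : ℝ)
      nlinarith
  unfold s1
  rw [if_pos this]

private theorem ZFR_cpow (n : ℕ) (t : ℝ) (hn : 0 < n) :
    (n : ℂ) ^ (-(1 / 2 : ℂ) + t * Complex.I) = ((1 / √(n : ℝ) : ℝ) : ℂ) * nit t n := by
  have hn0 : (0 : ℝ) < n := by exact_mod_cast hn
  have h1 : (1 / √(n : ℝ) : ℝ) = Real.exp (-(Real.log n / 2)) := by
    rw [Real.exp_neg, one_div, Real.sqrt_eq_rpow, Real.rpow_def_of_pos hn0]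
    congr 2
    ring
  rw [h1, Complex.cpow_def_of_ne_zero (by exact_mod_cast hn.ne')]
  unfold Pool.Agent.CH.nit
  rw [← Complex.natCast_log, Complex.ofReal_exp, ← Complex.exp_add]
  congr 1
  push_cast
  ring

open scoped Classical in
private theorem ZFR_mem (N : ℕ) (z : ℤ × ℤ) (hz : z ∈ ZD N) : Fd z ∧ N < nn z := by
  unfold ZD at hz
  have h1 := Finset.mem_filter.1 hz
  have h2 := h1.1
  unfold FF at h2
  exact ⟨(Finset.mem_filter.1 h2).2.1, h1.2.1⟩

theorem ZFR (hZAB : ZAB_stmt) : ZFR_stmt := by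
  intro x N M₁ B A T β hN hKF q ξ hξ hq i hi t ht
  obtain ⟨i₁, α, hi₁, hα0, hα1, hX⟩ := ZFR_inv q ξ hξ
  refine ⟨α, hα0, hα1.le, ?_⟩
  have hkf := hKF q ξ hξ hq i₁ i hi₁ hi α t hα0 hα1 hX ht
  have hab := hZAB N (Icc (-(M₁ : ℤ)) M₁) (fun m z => (β (nn z) : ℂ) * HX ξ i₁ i (fr α m) z * nit t (nn z)) _ hN hkf
  have hN0 : (0 : ℝ) < N := by exact_mod_cast (by omega : 0 < N)
  have e1 : (N : ℝ) ^ 2 / Real.log x ^ A / N = N / Real.log x ^ A := by
    rw [div_div, mul_comm, ← div_div, sq, mul_div_assoc, div_self hN0.ne', mul_one]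
  rw [e1] at hab
  refine le_trans (le_of_eq ?_) hab
  refine Finset.sum_congr rfl fun m _ => ?_
  congr 2
  refine Finset.sum_congr rfl fun z hz => ?_
  obtain ⟨hFd, hz2⟩ := ZFR_mem N z hz
  rw [ZFR_cpow (nn z) t (by omega)]
  unfold HX
  rw [ZFR_s1 z hFd, one_pow, mul_one]
  have e2 : Complex.exp (((fr α m * yy z : ℝ) : ℂ) * Complex.I) = Complex.exp ((fr α m : ℂ) * yy z * Complex.I) := by
    push_cast; rfl
  rw [e2]
  ring

end Pool.Agent.EU
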