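import Pool.Agent.helper95.FJ.All
import Pool.Agent.helper63.AM.KL
import Pool.Agent.helper1.EU.TEM
import Pool.Agent.helper10.EU.PTD
import Pool.Agent.helper14.EU.TNQ
import Pool.Agent.helper14.EU.WBC
import Pool.Agent.helper14.EU.WLT
import Pool.Agent.helper14.YB.SMX
import Pool.Agent.helper16.YB.CTX
import Pool.Agent.helper16.YB.MWI
import Pool.Agent.helper2.EU.ERR
import Pool.Agent.helper20.EU.SEP
import Pool.Agent.helper21.EU.WBX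
import Pool.Agent.helper22.EU.KCB
import Pool.Agent.helper24.EU.TRT
import Pool.Agent.helper25.EU.CHE
import Pool.Agent.helper26.EU.TSA
import Pool.Agent.helper27.EU.CNI
import Pool.Agent.helper27.EU.SQT
import Pool.Agent.helper27.YB.RMX
import Pool.Agent.helper27.YB.SGN
import Pool.Agent.helper28.EU.SMB
import Pool.Agent.helper28.EU.T2U
import Pool.Agent.helper28.EU.TFI
import Pool.Agent.helper28.EU.TYU
import Pool.Agent.helper28.EU.WFU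
import Pool.Agent.helper28.YB.SMF
import Pool.Agent.helper28.YB.SUM
import Pool.Agent.helper3.EU.CSP
import Pool.Agent.helper33.EU.MV2
import Pool.Agent.helper33.EU.PR2
import Pool.Agent.helper36.YB.MDI
import Pool.Agent.helper36.YB.MOX
import Pool.Agent.helper36.YB.SUP
import Pool.Agent.helper38.EU.RNR
import Pool.Agent.helper38.EU.SMW
import Pool.Agent.helper39.EU.GTR
import Pool.Agent.helper39.EU.PR3
import Pool.Agent.helper39.EU.PTI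
import Pool.Agent.helper41.EU.GPM
import Pool.Agent.helper43.EU.PLS
import Pool.Agent.helper43.EU.PRM
import Pool.Agent.helper43.EU.WNI
import Pool.Agent.helper44.EU.NCH
import Pool.Agent.helper44.YB.MUW
import Pool.Agent.helper49.EU.KRN
import Pool.Agent.helper49.EU.TAL
import Pool.Agent.helper49.YB.TFX
import Pool.Agent.helper50.EU.YBZ
import Pool.Agent.helper50.YB.UHX
import Pool.Agent.helper51.EU.WKL
import Pool.Agent.helper51.YB.GHX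
import Pool.Agent.helper52.EU.KBM
import Pool.Agent.helper52.EU.SMT
import Pool.Agent.helper54.EU.LRS
import Pool.Agent.helper54.EU.SME
import Pool.Agent.helper54.EU.WRI
import Pool.Agent.helper55.YB.MUT
import Pool.Agent.helper55.YB.MUX
import Pool.Agent.helper55.YB.MZX
import Pool.Agent.helper55.YB.UXH
import Pool.Agent.helper58.EU.CNE
import Pool.Agent.helper58.EU.COQ
import Pool.Agent.helper58.EU.INT
import Pool.Agent.helper58.EU.OFF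
import Pool.Agent.helper58.EU.OMP
import Pool.Agent.helper58.EU.QQL
import Pool.Agent.helper58.EU.TEN
import Pool.Agent.helper58.EU.TLM
import Pool.Agent.helper58.EU.TPD
import Pool.Agent.helper59.EU.KRB
import Pool.Agent.helper6.EU.KRG
import Pool.Agent.helper6.EU.PWF
import Pool.Agent.helper6.EU.TCM
import Pool.Agent.helper6.EU.WSP
import Pool.Agent.helper6.EU.ZAB
import Pool.Agent.helper6.EU.ZFR
import Pool.Agent.helper6.EU.ZPW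
import Pool.Agent.helper60.EU.COR
import Pool.Agent.helper60.EU.PMX
import Pool.Agent.helper60.YB.CHX
import Pool.Agent.helper60.YB.RPX
import Pool.Agent.helper66.EU.TVR
import Pool.Agent.helper66.EU.VAR
import Pool.Agent.helper68.EU.LSN
import Pool.Agent.helper69.EU.TFE
import Pool.Agent.helper69.EU.WST
import Pool.Agent.helper71.EU.WPX
import Pool.Agent.helper72.YB.MDD
import Pool.Agent.helper75.EU.WAC
import Pool.Agent.helper75.YB.RSX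
import Pool.Agent.helper76.EU.MVQ
import Pool.Agent.helper77.YB.FNC
import Pool.Agent.helper77.YB.GRX
import Pool.Agent.helper77.YB.HLB
import Pool.Agent.helper77.YB.MLX
import Pool.Agent.helper77.YB.RIX
import Pool.Agent.helper77.YB.VGX
import Pool.Agent.helper78.YB.TRX
import Pool.Agent.helper79.EU.WRZ
import Pool.Agent.helper79.YB.PRX
import Pool.Agent.helper8.EU.OUT
import Pool.Agent.helper8.YB.RLX
import Pool.Agent.helper81.EU.TIB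
import Pool.Agent.helper87.YB.GPX
import Pool.Agent.helper89.EU.ZCL
import Pool.Agent.helper89.YB.MBX
import Pool.Agent.helper9.EU.DVS
import Pool.Agent.helper9.EU.FRQ
import Pool.Agent.helper90.EU.LIP
import Pool.Agent.helper90.EU.WBE
import Pool.Agent.helper90.EU.WND
import Pool.Agent.helper94.EU.GEO
import Pool.Agent.helper94.EU.HBE
import Pool.Agent.helper94.EU.KCC
import Pool.Agent.helper94.EU.RGV
import Pool.Agent.helper94.EU.RSE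
import Pool.Agent.helper94.EU.ZON
import Pool.Agent.helper96.EU.MOD
import Pool.Agent.helper98.EU.SMC

/-!
# Project eu (MP_ad8ced_nt: almost all primes `p`): assembly of all rows

Every theorem below is closed (no hypothesis).
-/

set_option autoImplicit false

namespace Pool.Agent.EUAsm

theorem aEU_TRT : Pool.Agent.EU.TRT_stmt :=
  Pool.Agent.EU.TRT Pool.Agent.FJAsm.aFJ_ROO

theorem aEU_TSA : Pool.Agent.EU.TSA_stmt :=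
  Pool.Agent.EU.TSA Pool.Agent.FJAsm.aFJ_TIA Pool.Agent.FJAsm.aFI_FL2 aEU_TRT

theorem aEU_TIB : Pool.Agent.EU.TIB_stmt :=
  Pool.Agent.EU.TIB aEU_TSA Pool.Agent.FJAsm.aFJ_ROO

theorem aEU_TVR : Pool.Agent.EU.TVR_stmt :=
  Pool.Agent.EU.TVR Pool.Agent.FJAsm.aFI_VGI

theorem aYB_MLX : Pool.Agent.YB.MLX_stmt :=
  Pool.Agent.YB.MLX Pool.Agent.FJAsm.aFI_FDE Pool.Agent.FJAsm.aFI_FDU Pool.Agent.FJAsm.aFI_SIZ

theorem aYB_RSX : Pool.Agent.YB.RSX_stmt :=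
  Pool.Agent.YB.RSX aYB_MLX Pool.Agent.FJAsm.aFI_SIZ

theorem aYB_RIX : Pool.Agent.YB.RIX_stmt :=
  Pool.Agent.YB.RIX aYB_MLX Pool.Agent.FJAsm.aFI_SIZ

theorem aYB_TRX : Pool.Agent.YB.TRX_stmt :=
  Pool.Agent.YB.TRX aYB_RSX aYB_RIX Pool.Agent.FJAsm.aHK_CVR Pool.Agent.FJAsm.aHK_CME Pool.Agent.FJAsm.aFI_THU

theorem aYB_GPX : Pool.Agent.YB.GPX_stmt :=
  Pool.Agent.YB.GPX aYB_RSX aYB_RIX Pool.Agent.FJAsm.aFI_THU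

theorem aYB_MUX : Pool.Agent.YB.MUX_stmt :=
  Pool.Agent.YB.MUX aYB_GPX Pool.Agent.FJAsm.aBP_GFM Pool.Agent.FJAsm.aFI_SIZ

theorem aEU_GHX : Pool.Agent.EU.GHX_stmt :=
  Pool.Agent.EU.GHX aYB_TRX aYB_MUX

theorem aEU_HBE : Pool.Agent.EU.HBE_stmt :=
  Pool.Agent.EU.HBE aEU_GHX Pool.Agent.FJAsm.aFI_SIZ

theorem aEU_PR2 : Pool.Agent.EU.PR2_stmt :=
  Pool.Agent.EU.PR2 Pool.Agent.FJAsm.aFI_FDE Pool.Agent.FJAsm.aFI_FDU Pool.Agent.FJAsm.aFI_CN2 Pool.Agent.FJAsm.aFI_SIZ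

theorem aEU_PR3 : Pool.Agent.EU.PR3_stmt :=
  Pool.Agent.EU.PR3 aEU_PR2

theorem aEU_FRQ : Pool.Agent.EU.FRQ_stmt :=
  Pool.Agent.EU.FRQ

theorem aEU_MV2 : Pool.Agent.EU.MV2_stmt :=
  Pool.Agent.EU.MV2 aEU_FRQ Pool.Agent.FJAsm.aBP_SCW Pool.Agent.FJAsm.aFI_YYB

theorem aEU_TFE : Pool.Agent.EU.TFE_stmt :=
  Pool.Agent.EU.TFE Pool.Agent.FJAsm.aFI_SIZ Pool.Agent.FJAsm.aFI_CN2 Pool.Agent.FJAsm.aSK_TAM

theorem aEU_MVQ : Pool.Agent.EU.MVQ_stmt :=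
  Pool.Agent.EU.MVQ aEU_MV2 aEU_TFE

theorem aEU_CSP : Pool.Agent.EU.CSP_stmt :=
  Pool.Agent.EU.CSP aEU_PR3 aEU_MVQ Pool.Agent.FJAsm.aSK_TAM

theorem aYB_TFX : Pool.Agent.YB.TFX_stmt :=
  Pool.Agent.YB.TFX

theorem aYB_RLX : Pool.Agent.YB.RLX_stmt :=
  Pool.Agent.YB.RLX aYB_TFX Pool.Agent.FJAsm.aBP_RDB Pool.Agent.FJAsm.aBP_FZB

theorem aYB_RMX : Pool.Agent.YB.RMX_stmt :=
  Pool.Agent.YB.RMX Pool.Agent.FJAsm.aBP_RDB aYB_RLX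

theorem aYB_MBX : Pool.Agent.YB.MBX_stmt :=
  Pool.Agent.YB.MBX aYB_RMX Pool.Agent.FJAsm.aBP_HSF

theorem aYB_VGX : Pool.Agent.YB.VGX_stmt :=
  Pool.Agent.YB.VGX aYB_MBX Pool.Agent.FJAsm.aBP_FSB

theorem aYB_CHX : Pool.Agent.YB.CHX_stmt :=
  Pool.Agent.YB.CHX Pool.Agent.FJAsm.aBP_RWB Pool.Agent.FJAsm.aBP_SCW

theorem aYB_SMX : Pool.Agent.YB.SMX_stmt :=
  Pool.Agent.YB.SMX Pool.Agent.FJAsm.aHK_VAR Pool.Agent.FJAsm.aBP_VTT Pool.Agent.FJAsm.aFI_SIZ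

theorem aYB_MZX : Pool.Agent.YB.MZX_stmt :=
  Pool.Agent.YB.MZX

theorem aYB_CTX : Pool.Agent.YB.CTX_stmt :=
  Pool.Agent.YB.CTX aYB_CHX aYB_SMX aYB_MZX Pool.Agent.FJAsm.aBP_SMB

theorem aYB_UXH : Pool.Agent.YB.UXH_stmt :=
  Pool.Agent.YB.UXH

theorem aYB_RPX : Pool.Agent.YB.RPX_stmt :=
  Pool.Agent.YB.RPX aYB_RSX aYB_RIX Pool.Agent.FJAsm.aHK_CVR Pool.Agent.FJAsm.aFI_THU

theorem aYB_SGN : Pool.Agent.YB.SGN_stmt :=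
  Pool.Agent.YB.SGN aYB_RPX Pool.Agent.FJAsm.aHK_SRF Pool.Agent.FJAsm.aFI_SIZ

theorem aYB_HLB : Pool.Agent.YB.HLB_stmt :=
  Pool.Agent.YB.HLB

theorem aYB_FNC : Pool.Agent.YB.FNC_stmt :=
  Pool.Agent.YB.FNC aYB_HLB Pool.Agent.FJAsm.aFI_SIZ

theorem aYB_MWI : Pool.Agent.YB.MWI_stmt :=
  Pool.Agent.YB.MWI

theorem aYB_MUW : Pool.Agent.YB.MUW_stmt :=
  Pool.Agent.YB.MUW aYB_MWI

theorem aYB_MUT : Pool.Agent.YB.MUT_stmt :=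
  Pool.Agent.YB.MUT Pool.Agent.CH.All.VP_all aYB_MUW

theorem aYB_MDD : Pool.Agent.YB.MDD_stmt :=
  Pool.Agent.YB.MDD aYB_MUT

theorem aYB_MDI : Pool.Agent.YB.MDI_stmt :=
  Pool.Agent.YB.MDI aYB_FNC aYB_MDD aYB_MUX aYB_RPX Pool.Agent.FJAsm.aHK_SRF Pool.Agent.FJAsm.aFI_SIZ

theorem aYB_MOX : Pool.Agent.YB.MOX_stmt :=
  Pool.Agent.YB.MOX aYB_VGX aYB_CTX aYB_MUX aYB_TRX aYB_UXH Pool.Agent.FJAsm.aHK_SRF aYB_SGN aYB_MDI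

theorem aYB_SMF : Pool.Agent.YB.SMF_stmt :=
  Pool.Agent.YB.SMF

theorem aEU_SUM : Pool.Agent.EU.SUM_stmt :=
  Pool.Agent.EU.SUM aYB_MOX aYB_SMF aYB_MUX aYB_TRX aYB_UXH Pool.Agent.FJAsm.aHK_SRF Pool.Agent.FJAsm.aFI_SIZ

theorem aEU_WRZ : Pool.Agent.EU.WRZ_stmt :=
  Pool.Agent.EU.WRZ Pool.Agent.FJAsm.aFI_SIZ

theorem aEU_WKL : Pool.Agent.EU.WKL_stmt :=
  Pool.Agent.EU.WKL AM.KL

theorem aEU_WBC : Pool.Agent.EU.WBC_stmt :=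
  Pool.Agent.EU.WBC

theorem aEU_WLT : Pool.Agent.EU.WLT_stmt :=
  Pool.Agent.EU.WLT aEU_WRZ aEU_WKL aEU_WBC

theorem aEU_WRI : Pool.Agent.EU.WRI_stmt :=
  Pool.Agent.EU.WRI aEU_WRZ

theorem aEU_WNI : Pool.Agent.EU.WNI_stmt :=
  Pool.Agent.EU.WNI

theorem aEU_WST : Pool.Agent.EU.WST_stmt :=
  Pool.Agent.EU.WST aEU_WRZ aEU_WRI aEU_WNI

theorem aEU_WBE : Pool.Agent.EU.WBE_stmt :=
  Pool.Agent.EU.WBE

theorem aEU_WAC : Pool.Agent.EU.WAC_stmt :=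
  Pool.Agent.EU.WAC aEU_WLT aEU_WST aEU_WBE Pool.Agent.FJAsm.aBP_SCW Pool.Agent.FJAsm.aFI_YYB

theorem aEU_SMW : Pool.Agent.EU.SMW_stmt :=
  Pool.Agent.EU.SMW aEU_WAC

theorem aEU_RSE : Pool.Agent.EU.RSE_stmt :=
  Pool.Agent.EU.RSE aEU_GHX Pool.Agent.FJAsm.aBP_HSF Pool.Agent.FJAsm.aFI_SIZ

theorem aEU_SMT : Pool.Agent.EU.SMT_stmt :=
  Pool.Agent.EU.SMT Pool.Agent.FJAsm.aSK_TAM

theorem aEU_UHX : Pool.Agent.EU.UHX_stmt :=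
  Pool.Agent.EU.UHX aYB_UXH aYB_MZX

theorem aEU_LRS : Pool.Agent.EU.LRS_stmt :=
  Pool.Agent.EU.LRS aEU_SMW aEU_RSE aEU_PR2 aEU_MVQ aEU_SMT aEU_UHX Pool.Agent.FJAsm.aFI_FFC Pool.Agent.FJAsm.aFI_SIZ

theorem aEU_PMX : Pool.Agent.EU.PMX_stmt :=
  Pool.Agent.EU.PMX Pool.Agent.FJAsm.aBP_PRC Pool.Agent.FJAsm.aBP_MVH

theorem aEU_KRB : Pool.Agent.EU.KRB_stmt :=
  Pool.Agent.EU.KRB aEU_SUM aEU_LRS aEU_PMX aEU_UHX Pool.Agent.FJAsm.aFI_FFC Pool.Agent.FJAsm.aFI_SIZ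

theorem aEU_KRG : Pool.Agent.EU.KRG_stmt :=
  Pool.Agent.EU.KRG aEU_HBE aEU_CSP aEU_KRB aEU_SUM aEU_UHX

theorem aEU_KCC : Pool.Agent.EU.KCC_stmt :=
  Pool.Agent.EU.KCC aEU_PR2 Pool.Agent.FJAsm.aFI_DVE Pool.Agent.FJAsm.aFI_DVU Pool.Agent.FJAsm.aFI_SIZ Pool.Agent.FJAsm.aFI_FDE Pool.Agent.FJAsm.aFI_FDU

theorem aYB_PRX : Pool.Agent.YB.PRX_stmt :=
  Pool.Agent.YB.PRX aYB_MOX aYB_CTX aYB_MUX aYB_TRX aYB_UXH Pool.Agent.FJAsm.aHK_LGC Pool.Agent.FJAsm.aHK_SRF Pool.Agent.FJAsm.aFI_SIZ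

theorem aEU_SUP : Pool.Agent.EU.SUP_stmt :=
  Pool.Agent.EU.SUP aYB_PRX Pool.Agent.FJAsm.aFI_SIZ

theorem aEU_KCB : Pool.Agent.EU.KCB_stmt :=
  Pool.Agent.EU.KCB aEU_SUM aEU_SUP aEU_PMX aEU_UHX Pool.Agent.FJAsm.aFI_FFC Pool.Agent.FJAsm.aFI_SIZ

theorem aEU_SQT : Pool.Agent.EU.SQT_stmt :=
  Pool.Agent.EU.SQT Pool.Agent.FJAsm.aSK_TAM

theorem aEU_KBM : Pool.Agent.EU.KBM_stmt :=
  Pool.Agent.EU.KBM aEU_KRG aEU_KCC aEU_KCB aEU_CSP aEU_MVQ aEU_SQT aEU_UHX Pool.Agent.FJAsm.aFI_SIZ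

theorem aEU_ZAB : Pool.Agent.EU.ZAB_stmt :=
  Pool.Agent.EU.ZAB

theorem aEU_ZFR : Pool.Agent.EU.ZFR_stmt :=
  Pool.Agent.EU.ZFR aEU_ZAB

theorem aEU_PWF : Pool.Agent.EU.PWF_stmt :=
  Pool.Agent.EU.PWF

theorem aEU_WSP : Pool.Agent.EU.WSP_stmt :=
  Pool.Agent.EU.WSP

theorem aEU_ZPW : Pool.Agent.EU.ZPW_stmt :=
  Pool.Agent.EU.ZPW aEU_PWF aEU_WSP aEU_MV2 Pool.Agent.FJAsm.aBP_SCW Pool.Agent.FJAsm.aFI_FFC Pool.Agent.FJAsm.aFI_YYB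

theorem aYB_GRX : Pool.Agent.YB.GRX_stmt :=
  Pool.Agent.YB.GRX

theorem aEU_ZCL : Pool.Agent.EU.ZCL_stmt :=
  Pool.Agent.EU.ZCL aYB_GRX Pool.Agent.FJAsm.aFI_SIZ

theorem aEU_YB : Pool.Agent.EU.YB_stmt :=
  Pool.Agent.EU.YBZ aEU_KBM aEU_ZFR aEU_ZPW aEU_ZCL Pool.Agent.FJAsm.aFI_SIZ

theorem aEU_VAR : Pool.Agent.EU.VAR_stmt :=
  Pool.Agent.EU.VAR Pool.Agent.FJAsm.aFJ_GPT Pool.Agent.FJAsm.aFI_FFC

theorem aEU_RNR : Pool.Agent.EU.RNR_stmt :=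
  Pool.Agent.EU.RNR Pool.Agent.FJAsm.aFJ_GPT Pool.Agent.FJAsm.aFI_FFC

theorem aEU_WPX : Pool.Agent.EU.WPX_stmt :=
  Pool.Agent.EU.WPX Pool.Agent.FJAsm.aFJ_GPT aEU_VAR aEU_RNR Pool.Agent.FJAsm.aFJ_REN Pool.Agent.FJAsm.aFJ_GCL

theorem aEU_WBX : Pool.Agent.EU.WBX_stmt :=
  Pool.Agent.EU.WBX Pool.Agent.FJAsm.aFJ_PSM Pool.Agent.FJAsm.aFJ_CPN Pool.Agent.FJAsm.aFJ_BDN Pool.Agent.FJAsm.aFJ_REN aEU_WPX Pool.Agent.FJAsm.aFI_FFC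

theorem aEU_CHE : Pool.Agent.EU.CHE_stmt :=
  Pool.Agent.EU.CHE

theorem aEU_GPM : Pool.Agent.EU.GPM_stmt :=
  Pool.Agent.EU.GPM Pool.Agent.FJAsm.aFJ_PAD Pool.Agent.FJAsm.aFJ_CMZ Pool.Agent.FJAsm.aFJ_GSB

theorem aEU_LSN : Pool.Agent.EU.LSN_stmt :=
  Pool.Agent.EU.LSN Pool.Agent.FJAsm.aFJ_GPT Pool.Agent.FJAsm.aFJ_LSA Pool.Agent.FJAsm.aFJ_LSB Pool.Agent.FJAsm.aFJ_PHK

theorem aEU_SMC : Pool.Agent.EU.SMC_stmt :=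
  Pool.Agent.EU.SMC Pool.Agent.FJAsm.aFJ_GPT aEU_VAR aEU_RNR Pool.Agent.FJAsm.aFI_FFC

theorem aEU_NCH : Pool.Agent.EU.NCH_stmt :=
  Pool.Agent.EU.NCH

theorem aEU_SME : Pool.Agent.EU.SME_stmt :=
  Pool.Agent.EU.SME aEU_SMC aEU_NCH Pool.Agent.FJAsm.aFJ_PAD Pool.Agent.FJAsm.aFJ_PHK

theorem aEU_PTD : Pool.Agent.EU.PTD_stmt :=
  Pool.Agent.EU.PTD aEU_WBX aEU_CHE aEU_RNR aEU_GPM aEU_LSN Pool.Agent.FJAsm.aFJ_GPL Pool.Agent.FJAsm.aFJ_LSQ aEU_SME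

theorem aEU_PTI : Pool.Agent.EU.PTI_stmt :=
  Pool.Agent.EU.PTI aEU_PTD

theorem aEU_CNE : Pool.Agent.EU.CNE_stmt :=
  Pool.Agent.EU.CNE

theorem aEU_TPD : Pool.Agent.EU.TPD_stmt :=
  Pool.Agent.EU.TPD

theorem aEU_DVS : Pool.Agent.EU.DVS_stmt :=
  Pool.Agent.EU.DVS Pool.Agent.FJAsm.aFJ_PHK

theorem aEU_COQ : Pool.Agent.EU.COQ_stmt :=
  Pool.Agent.EU.COQ

theorem aEU_GEO : Pool.Agent.EU.GEO_stmt :=
  Pool.Agent.EU.GEO Pool.Agent.FJAsm.aFI_YYB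

theorem aEU_CNI : Pool.Agent.EU.CNI_stmt :=
  Pool.Agent.EU.CNI aEU_GEO

theorem aEU_OUT : Pool.Agent.EU.OUT_stmt :=
  Pool.Agent.EU.OUT aEU_CNE aEU_TPD aEU_DVS aEU_COQ aEU_CNI Pool.Agent.FJAsm.aFJ_PAD Pool.Agent.FJAsm.aFJ_PHK aEU_NCH

theorem aEU_RGV : Pool.Agent.EU.RGV_stmt :=
  Pool.Agent.EU.RGV aEU_GEO

theorem aEU_WND : Pool.Agent.EU.WND_stmt :=
  Pool.Agent.EU.WND

theorem aEU_KRN : Pool.Agent.EU.KRN_stmt :=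
  Pool.Agent.EU.KRN aEU_GEO aEU_WND

theorem aEU_PRM : Pool.Agent.EU.PRM_stmt :=
  Pool.Agent.EU.PRM aEU_GEO aEU_WND

theorem aEU_INT : Pool.Agent.EU.INT_stmt :=
  Pool.Agent.EU.INT

theorem aEU_LIP : Pool.Agent.EU.LIP_stmt :=
  Pool.Agent.EU.LIP

theorem aEU_TNQ : Pool.Agent.EU.TNQ_stmt :=
  Pool.Agent.EU.TNQ

theorem aEU_ZON : Pool.Agent.EU.ZON_stmt :=
  Pool.Agent.EU.ZON aEU_RGV aEU_INT aEU_LIP aEU_TNQ aEU_WND aEU_KRN aEU_GEO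

theorem aEU_ERR : Pool.Agent.EU.ERR_stmt :=
  Pool.Agent.EU.ERR aEU_RGV aEU_CNI aEU_KRN aEU_PRM aEU_ZON aEU_WND Pool.Agent.FJAsm.aFI_PAI Pool.Agent.FJAsm.aFJ_PAD

theorem aEU_TEN : Pool.Agent.EU.TEN_stmt :=
  Pool.Agent.EU.TEN

theorem aEU_PLS : Pool.Agent.EU.PLS_stmt :=
  Pool.Agent.EU.PLS

theorem aEU_QQL : Pool.Agent.EU.QQL_stmt :=
  Pool.Agent.EU.QQL

theorem aEU_TLM : Pool.Agent.EU.TLM_stmt :=
  Pool.Agent.EU.TLM aEU_PLS aEU_QQL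

theorem aEU_GTR : Pool.Agent.EU.GTR_stmt :=
  Pool.Agent.EU.GTR Pool.Agent.FJAsm.aBP_SCW Pool.Agent.FJAsm.aFI_FFC

theorem aEU_SEP : Pool.Agent.EU.SEP_stmt :=
  Pool.Agent.EU.SEP aEU_PLS aEU_QQL aEU_TLM aEU_GTR

theorem aEU_OFF : Pool.Agent.EU.OFF_stmt :=
  Pool.Agent.EU.OFF

theorem aEU_MOD : Pool.Agent.EU.MOD_stmt :=
  Pool.Agent.EU.MOD aEU_TEN aEU_SEP aEU_OFF aEU_LIP aEU_TNQ aEU_WND aEU_KRN

theorem aEU_COR : Pool.Agent.EU.COR_stmt :=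
  Pool.Agent.EU.COR aEU_ERR aEU_MOD

theorem aEU_OMP : Pool.Agent.EU.OMP_stmt :=
  Pool.Agent.EU.OMP

theorem aEU_SMB : Pool.Agent.EU.SMB_stmt :=
  Pool.Agent.EU.SMB aEU_OUT aEU_COR aEU_OMP Pool.Agent.FJAsm.aFJ_PHK

theorem aEU_WFU : Pool.Agent.EU.WFU_stmt :=
  Pool.Agent.EU.WFU Pool.Agent.FJAsm.aFI_LAT aEU_PTI aEU_SMB

theorem aEU_T2U : Pool.Agent.EU.T2U_stmt :=
  Pool.Agent.EU.T2U Pool.Agent.FJAsm.aFI_TDW aEU_WFU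

theorem aEU_TYU : Pool.Agent.EU.TYU_stmt :=
  Pool.Agent.EU.TYU Pool.Agent.FJAsm.aFI_DVE Pool.Agent.FJAsm.aFI_DVU Pool.Agent.FJAsm.aFI_SIZ Pool.Agent.FJAsm.aFI_FFC Pool.Agent.FJAsm.aFJ_CZP Pool.Agent.FJAsm.aFI_TDW Pool.Agent.FJAsm.aFJ_NPW aEU_YB aEU_T2U

theorem aEU_TEM : Pool.Agent.EU.TEM_stmt :=
  Pool.Agent.EU.TEM aEU_TIB aEU_TVR aEU_TYU Pool.Agent.FJAsm.aFI_VGI Pool.Agent.FJAsm.aFI_SIZ

theorem aEU_TCM : Pool.Agent.EU.TCM_stmt :=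
  Pool.Agent.EU.TCM aEU_TEM Pool.Agent.FJAsm.aFJ_MSP Pool.Agent.FJAsm.aFI_PPW Pool.Agent.FJAsm.aFI_THS Pool.Agent.FJAsm.aFI_KPS

theorem aEU_TAL : Pool.Agent.EU.TAL_stmt :=
  Pool.Agent.EU.TAL aEU_TEM aEU_TCM

theorem aEU_TFI : Pool.Agent.EU.TFI_stmt :=
  Pool.Agent.EU.TFI aEU_TAL Pool.Agent.FJAsm.aFI_PPW

end Pool.Agent.EUAsm
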