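import Pool.Agent.helper28.EU.Defs
import Pool.Agent.helper95.FJ.SpecX

/-!
# Project eu (MP_ad8ced_nt: almost all primes `p`), Spec T: presieve, Vaughan, type I for every prime `p`, comparison with the mean value, the theorem

RULES.  File `Pool/Agent/<seat>/EU/XXX.lean`:

  import Pool.Agent.helper6.EU.SpecT
  set_option autoImplicit false
  open Finset
  namespace Pool.Agent.EU
  open Pool.Agent.FI Pool.Agent.FJ
  theorem XXX (h1 : YYY_stmt) ... : XXX_stmt := ...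
  end Pool.Agent.EU

Auxiliary lemmas prefixed `XXX_` (private where possible).  Never change this file.  If a statement is wrong tell helper6 at once.  No `convert` / `congr!`, no straight double quotes, no sorry.
The rows of the projects fi and fj are PROVED (`Pool/Agent/*/FI/XX.lean`, `Pool/Agent/*/FJ/XX.lean`); take them as hypotheses.  `L = log x`.  `Zr r = 2^(2^r)`.
PLAN.  For a prime `l` in `(x, 2x]` let `Ls A l = ∑ Λ(8l² - a²)` over the odd `a ≤ A`.  `8l² - a²` is restricted to the rough integers (all prime factors `> Zr r`, `Zr r` = a power of `log x`), Vaughan's identity (TVR) gives type I sums (divisors `d ≤ V`,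
`q ≤ D`), which are evaluated FOR EVERY `l` (TSA, TIB): main term `Mn`, and two type II sums (TYU of helper28, for arbitrary weights `lm` on the primes).  So `∑_l lm(l) (Ls A l - Mn l) = O(A x/L^B)` for all bounded `lm` (TEM).  `Mn l = mc1 ∑_a log (8l² - a²) + mc2 A`, the constants
`mc1, mc2` do not depend on `l`: they are found by comparison with the known mean values over `(x, 2x]` and `(4x, 8x]` (MSP): TCM.
-/

set_option autoImplicit false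

open Finset

noncomputable section

namespace Pool.Agent.EU

open Pool.Agent.FI Pool.Agent.FJ

/-- the number of the roots of `ν² = 8` modulo the prime `p`, `0` for `p = 2` -/
def om1 (p : ℕ) : ℝ := if p = 2 then 0 else rt p

/-- the sieve product -/
def WZ (r : ℕ) : ℝ := ∏ p ∈ Nat.primesLE (Zr r), (1 - om1 p / p)

/-- the sum over `a` for one `l` -/
def Ls (A : ℕ) (l : ℤ) : ℝ := ∑ a ∈ Icc (1 : ℤ) A with a % 2 = 1, ArithmeticFunction.vonMangoldt (nn (a, l))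

open scoped Classical in
/-- the first constant of the main term -/
def mc1 (r V : ℕ) : ℝ := WZ r / 2 * ∑ d ∈ Icc 1 V with RgN (Zr r) d, (ArithmeticFunction.moebius d : ℝ) * rt d / d

open scoped Classical in
/-- the second constant of the main term -/
def mc2 (r U V D : ℕ) : ℝ := -(WZ r / 2 * (∑ d ∈ Icc 1 V with RgN (Zr r) d, (ArithmeticFunction.moebius d : ℝ) * rt d / d * Real.log d
  + ∑ q ∈ Icc 1 D with RgN (Zr r) q, cc U V q * rt q / q))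

/-- the main term -/
def Mn (r U V D A : ℕ) (l : ℤ) : ℝ := mc1 r V * (∑ a ∈ Icc (1 : ℤ) A, Real.log (nn (a, l))) + mc2 r U V D * A

open scoped Classical in
/-- the coefficient `1` on the rough numbers -/
def aOn (Z k : ℕ) : ℝ := if 1 ≤ k ∧ RgN Z k then 1 else 0

open scoped Classical in
/-- the coefficient `∑_{m ∣ k, m > U} Λ(m)` on the rough numbers `≤ X` -/
def aLm (Z U X k : ℕ) : ℝ := if 1 ≤ k ∧ k ≤ X ∧ RgN Z k then ∑ m ∈ k.divisors with U < m, ArithmeticFunction.vonMangoldt m else 0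

/-- **TRT** (short, medium).  (1) Chinese remainder theorem: `ν ↦ (ν mod a, ν mod b)` is a bijection of the residues modulo `a b`, `a b ∣ ν² - 8` iff `a ∣ ν² - 8` and `b ∣ ν² - 8` (Mathlib: `Nat.chineseRemainder`, `ZMod.chineseRemainder`).  (3) ROO: `rt p ≤ #p.divisors = 2`. -/
def TRT_stmt : Prop := (∀ a b : ℕ, 1 ≤ a → 1 ≤ b → Nat.Coprime a b → rt (a * b) = rt a * rt b) ∧ rt 1 = 1 ∧ ∀ p : ℕ, p.Prime → p ≠ 2 → rt p ≤ 2

open scoped Classical in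
/-- **TSA** (medium; type I with the sieve, for one prime `l`).  From TIA, FL2, TRT.  If `rt q = 0` all sums are empty resp. `0` (TIA gives `≤ 0`).  For prime `l > x ≥ a`: `IsCoprime a l`, `nn (a, l) = 8l² - a²` is odd, TIA for the odd modulus `q e` (`e` odd, `IsCoprime l (q e)`) has an error `≤ C₁ L rt(q e)`
(`∑_{g ∣ l, g > 1} 1/g = 1/l ≤ 1/x`, `A/x ≤ 1`, `#l.divisors = 2`).  FL2 with `S` = the odd `a ∈ [1, A]` with `q ∣ a² - 8l²`, weights `(log nn)^h/E`, `E = C₁ L rt q`, `h_p(a) = [p ∣ nn (a,l)]`, `ω = om1` (`≤ 2`, `< p`), `X = rt q/(2q) ∑_{a ≤ A} (log nn)^h/E`: for `D ⊆ primesLE (Zr r)` with `2 ∈ D`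
both sides are `0`; otherwise `e = ∏ D` is odd, squarefree and coprime to `q` (`q` is rough), `rt(q e) = rt q ∏ rt p` (TRT).  A prime `p ≤ Zr r` does not divide the prime `l > x ≥ Zr r`, but this is not needed except for `IsCoprime l (q e)`.  `b = ⌈(B + 3) L₂⌉`, `L₂ = log L`: `4^{-b} · 3L ≤ 1/L^B`, and
`(Zr r)^(c(b+1)) ≤ exp(C (log L)²)`, so `C₁ L (Zr r)^(c(b+1)) ≤ x^η`.  `0 ≤ WZ r ≤ 1`. -/
def TSA_stmt : Prop := ∀ η : ℝ, 0 < η → ∀ B C₀ : ℕ, ∃ x₀ : ℕ, ∀ x : ℕ, x₀ ≤ x → ∀ r : ℕ, (Zr r : ℝ) ≤ Real.log x ^ (2 * C₀) → ∀ A : ℕ, 1 ≤ A → A ≤ x →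
  ∀ q : ℕ, 1 ≤ q → RgN (Zr r) q → ∀ l : ℤ, (x : ℤ) < l → l ≤ 2 * x → l.toNat.Prime → IsCoprime l (q : ℤ) → ∀ h : ℕ, h ≤ 1 →
  |∑ a ∈ Icc (1 : ℤ) A with (a % 2 = 1 ∧ q ∣ nn (a, l) ∧ RgN (Zr r) (nn (a, l))), Real.log (nn (a, l)) ^ h
      - WZ r * (rt q / (2 * q) * ∑ a ∈ Icc (1 : ℤ) A, Real.log (nn (a, l)) ^ h)| ≤ rt q * (A / (q * Real.log x ^ B) + (x : ℝ) ^ η)

open scoped Classical in
/-- **TIB** (medium; type I for one prime `l`).  From TSA, ROO.  All divisors of a rough number are rough and odd.  `∑_a ∑_{d ∣ n, d ≤ V} μ(d) log(n/d) = ∑_{d ≤ V, rough} μ(d) (∑_{a, d ∣ n} log n - log d ∑_{a, d ∣ n} 1)`, TSA with `η/8` and `B + 6`, `h = 1` and `h = 0`; `IsCoprime l d` since `l > x ≥ d` is prime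
(`V, D ≤ x` because `x^(2/3+3η/4) ≤ A ≤ x`).  The errors: `|cc U V q| ≤ log q ≤ L` (RDP_cc in `Pool/Agent/*/FJ/RDP.lean`), `∑_{d ≤ V} rt d/d ≤ ∑ τ(d)/d ≤ (1 + L)²`, `∑_{d ≤ V} rt d ≤ V (1 + L)` (ROO for odd `d`; RDP_tau there), and `x^(2/3+3η/4) (1 + L) x^(η/8) · 3L ≤ A/(8 L^B)`. -/
def TIB_stmt : Prop := ∀ η : ℝ, 0 < η → ∀ B C₀ : ℕ, ∃ x₀ : ℕ, ∀ x : ℕ, x₀ ≤ x → ∀ r : ℕ, (Zr r : ℝ) ≤ Real.log x ^ (2 * C₀) → ∀ A : ℕ, (x : ℝ) ^ (2 / 3 + η) ≤ A → A ≤ x →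
  ∀ U V D : ℕ, (V : ℝ) ≤ (x : ℝ) ^ (2 / 3 + 3 * η / 4) → (D : ℝ) ≤ (x : ℝ) ^ (2 / 3 + 3 * η / 4) → ∀ l : ℤ, (x : ℤ) < l → l ≤ 2 * x → l.toNat.Prime →
  |∑ a ∈ Icc (1 : ℤ) A with (a % 2 = 1 ∧ RgN (Zr r) (nn (a, l))),
      (∑ d ∈ (nn (a, l)).divisors with d ≤ V, (ArithmeticFunction.moebius d : ℝ) * Real.log (nn (a, l) / d : ℝ) - ∑ q ∈ (nn (a, l)).divisors with q ≤ D, cc U V q)
      - Mn r U V D A l| ≤ A / Real.log x ^ B

open scoped Classical in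
/-- **TVR** (short, medium; Vaughan for rough `n`).  From VGI.  If `n` is rough all its divisors are rough: VGI, `∑_{q ∣ n} cc = ∑_{q ≤ D} + ∑_{q > D}`, and `∑_{m ∣ n, U < m} Λ(m) al V (n/m) = ∑_{d ∣ n, V < d} μ(d) ∑_{m ∣ n/d, U < m} Λ(m)` (both are the sum over the `(m, d)` with `m d ∣ n`).
If `n` is not rough: for every `q ∣ n` one of `q`, `n/q` is not rough (a prime `p ≤ Z` dividing `n` divides `q` or `n/q`), so both sums vanish. -/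
def TVR_stmt : Prop := ∀ Z U V D X n : ℕ, 1 ≤ U → 1 ≤ V → U < n → n ≤ X →
  (if RgN Z n then ArithmeticFunction.vonMangoldt n else 0) =
    (if RgN Z n then ∑ d ∈ n.divisors with d ≤ V, (ArithmeticFunction.moebius d : ℝ) * Real.log (n / d : ℝ) - ∑ q ∈ n.divisors with q ≤ D, cc U V q else 0)
    - ∑ q ∈ n.divisors, bCc Z U V D q * aOn Z (n / q) + ∑ d ∈ n.divisors, bMu Z V d * aLm Z U X (n / d)

open scoped Classical in
/-- **TEM** (medium; the mean over the primes `l` with arbitrary weights).  From TIB, TVR, TYU, VGI, SIZ.  `lm` is supported on primes `l > x ≥ A ≥ a`, so `IsCoprime a l` and `∑_l lm(l) ∑_{a odd ≤ A} F(nn (a,l)) = ∑_{ζ ∈ PZ x A} lm ζ.2 F(nn ζ)`; `7x² ≤ nn ζ ≤ 32x²`.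
`C₁` = the maximum of `1` and the `C₁` of TYU for `η`, `B + 3`.  (1) the `n` which are not rough: `Λ(n) ≠ 0` only if `n = p^j`, `p ≤ Zr r`, `j ≤ 8L`: for each `l` at most `8L Zr r` values of `a`: total `≤ 2x · 2L · 3L · 8L · L^(2C₀) ≤ A x/(8 L^B)`.  (2) TVR with `X = 32x²`, `D`: the first sum is TIB (`|lm| ≤ 2L`, `B + 3`).
(3) TYU with `Y = Zr r`, `β = bCc (Zr r) U V D`, `α = aOn (Zr r)` (`N₁ = D`, `U x^(η/4) ≤ x^(2/3) ≤ D`; `|cc| ≤ log m`, `cc U V m = 0` for `m > UV` and `UV ≤ x^(4/3)`), and with `β = bMu (Zr r) V`, `α = aLm (Zr r) U (32x²)` (`|aLm k| ≤ log k ≤ 3L`, `aLm k = 0` for `k ≤ U`, so `m ≤ 32x²/U ≤ 32 x^(4/3+η)`).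
`LamOK x Z (2L) lm` with `Z = Zr r` (a prime `l > x ≥ Zr r` has no prime factor `≤ Zr r`). -/
def TEM_stmt : Prop := ∀ η : ℝ, 0 < η → ∀ B : ℕ, ∃ C₁ : ℕ, ∀ C₀ : ℕ, C₁ ≤ C₀ → ∃ x₀ : ℕ, ∀ x : ℕ, x₀ ≤ x →
  ∀ r : ℕ, Real.log x ^ C₀ ≤ Zr r → (Zr r : ℝ) ≤ Real.log x ^ (2 * C₀) → ∀ A : ℕ, (x : ℝ) ^ (2 / 3 + η) ≤ A → A ≤ x →
  ∀ U V D : ℕ, (x : ℝ) ^ (2 / 3 - η) ≤ U → (U : ℝ) ≤ (x : ℝ) ^ (2 / 3 - η / 4) → (x : ℝ) ^ (2 / 3 - η) ≤ V → (V : ℝ) ≤ (x : ℝ) ^ (2 / 3 - η / 4) →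
    (x : ℝ) ^ (2 / 3 + η / 4) ≤ D → (D : ℝ) ≤ (x : ℝ) ^ (2 / 3 + 3 * η / 4) →
  ∀ lm : ℤ → ℝ, (∀ l, |lm l| ≤ 2 * Real.log x) → (∀ l, lm l ≠ 0 → (x : ℤ) < l ∧ l ≤ 2 * x ∧ l.toNat.Prime) →
  |∑ l ∈ Ioc (x : ℤ) (2 * x), lm l * (Ls A l - Mn r U V D A l)| ≤ A * x / Real.log x ^ B

/-- the parameter `U = V` -/
def Up (η : ℝ) (x : ℕ) : ℕ := ⌈(x : ℝ) ^ (2 / 3 - η / 4)⌉₊

/-- the parameter `D` -/
def Dp (η : ℝ) (x : ℕ) : ℕ := ⌈(x : ℝ) ^ (2 / 3 + η / 4)⌉₊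

/-- **TCM** (medium; the main term).  From TEM, MSP, PPW, THS, KPS.  TEM with `η/2`, `B = 1` at the scales `y = x` and `y = 4x` (for `y = x` with `C₀` or, if `Zr r > log x ^ (2C₀)`, with `C₀ + 1`; then `Zr r ≤ log (4x) ^ (2C₀) ≤ log x ^ (2C₀+2)`), `U = V = Up η x`, `D = Dp η x`: the ranges hold at both scales for large `x`,
`lm = th` on `(y, 2y]`.  With MSP and PPW (`≤ y^(3/2)`; `Ls` and the sums over `PZ y A` agree as `l` is prime, `Λ = log` at primes) and THS (`q = 1`: `∑_{y < l ≤ 2y} th l = y (1 + o(1))`): `|∑_l th(l) (Mn l - κ' A)| ≤ δ A y`, `κ' = √8/lep · Sg`, `δ` small.  `Mn l - κ' A = A (c s(l) + b)`,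
`s(l) = (1/A) ∑_{a ≤ A} log(8l² - a²)` increasing in `l`, `c = mc1`, `b = mc2 - κ'`; by symmetry let `c ≥ 0`.  `y = x`: `c s(2x) + b ≥ -2δ`; `y = 4x`: `c s(4x) + b ≤ 2δ`; `s(4x) - s(2x) ≥ log 4`, so `0 ≤ c ≤ 4δ`.  For `x < l ≤ 2x`: `s(2x) - s(l) ≤ log(32/7) ≤ 2`, so `-10δ ≤ c s(2x) + b - 2c ≤ c s(l) + b ≤ c s(4x) + b ≤ 2δ`. -/
def TCM_stmt : Prop := ∀ η : ℝ, 0 < η → ∀ ε : ℝ, 0 < ε → ∃ C₁ : ℕ, ∀ C₀ : ℕ, C₁ ≤ C₀ → ∃ x₀ : ℕ, ∀ x : ℕ, x₀ ≤ x →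
  ∀ r : ℕ, Real.log (4 * x) ^ C₀ ≤ Zr r → (Zr r : ℝ) ≤ Real.log (4 * x) ^ (2 * C₀) → ∀ A : ℕ, (x : ℝ) ^ (2 / 3 + η) ≤ A → A ≤ x → ∀ l : ℤ, (x : ℤ) < l → l ≤ 2 * x →
  |Mn r (Up η x) (Up η x) (Dp η x) A l - √8 / lep * Sg * A| ≤ ε * A

open scoped Classical in
/-- **TAL** (short, medium; almost all primes, weighted).  From TEM, TCM.  `C₀` = the maximum of the `C₁` of TEM (`η/2`, `B = C + 2`) and of TCM (`ε/2`); `r` = the least `r` with `log (4x) ^ C₀ ≤ Zr r`, then `Zr r ≤ log (4x) ^ (2C₀)` (`Zr (r+1) = (Zr r)²`).  TEM at the scale `x` (with `C₀` or `C₀ + 1` as in TCM) and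
`lm l` = the sign of `Ls A l - Mn l` for prime `l`: `∑_{l prime} |Ls A l - Mn l| ≤ A x/L^(C+2)`.  For the bad `l` the term is at least `ε A/2`. -/
def TAL_stmt : Prop := ∀ η : ℝ, 0 < η → ∀ ε : ℝ, 0 < ε → ∀ C : ℕ, ∃ x₀ : ℕ, ∀ x : ℕ, x₀ ≤ x → ∀ A : ℕ, (x : ℝ) ^ (2 / 3 + η) ≤ A → A ≤ x →
  (#{l ∈ Ioc (x : ℤ) (2 * x) | l.toNat.Prime ∧ ε * A < |Ls A l - √8 / lep * Sg * A|} : ℝ) ≤ x / Real.log x ^ C

open scoped Classical in
/-- **TFI** (short, medium; the theorem).  From TAL, PPW.  `ctp A p` = the number of the odd `a ≤ A` with `8p² - a²` prime.  For a prime `p`: `Ls A p` = sum of `log n` over the prime `n = 8p² - a²` (`2L ≤ log n ≤ 2L + 4`) plus `P(p) = ∑_{n not prime} Λ(n) ≥ 0`.  PPW: `∑_p th(p) P(p) ≤ x^(3/2)`, so at most `x^(3/2)/(δ A L)`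
primes have `P(p) > δ A`.  For the others with `|Ls A p - κ' A| ≤ δ A`: `2L ctp ≤ (κ' + 1) A`, so `|Ls A p - 2L ctp| ≤ 4 ctp + δ A ≤ 2δ A`, `|ctp - (κ'/2) A/L| ≤ 3δ A/(2L)`. -/
def TFI_stmt : Prop := ∀ η : ℝ, 0 < η → ∀ ε : ℝ, 0 < ε → ∀ C : ℕ, ∃ x₀ : ℕ, ∀ x : ℕ, x₀ ≤ x → ∀ A : ℕ, (x : ℝ) ^ (2 / 3 + η) ≤ A → A ≤ x →
  (#{p ∈ Ioc x (2 * x) | p.Prime ∧ ε * (A / Real.log x) < |(Pool.Agent.FIP.ctp A p : ℝ) - √8 / (2 * lep) * Sg * (A / Real.log x)|} : ℝ) ≤ x / Real.log x ^ C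

end Pool.Agent.EU
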