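import Pool.Agent.helper52.EU.SpecK
import Pool.Agent.helper36.YB.Spec

/-!
# Project eu (MP_ad8ced_nt: almost all primes `p`), Spec Z: the last reduction of block Y, from the frequency sums `KF` to the windows `YH` (`YB_stmt`)

RULES.  File `Pool/Agent/<seat>/EU/XX.lean`:

  import Pool.Agent.helper6.EU.SpecZ
  set_option autoImplicit false
  open Finset
  namespace Pool.Agent.EU
  open Pool.Agent.FI Pool.Agent.HK Pool.Agent.BP Pool.Agent.YB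
  open Pool.Agent.CH (nit rgh)
  theorem XX (h1 : YY_stmt) ... : XX_stmt := ...
  end Pool.Agent.EU

Auxiliary lemmas prefixed `XX_` (private where possible).  Never change this file.  If a statement is wrong tell helper6 at once.  No `convert` / `congr!`, no straight double quotes, no sorry.
Other statements may be used as hypotheses only.  `FFC_stmt`, `SIZ_stmt`, `YYB_stmt` (FI), `SCW_stmt` (BP) are proved rows.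

`L = log x`.  The elements of `ZD N` are in `FF (2N)`, so in `Fd`, with `N < nn z ≤ 2N`.  `fr α m = (α + 2πm)/(2 lep)`.
THE PLAN.  A residue class modulo `q` is a union of four classes modulo `2q`, these are sorted by the characters `ξ` of the odd classes (GRX), the sign of the norm by `(1 + sg sgn)/2` (row ZCL).  A window sum with one character is bounded by the frequency sums (rows ZPW, ZFR) after a subdivision of the window (WSP), the weight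
`(nn z)^(-1/2)` is removed by Abel summation (ZAB).  `KBM_stmt` (SpecK) gives the frequency sums.
-/

set_option autoImplicit false

open Finset

noncomputable section

namespace Pool.Agent.EU

open Pool.Agent.FI Pool.Agent.HK Pool.Agent.BP Pool.Agent.YB
open Pool.Agent.CH (nit rgh)

open scoped Classical in
/-- **ZAB** (short, medium; Abel summation).  `w k = 1/√k` is decreasing.  For `z ∈ ZD N` (`N < nn z ≤ 2N`): `w (nn z) = w (2N) + ∑_{j ∈ Ico N (2N), nn z ≤ j} (w j - w (j+1))` (telescoping), so `∑_z w (nn z) g m z = w (2N) G_m(2N) + ∑_{j ∈ Ico N (2N)} (w j - w (j+1)) G_m(j)`, `G_m(j) = ∑_{z ∈ ZD N, nn z ≤ j} g m z`.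
The nonnegative weights have the sum `w N = 1/√N`; Cauchy-Schwarz (`‖∑ c_j G_j‖² ≤ (∑ c_j) ∑ c_j ‖G_j‖²`), sum over `m`: `≤ (1/√N) (1/√N) W`. -/
def ZAB_stmt : Prop := ∀ (N : ℕ) (F : Finset ℤ) (g : ℤ → ℤ × ℤ → ℂ) (W : ℝ), 1 ≤ N →
  (∀ N' : ℕ, N ≤ N' → N' ≤ 2 * N → ∑ m ∈ F, ‖∑ z ∈ ZD N with nn z ≤ N', g m z‖ ^ 2 ≤ W) →
  ∑ m ∈ F, ‖∑ z ∈ ZD N, ((1 / √(nn z : ℝ) : ℝ) : ℂ) * g m z‖ ^ 2 ≤ W / N

/-- **ZFR** (short, medium; one character).  From ZAB.  `α = ang (ξ (3,1))` (`nn (3,1) = 1`, so `‖ξ (3,1)‖ = 1`; `w e^{iα} = 1` for `w = ξ (3,1)`, `0 ≤ α < 2π`), `ξ (-1,0)² = ξ (1,0)`, `ξ (1,0)² = ξ (1,0) ≠ 0`, so `ξ (-1,0) = ± 1`; `i₁ = 0` or `1` accordingly: `XInv ξ i₁ (fr α m)` since `fr α m · 2 log (3 + √8) = α + 2πm`.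
KF with these; for `z ∈ ZD N` (`Fd z`) `s1 z = 1` (`z.1 + z.2 √8 > 0`), `HX ξ i₁ i κ z = ξ z sgn^i exp (iκ yy z)`; `(nn z)^(-1/2+it) = (1/√(nn z)) nit t (nn z)` (`nn z > 0`).  ZAB with `g m z = β (nn z) HX .. nit t (nn z)`, `W = N²/L^A`. -/
def ZFR_stmt : Prop := ∀ (x N M₁ B A : ℕ) (T : ℝ) (β : ℕ → ℝ), 1 ≤ N → KF x N M₁ B A T β → ∀ (q : ℕ) (ξ : ℤ × ℤ → ℂ), IsX q ξ → (q : ℝ) ≤ Real.log x ^ B →
  ∀ i : ℕ, i ≤ 1 → ∀ t : ℝ, |t| ≤ T → ∃ α : ℝ, 0 ≤ α ∧ α ≤ 2 * Real.pi ∧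
  ∑ m ∈ Icc (-(M₁ : ℤ)) M₁, ‖∑ z ∈ ZD N, ((β (nn z) : ℂ) * (ξ z * ((N8 z).sign : ℂ) ^ i) * (nn z : ℂ) ^ (-(1 / 2 : ℂ) + t * Complex.I)) *
    Complex.exp (((fr α m * yy z : ℝ) : ℂ) * Complex.I)‖ ^ 2 ≤ N / Real.log x ^ A

open scoped Classical in
/-- **ZPW** (medium; windows).  From PWF, WSP, MV2 (SpecY), SCW, FFC, YYB.  `J = ⌈x^(η/200)⌉`.  WSP: `∫ ‖W_h‖² ≤ J² ∫ ‖W_(h/J)‖²`; PWF for `h/J`, `S = ZD N`.  MV2 on `FF (2N)` with `b z = f z` on `ZD N`, `0` elsewhere, `∑ ‖f z‖² ≤ 50 N · 9L²/N` (FFC): `∑_{|m| ≤ M} ≤ M U + V₀`, `U = C L² √N`, `V₀ = C L² N`.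
`W₀ = C L (√N h/J + 1)` by SCW (`v = 2N`, `c = y + h/(2J)`, `ρ = h/(2J)`).  Result: `C (h² N/L^(E+2) + J² L² √N/M₁ + J² L² N/M₁² + 2 L² (N h³/J + J h))`, and each of the five terms is at most `N h²/(5 L^(E+1))`: `h ≥ A/(x L^E)`, `√N ≥ (x/A) x^(η/2)`, `M₁ ≥ (x/A) x^(η/100)`, `J² ≤ 4 x^(η/100)`:
second: `J² √N/M₁ ≤ 4 √N A/x ≤ 4 N (A/x)² x^(-η/2)`; third: `J² N/M₁² ≤ 4 N (A/x)² x^(-η/100)`, and `N (A/x)² ≤ N h² L^(2E)`; fourth `h ≤ 1`; fifth: `N h ≥ (x/A) x^η/L^E ≥ x^η/L^E`. -/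
def ZPW_stmt : Prop := ∀ η : ℝ, 0 < η → ∀ E : ℕ, ∃ x₀ : ℕ, ∀ x : ℕ, x₀ ≤ x → ∀ (A N M₁ : ℕ) (α h : ℝ) (f : ℤ × ℤ → ℂ), 1 ≤ A → A ≤ x →
  (x : ℝ) ^ 2 * (x : ℝ) ^ η ≤ A ^ 2 * N → N ≤ x ^ 2 → (x : ℝ) / A * (x : ℝ) ^ (η / 100) ≤ M₁ → 0 ≤ α → α ≤ 2 * Real.pi →
  (∀ z ∈ ZD N, ‖f z‖ ≤ 3 * Real.log x / √(N : ℝ)) → A / (x * Real.log x ^ E) ≤ h → h ≤ A / x →
  ∑ m ∈ Icc (-(M₁ : ℤ)) M₁, ‖∑ z ∈ ZD N, f z * Complex.exp (((fr α m * yy z : ℝ) : ℂ) * Complex.I)‖ ^ 2 ≤ N / Real.log x ^ (E + 2) →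
  ∫ y : ℝ, ‖∑ z ∈ ZD N with (y < yy z ∧ yy z ≤ y + h), f z‖ ^ 2 ≤ N * h ^ 2 / Real.log x ^ (E + 1)

open scoped Classical in
/-- **ZCL** (medium; the classes and the sign).  From GRX (helper36/YB/Spec.lean), SIZ.  `L ≥ 16`, so `2q ≤ L^(E+1) ≤ Z`.  `z` with `β (nn z) ≠ 0`: every prime `p ∣ nn z` is `> Z ≥ 2q`, so `gcd(nn z, 2q) = 1`.  `z ≡ c mod q` iff `z ≡ c + q(ε₁, ε₂) mod 2q` for exactly one `ε ∈ {0,1}²`; if `gcd(nn c', 2q) > 1` then no such `z` is `≡ c' mod 2q` (`N8 z ≡ N8 c'`);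
otherwise GRX for the modulus `2q`: `[z ≡ c'] = k⁻¹ ∑_j ψ_j z conj (ψ_j c')`.  `sg = ± 1`: `[sgn (N8 z) = sg] = (1 + sg sgn (N8 z))/2`; other `sg`: the sum is empty (SIZ).  So `ZW(y) = ∑_{ε, j, i} a_{ε,j,i} G_{j,i}(y)`, `∑ |a| ≤ 4 · k · 2 · 1/(2k) = 4`, `‖ZW‖² ≤ 4 ∑ |a| ‖G‖²`,
`∫ ‖ZW‖² ≤ 16 N h²/L^(E+1) ≤ N h²/L^E`.  (The `G` are finite sums of indicators of bounded intervals in `y`, so everything is integrable.) -/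
def ZCL_stmt : Prop := ∀ E : ℕ, ∃ x₀ : ℕ, ∀ x : ℕ, x₀ ≤ x → ∀ (N A Z : ℕ) (T : ℝ) (β : ℕ → ℝ), Real.log x ^ (E + 1) ≤ Z → (∀ m, β m ≠ 0 → RgN Z m) →
  (∀ (q : ℕ) (ξ : ℤ × ℤ → ℂ), IsX q ξ → (q : ℝ) ≤ Real.log x ^ (E + 1) → ∀ i : ℕ, i ≤ 1 → ∀ h t : ℝ, A / (x * Real.log x ^ E) ≤ h → h ≤ A / x → |t| ≤ T →
    ∫ y : ℝ, ‖∑ z ∈ ZD N with (y < yy z ∧ yy z ≤ y + h), (β (nn z) : ℂ) * (ξ z * ((N8 z).sign : ℂ) ^ i) * (nn z : ℂ) ^ (-(1 / 2 : ℂ) + t * Complex.I)‖ ^ 2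
      ≤ N * h ^ 2 / Real.log x ^ (E + 1)) →
  YH x N A E T (fun z => β (nn z))

/-- **YBZ** (short, medium; the export of block Y, `YB_stmt` of helper28/EU/Defs.lean).  From KBM, ZFR, ZPW, ZCL.  `η > 1/3` is impossible for `x ≥ 2` (`x^(2/3+η) ≤ A ≤ x`).  Let `C₁'` be the constant of KBM for `η' = 9η/10`, `δ`, exponents `A = E + 2`, `B = E + 1`; `C₁ = max C₁' (E + 1)`, KBM with `2 C₀` for its `C₀`.  `M₁ = ⌈(x/A) x^(η/100)⌉`: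
`M₁² x^(9η/10) ≤ 4 (x/A)² x^(92η/100) ≤ (x/A)² x^η ≤ N`, `T = (x/A)² x^(η/4) ≤ M₁² x^(η'/3)` (KF is monotone in `T`).  ZFR gives `α` and the bound for `f z = β (nn z) (ξ z sgn^i) (nn z)^(-1/2+it)`, `‖f z‖ ≤ 3L/√N` on `ZD N`: `‖ξ z‖ ≤ 1` (IsX), `|bMu| ≤ 1`, `|bCc| ≤ |cc U V m| ≤ ∑_{d ∣ m} Λ(d) = log m ≤ log (2x²) ≤ 3L`.
ZPW, then ZCL; `bMu Z N₁ m ≠ 0` and `bCc .. m ≠ 0` imply `RgN Z m`. -/
def YBZ_stmt : Prop := YB_stmt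

end Pool.Agent.EU
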