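import Pool.Agent.helper6.EU.SpecZ

/-! # ZPW: from frequencies to short windows -/

set_option autoImplicit false

open Finset

namespace Pool.Agent.EU

open Pool.Agent.FI Pool.Agent.HK Pool.Agent.BP Pool.Agent.YB
open Pool.Agent.CH (nit rgh)

private theorem ZPW_large (η K : ℝ) (n : ℕ) (hη : 0 < η) : ∃ x₀ : ℕ, 1 ≤ x₀ ∧ ∀ x : ℕ, x₀ ≤ x →
    K ≤ Real.log x ∧ K * Real.log x ^ n ≤ (x : ℝ) ^ (η / 200) ∧ 2 ≤ (x : ℝ) ^ (η / 200) := by
  have h1 := Real.tendsto_log_atTop.eventually_ge_atTop K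
  have h2 := (tendsto_rpow_atTop (show 0 < η / 200 by positivity)).eventually_ge_atTop 2
  have h3 := (isLittleO_log_rpow_rpow_atTop (n : ℝ) (show 0 < η / 200 by positivity)).bound (show (0 : ℝ) < 1 / (|K| + 1) by positivity)
  have h4 := Filter.eventually_ge_atTop (1 : ℝ)
  have h5 := tendsto_natCast_atTop_atTop (R := ℝ) |>.eventually (h1.and (h2.and (h3.and h4)))
  obtain ⟨N₀, h6⟩ := Filter.eventually_atTop.1 h5
  refine ⟨max N₀ 1, le_max_right _ _, fun x hx => ?_⟩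
  obtain ⟨a1, a2, a3, a4⟩ := h6 x (le_trans (le_max_left _ _) hx)
  refine ⟨a1, ?_, a2⟩
  have hL : 0 ≤ Real.log x := Real.log_nonneg a4
  have e1 : ‖Real.log (x : ℝ) ^ (n : ℝ)‖ = Real.log x ^ n := by
    rw [Real.rpow_natCast, Real.norm_eq_abs, abs_of_nonneg (by positivity)]
  have e2 : ‖(x : ℝ) ^ (η / 200)‖ = (x : ℝ) ^ (η / 200) := by
    rw [Real.norm_eq_abs, abs_of_nonneg (by positivity)]
  rw [e1, e2] at a3
  have h7 : (|K| + 1) * Real.log x ^ n ≤ (x : ℝ) ^ (η / 200) := by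
    have h8 := mul_le_mul_of_nonneg_left a3 (show (0 : ℝ) ≤ |K| + 1 by positivity)
    have h9 : (|K| + 1) * (1 / (|K| + 1)) = 1 := mul_one_div_cancel (by positivity)
    rw [← mul_assoc, h9, one_mul] at h8
    exact h8
  refine le_trans ?_ h7
  have : K ≤ |K| + 1 := (le_abs_self K).trans (by linarith)
  gcongr

/-- the final numerical inequality -/
private theorem ZPW_num (C₁ C₄ C₅ L P N s u h J M S I : ℝ) (E : ℕ) (hC₁ : 0 < C₁) (hC₄ : 0 < C₄) (hC₅ : 0 < C₅) (hL1 : 1 ≤ L)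
    (hL : 2 * C₁ ≤ L) (hP2 : 2 ≤ P) (hKP : 2 * C₁ * (8 * C₄ + 18 * C₅ ^ 2) * L ^ (3 * E + 3) ≤ P)
    (hs0 : 0 < s) (hsN : s ^ 2 = N) (hu0 : 0 < u) (hu1 : u ≤ 1) (huN : P ^ 200 ≤ u ^ 2 * N)
    (hh1 : u ≤ h * L ^ E) (hh2 : h ≤ u) (hh0 : 0 < h) (hJ1 : P ≤ J) (hJ2 : J ≤ 2 * P) (hM : P ^ 2 ≤ u * M) (hS : S ≤ N / L ^ (E + 2)) (hS0 : 0 ≤ S)
    (hI : I ≤ J ^ 2 * (C₁ * ((h / J) ^ 2 * S + C₄ * L ^ 2 * s / M + C₄ * L ^ 2 * N / M ^ 2 + h / J * (C₅ * L * (h / J * s + 2)) ^ 2))) :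
    I ≤ N * h ^ 2 / L ^ (E + 1) := by
  have hL0 : 0 < L := by linarith
  have hP0 : 0 < P := by linarith
  have hJ0 : 0 < J := by linarith
  have hM0 : 0 < M := by
    by_contra hcon
    have : u * M ≤ 0 := mul_nonpos_of_nonneg_of_nonpos hu0.le (not_lt.1 hcon)
    nlinarith [pow_pos hP0 2]
  have hN0 : 0 < N := by rw [← hsN]; positivity
  have hLE : 0 < L ^ E := by positivity
  have hh1' : h ≤ 1 := hh2.trans hu1
  -- su ≥ P
  have hsu : P ^ 100 ≤ s * u := by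
    have h1 : (P ^ 100) ^ 2 ≤ (s * u) ^ 2 := by
      calc (P ^ 100) ^ 2 = P ^ 200 := by ring
        _ ≤ u ^ 2 * N := huN
        _ = (s * u) ^ 2 := by rw [← hsN]; ring
    exact (pow_le_pow_iff_left₀ (by positivity) (by positivity) (by norm_num)).1 h1
  have hP100 : P ≤ P ^ 100 := le_self_pow₀ (by linarith) (by norm_num)
  have hP200 : P ^ 2 ≤ P ^ 200 := pow_le_pow_right₀ (by linarith) (by norm_num)
  have hsuP : P ≤ s * u := hP100.trans hsu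
  -- N u^2 ≤ N h^2 L^(2E)
  have hNu : N * u ^ 2 ≤ N * h ^ 2 * L ^ (2 * E) := by
    have h1 : u ^ 2 ≤ (h * L ^ E) ^ 2 := by gcongr
    calc N * u ^ 2 ≤ N * (h * L ^ E) ^ 2 := by gcongr
      _ = N * h ^ 2 * L ^ (2 * E) := by rw [mul_pow, ← pow_mul, mul_comm E 2]; ring
  -- terms
  have t1 : J ^ 2 * ((h / J) ^ 2 * S) ≤ N * h ^ 2 / L ^ (E + 2) := by
    have : J ^ 2 * ((h / J) ^ 2 * S) = h ^ 2 * S := by field_simp
    rw [this, mul_div_assoc, mul_comm]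
    calc S * h ^ 2 ≤ N / L ^ (E + 2) * h ^ 2 := by gcongr
      _ = N * (h ^ 2 / L ^ (E + 2)) := by ring
  have hJM : J ^ 2 / M ≤ 4 * u := by
    rw [div_le_iff₀ hM0]
    calc J ^ 2 ≤ (2 * P) ^ 2 := by gcongr
      _ = 4 * P ^ 2 := by ring
      _ ≤ 4 * (u * M) := by linarith
      _ = 4 * u * M := by ring
  have t2 : J ^ 2 * (C₄ * L ^ 2 * s / M) ≤ 4 * C₄ * L ^ (2 * E + 2) * (N * h ^ 2) / P := by
    have h1 : J ^ 2 * (C₄ * L ^ 2 * s / M) = C₄ * L ^ 2 * s * (J ^ 2 / M) := by ring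
    have h2 : s * u ≤ N * u ^ 2 / P := by
      rw [le_div_iff₀ hP0]
      calc s * u * P ≤ s * u * (s * u) := by gcongr
        _ = N * u ^ 2 := by rw [← hsN]; ring
    calc J ^ 2 * (C₄ * L ^ 2 * s / M) = C₄ * L ^ 2 * s * (J ^ 2 / M) := h1
      _ ≤ C₄ * L ^ 2 * s * (4 * u) := by gcongr
      _ = 4 * C₄ * L ^ 2 * (s * u) := by ring
      _ ≤ 4 * C₄ * L ^ 2 * (N * u ^ 2 / P) := by gcongr
      _ ≤ 4 * C₄ * L ^ 2 * (N * h ^ 2 * L ^ (2 * E) / P) := by gcongr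
      _ = 4 * C₄ * L ^ (2 * E + 2) * (N * h ^ 2) / P := by rw [pow_add]; ring
  have t3 : J ^ 2 * (C₄ * L ^ 2 * N / M ^ 2) ≤ 4 * C₄ * L ^ (2 * E + 2) * (N * h ^ 2) / P := by
    have h2 : 1 / M ≤ u / P ^ 2 := by
      rw [div_le_div_iff₀ hM0 (by positivity)]; linarith
    have h3 : J ^ 2 / M * (1 / M) ≤ 4 * u * (u / P ^ 2) := by gcongr
    have h4 : 1 / P ^ 2 ≤ 1 / P := by
      apply one_div_le_one_div_of_le hP0
      nlinarith
    calc J ^ 2 * (C₄ * L ^ 2 * N / M ^ 2) = C₄ * L ^ 2 * N * (J ^ 2 / M * (1 / M)) := by field_simp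
      _ ≤ C₄ * L ^ 2 * N * (4 * u * (u / P ^ 2)) := by gcongr
      _ = 4 * C₄ * L ^ 2 * (N * u ^ 2) * (1 / P ^ 2) := by ring
      _ ≤ 4 * C₄ * L ^ 2 * (N * h ^ 2 * L ^ (2 * E)) * (1 / P) := by gcongr
      _ = 4 * C₄ * L ^ (2 * E + 2) * (N * h ^ 2) / P := by rw [pow_add]; ring
  have hLE1 : 1 ≤ L ^ (2 * E) := one_le_pow₀ hL1
  have hLE2 : L ^ E ≤ L ^ (2 * E) := pow_le_pow_right₀ hL1 (by omega)
  have t4 : J ^ 2 * (h / J * (C₅ * L * (h / J * s + 2)) ^ 2) ≤ 18 * C₅ ^ 2 * L ^ (2 * E + 2) * (N * h ^ 2) / P := by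
    have h1 : (h / J * s + 2) ^ 2 ≤ 2 * ((h / J) ^ 2 * N + 4) := by
      rw [← hsN]
      nlinarith [sq_nonneg (h / J * s - 2)]
    have h2 : h ^ 3 * N / J ≤ N * h ^ 2 / P := by
      have : h ^ 3 ≤ h ^ 2 := pow_le_pow_of_le_one hh0.le hh1' (by norm_num)
      calc h ^ 3 * N / J ≤ h ^ 2 * N / P := by gcongr
        _ = N * h ^ 2 / P := by ring
    have h3 : J * h ≤ 2 * (N * h ^ 2) * L ^ E / P := by
      have h4 : P ^ 2 ≤ N * h * L ^ E := by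
        calc P ^ 2 ≤ P ^ 200 := hP200
          _ ≤ u ^ 2 * N := huN
          _ ≤ u * N := by
            have : u ^ 2 ≤ u := by nlinarith
            gcongr
          _ ≤ h * L ^ E * N := by gcongr
          _ = N * h * L ^ E := by ring
      rw [le_div_iff₀ hP0]
      calc J * h * P ≤ 2 * P * h * P := by gcongr
        _ = 2 * h * P ^ 2 := by ring
        _ ≤ 2 * h * (N * h * L ^ E) := by gcongr
        _ = 2 * (N * h ^ 2) * L ^ E := by ring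
    calc J ^ 2 * (h / J * (C₅ * L * (h / J * s + 2)) ^ 2) = C₅ ^ 2 * L ^ 2 * (J * h) * (h / J * s + 2) ^ 2 := by field_simp
      _ ≤ C₅ ^ 2 * L ^ 2 * (J * h) * (2 * ((h / J) ^ 2 * N + 4)) := by gcongr
      _ = C₅ ^ 2 * L ^ 2 * (2 * (h ^ 3 * N / J) + 8 * (J * h)) := by field_simp; ring
      _ ≤ C₅ ^ 2 * L ^ 2 * (2 * (N * h ^ 2 / P) + 8 * (2 * (N * h ^ 2) * L ^ E / P)) := by gcongr
      _ = C₅ ^ 2 * L ^ 2 * (N * h ^ 2 / P) * (2 * 1 + 16 * L ^ E) := by ring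
      _ ≤ C₅ ^ 2 * L ^ 2 * (N * h ^ 2 / P) * (2 * L ^ (2 * E) + 16 * L ^ (2 * E)) := by gcongr
      _ = 18 * C₅ ^ 2 * L ^ (2 * E + 2) * (N * h ^ 2) / P := by rw [pow_add]; ring
  have hsum : I ≤ C₁ * (N * h ^ 2 / L ^ (E + 2)) + C₁ * (8 * C₄ + 18 * C₅ ^ 2) * L ^ (2 * E + 2) * (N * h ^ 2) / P := by
    refine hI.trans ?_
    have h1 : J ^ 2 * (C₁ * ((h / J) ^ 2 * S + C₄ * L ^ 2 * s / M + C₄ * L ^ 2 * N / M ^ 2 + h / J * (C₅ * L * (h / J * s + 2)) ^ 2))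
        = C₁ * (J ^ 2 * ((h / J) ^ 2 * S) + J ^ 2 * (C₄ * L ^ 2 * s / M) + J ^ 2 * (C₄ * L ^ 2 * N / M ^ 2)
          + J ^ 2 * (h / J * (C₅ * L * (h / J * s + 2)) ^ 2)) := by ring
    rw [h1]
    calc C₁ * (J ^ 2 * ((h / J) ^ 2 * S) + J ^ 2 * (C₄ * L ^ 2 * s / M) + J ^ 2 * (C₄ * L ^ 2 * N / M ^ 2)
          + J ^ 2 * (h / J * (C₅ * L * (h / J * s + 2)) ^ 2))
        ≤ C₁ * (N * h ^ 2 / L ^ (E + 2) + 4 * C₄ * L ^ (2 * E + 2) * (N * h ^ 2) / P + 4 * C₄ * L ^ (2 * E + 2) * (N * h ^ 2) / P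
          + 18 * C₅ ^ 2 * L ^ (2 * E + 2) * (N * h ^ 2) / P) := by gcongr
      _ = C₁ * (N * h ^ 2 / L ^ (E + 2)) + C₁ * (8 * C₄ + 18 * C₅ ^ 2) * L ^ (2 * E + 2) * (N * h ^ 2) / P := by ring
  refine hsum.trans ?_
  have f1 : C₁ * (N * h ^ 2 / L ^ (E + 2)) ≤ N * h ^ 2 / L ^ (E + 1) / 2 := by
    have h3 : L ^ (E + 2) = L ^ (E + 1) * L := by ring
    have h4 : N * h ^ 2 / L ^ (E + 1) / 2 = (L / 2) * (N * h ^ 2 / L ^ (E + 2)) := by rw [h3]; field_simp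
    rw [h4]
    have h5 : C₁ ≤ L / 2 := by linarith
    gcongr
  have f2 : C₁ * (8 * C₄ + 18 * C₅ ^ 2) * L ^ (2 * E + 2) * (N * h ^ 2) / P ≤ N * h ^ 2 / L ^ (E + 1) / 2 := by
    rw [div_le_iff₀ hP0]
    have h1 : N * h ^ 2 / L ^ (E + 1) / 2 * (2 * C₁ * (8 * C₄ + 18 * C₅ ^ 2) * L ^ (3 * E + 3)) = C₁ * (8 * C₄ + 18 * C₅ ^ 2) * L ^ (2 * E + 2) * (N * h ^ 2) := by
      have : L ^ (3 * E + 3) = L ^ (E + 1) * L ^ (2 * E + 2) := by rw [← pow_add]; congr 1; ring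
      rw [this]; field_simp
    rw [← h1]
    gcongr
  linarith

open scoped Classical in
theorem ZPW (hPWF : PWF_stmt) (hWSP : WSP_stmt) (hMV2 : MV2_stmt) (hSCW : SCW_stmt) (hFFC : FFC_stmt) (hYYB : YYB_stmt) : ZPW_stmt := by
  obtain ⟨C₁, hC₁, hP⟩ := hPWF
  obtain ⟨C₂, hC₂, hMV⟩ := hMV2
  obtain ⟨C₃, hC₃, hS⟩ := hSCW
  intro η hη E
  set C₄ : ℝ := 900 * C₂ with hC₄
  set C₅ : ℝ := 3 * C₃ with hC₅
  obtain ⟨x₀, hx₀, hlar⟩ := ZPW_large η (max (max 1 (2 * C₁)) (2 * C₁ * (8 * C₄ + 18 * C₅ ^ 2))) (3 * E + 3) hη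
  refine ⟨x₀, ?_⟩
  intro x hx A N M₁ α h f hA1 hAx hN1 hN2 hM1 hα0 hα1 hf hh1 hh2 hsum
  obtain ⟨hK1, hK2, hP2⟩ := hlar x hx
  set L := Real.log x with hL
  set P := (x : ℝ) ^ (η / 200) with hPdef
  have hL1 : 1 ≤ L := le_trans (le_trans (le_max_left _ _) (le_max_left _ _)) hK1
  have hL2 : 2 * C₁ ≤ L := le_trans (le_trans (le_max_right _ _) (le_max_left _ _)) hK1
  have hx1 : (1 : ℝ) ≤ x := by exact_mod_cast hx₀.trans hx
  have hx0 : (0 : ℝ) < x := by linarith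
  have hA0 : (0 : ℝ) < A := by exact_mod_cast (by omega : 0 < A)
  have hP0 : 0 < P := by linarith
  have hKP : 2 * C₁ * (8 * C₄ + 18 * C₅ ^ 2) * L ^ (3 * E + 3) ≤ P := by
    refine le_trans ?_ hK2
    gcongr
    exact le_max_right _ _
  -- u = A / x
  set u : ℝ := (A : ℝ) / x with hu
  have hu0 : 0 < u := by positivity
  have hu1 : u ≤ 1 := by rw [hu, div_le_one hx0]; exact_mod_cast hAx
  have hP200 : P ^ 200 = (x : ℝ) ^ η := by
    rw [hPdef, ← Real.rpow_natCast, ← Real.rpow_mul hx0.le]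
    congr 1
    push_cast
    ring
  have hPsq : P ^ 2 = (x : ℝ) ^ (η / 100) := by
    rw [hPdef, ← Real.rpow_natCast, ← Real.rpow_mul hx0.le]
    congr 1
    push_cast
    ring
  have huN : P ^ 200 ≤ u ^ 2 * N := by
    rw [hP200, hu, div_pow, div_mul_eq_mul_div, le_div_iff₀ (by positivity), mul_comm]
    exact hN1
  have hN0 : (0 : ℝ) < N := by
    by_contra hcon
    have : (N : ℝ) = 0 := le_antisymm (not_lt.1 hcon) (Nat.cast_nonneg N)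
    rw [this, mul_zero] at huN
    linarith [pow_pos hP0 200]
  have hNn : 1 ≤ N := by
    have : 0 < N := by exact_mod_cast hN0
    omega
  have hh0 : 0 < h := lt_of_lt_of_le (by positivity) hh1
  have hhu : u ≤ h * L ^ E := by
    rw [hu, div_le_iff₀ hx0]
    rw [div_le_iff₀ (by positivity)] at hh1
    linarith
  have hM : P ^ 2 ≤ u * M₁ := by
    rw [hPsq, hu]
    have h1 := mul_le_mul_of_nonneg_left hM1 hu0.le
    have h2 : u * ((x : ℝ) / A * (x : ℝ) ^ (η / 100)) = (x : ℝ) ^ (η / 100) := by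
      rw [hu]; field_simp
    rw [h2] at h1
    exact h1
  have hM1r : (2 : ℝ) ≤ M₁ := by
    have h1 : u * (M₁ : ℝ) ≤ 1 * M₁ := by gcongr
    nlinarith
  have hM2 : 2 ≤ M₁ := by exact_mod_cast hM1r
  -- J
  set J := ⌈P⌉₊ with hJ
  have hJ1 : P ≤ J := Nat.le_ceil P
  have hJ2 : (J : ℝ) ≤ 2 * P := by
    have := (Nat.ceil_lt_add_one hP0.le).le
    linarith
  have hJ0 : (0 : ℝ) < J := by linarith
  have hJn : 1 ≤ J := by
    have : 0 < J := by exact_mod_cast hJ0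
    omega
  set s := √(N : ℝ) with hs
  have hs0 : 0 < s := Real.sqrt_pos.2 hN0
  have hsN : s ^ 2 = N := Real.sq_sqrt hN0.le
  have hZF : ZD N ⊆ FF (2 * N) := Finset.filter_subset _ _
  have hFd : ∀ z ∈ ZD N, Fd z := by
    intro z hz
    have := hZF hz
    unfold FF at this
    exact (Finset.mem_filter.1 this).2.1
  -- second moment
  have hf2 : ∑ z ∈ FF (2 * N), ‖(if z ∈ ZD N then f z else 0)‖ ^ 2 ≤ 450 * L ^ 2 := by
    have h1 : ∀ z ∈ FF (2 * N), ‖(if z ∈ ZD N then f z else 0)‖ ^ 2 ≤ 9 * L ^ 2 / N := by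
      intro z _
      by_cases hz : z ∈ ZD N
      · rw [if_pos hz]
        have h2 := hf z hz
        calc ‖f z‖ ^ 2 ≤ (3 * L / s) ^ 2 := by gcongr
          _ = 9 * L ^ 2 / N := by rw [div_pow, hsN]; ring
      · rw [if_neg hz, norm_zero, zero_pow (by norm_num)]
        positivity
    refine (Finset.sum_le_sum h1).trans ?_
    rw [Finset.sum_const, nsmul_eq_mul]
    have h3 := (hFFC (2 * N)).1
    push_cast at h3
    calc ((FF (2 * N)).card : ℝ) * (9 * L ^ 2 / N) ≤ (25 * (2 * N)) * (9 * L ^ 2 / N) := by gcongr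
      _ = 450 * L ^ 2 := by field_simp; ring
  have hfreq : ∀ M : ℕ, M₁ ≤ M → ∑ m ∈ Icc (-(M : ℤ)) M, ‖∑ z ∈ ZD N, f z * Complex.exp (((fr α m * yy z : ℝ) : ℂ) * Complex.I)‖ ^ 2
      ≤ M * (C₄ * L ^ 2 * s) + C₄ * L ^ 2 * N := by
    intro M hMM
    have h1 := hMV (2 * N) M α (fun z => if z ∈ ZD N then f z else 0) (by omega) (by omega) hα0 hα1
    have h2 : ∀ m : ℤ, ∑ z ∈ FF (2 * N), (if z ∈ ZD N then f z else 0) * Complex.exp (((fr α m * yy z : ℝ) : ℂ) * Complex.I)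
        = ∑ z ∈ ZD N, f z * Complex.exp (((fr α m * yy z : ℝ) : ℂ) * Complex.I) := by
      intro m
      rw [← Finset.sum_subset hZF]
      · refine Finset.sum_congr rfl fun z hz => ?_
        rw [if_pos hz]
      · intro z _ hz
        rw [if_neg hz, zero_mul]
    simp only [h2] at h1
    refine h1.trans ?_
    have h3 : √((2 * N : ℕ) : ℝ) ≤ 2 * s := by
      rw [Real.sqrt_le_left (by positivity)]
      push_cast
      rw [mul_pow, hsN]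
      linarith
    calc C₂ * (((2 * N : ℕ) : ℝ) + M * √((2 * N : ℕ) : ℝ)) * ∑ z ∈ FF (2 * N), ‖(if z ∈ ZD N then f z else 0)‖ ^ 2
        ≤ C₂ * (((2 * N : ℕ) : ℝ) + M * (2 * s)) * (450 * L ^ 2) := by gcongr
      _ = M * (C₄ * L ^ 2 * s) + C₄ * L ^ 2 * N := by rw [hC₄]; push_cast; ring
  -- windows
  have hwin : ∀ y : ℝ, ‖∑ z ∈ ZD N with (y < yy z ∧ yy z ≤ y + h / J), f z‖ ≤ C₅ * L * (h / J * s + 2) := by
    intro y
    have h1 : ‖∑ z ∈ ZD N with (y < yy z ∧ yy z ≤ y + h / J), f z‖ ≤ (#{z ∈ ZD N | y < yy z ∧ yy z ≤ y + h / J} : ℝ) * (3 * L / s) := by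
      refine (norm_sum_le _ _).trans ?_
      rw [← nsmul_eq_mul, ← Finset.sum_const]
      exact Finset.sum_le_sum fun z hz => hf z (Finset.mem_filter.1 hz).1
    have h2 : (#{z ∈ ZD N | y < yy z ∧ yy z ≤ y + h / J} : ℝ) ≤ #{z ∈ FE (2 * N) | |yy z - (y + h / J / 2)| ≤ h / J / 2} := by
      have : {z ∈ ZD N | y < yy z ∧ yy z ≤ y + h / J} ⊆ {z ∈ FE (2 * N) | |yy z - (y + h / J / 2)| ≤ h / J / 2} := by
        intro z hz
        rw [Finset.mem_filter] at hz ⊢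
        refine ⟨?_, ?_⟩
        · have h3 := hZF hz.1
          unfold FF at h3
          unfold FE
          rw [Finset.mem_filter] at h3 ⊢
          refine ⟨?_, h3.2.1.2, h3.2.2⟩
          have h4 := h3.1
          simp only [Bx, Finset.mem_product, Finset.mem_Icc] at h4 ⊢
          push_cast at h4 ⊢
          constructor <;> constructor <;> linarith [h4.1.1, h4.1.2, h4.2.1, h4.2.2]
        · rw [abs_le]
          constructor <;> linarith [hz.2.1, hz.2.2]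
      exact_mod_cast Finset.card_le_card this
    have h3 := hS (2 * N) (y + h / J / 2) (h / J / 2) (by omega) (by positivity)
    have h4 : √((2 * N : ℕ) : ℝ) ≤ 2 * s := by
      rw [Real.sqrt_le_left (by positivity)]
      push_cast
      rw [mul_pow, hsN]
      linarith
    calc ‖∑ z ∈ ZD N with (y < yy z ∧ yy z ≤ y + h / J), f z‖
        ≤ (#{z ∈ ZD N | y < yy z ∧ yy z ≤ y + h / J} : ℝ) * (3 * L / s) := h1
      _ ≤ (C₃ * (h / J / 2 * ((2 * N : ℕ) : ℝ) + √((2 * N : ℕ) : ℝ))) * (3 * L / s) := by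
          gcongr
          exact h2.trans h3
      _ ≤ (C₃ * (h / J / 2 * ((2 * N : ℕ) : ℝ) + 2 * s)) * (3 * L / s) := by gcongr
      _ = C₅ * L * (h / J * s + 2) := by
          push_cast
          rw [hC₅, ← hsN]
          field_simp
  have hhJ : h / J ≤ 1 := by
    rw [div_le_one hJ0]
    have : h ≤ 1 := hh2.trans hu1
    linarith
  have hYY : ∀ z ∈ ZD N, |yy z| ≤ lep := fun z hz => hYYB z (hFd z hz)
  have hp := hP (ZD N) f α (h / J) (C₄ * L ^ 2 * s) (C₄ * L ^ 2 * N) (C₅ * L * (h / J * s + 2)) M₁ hYY hα0 hα1 hM2 (by positivity) hhJ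
    (by positivity) (by positivity) (by positivity) hfreq hwin
  have hw := hWSP (ZD N) f h J hh0 hJn
  refine ZPW_num C₁ C₄ C₅ L P N s u h J M₁ _ _ E hC₁ (by positivity) (by positivity) hL1 hL2 hP2 hKP hs0 hsN hu0 hu1 huN hhu hh2 hh0 hJ1 hJ2 hM hsum
    (Finset.sum_nonneg fun m _ => by positivity) ?_
  refine hw.trans ?_
  exact mul_le_mul_of_nonneg_left hp (by positivity)

end Pool.Agent.EU
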